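import Mathlib
import Pool.Agent.Lib.MP_ec946a_sdp.HMain

/-!
# Rank hypercontractivity: definitions and statements of the rows

`th p K F` is the square of the `L^p` norm of `F` for the uniform probability on the finite set
`K`, `dd p K F H` is one half of its second derivative at `F` in the direction `H`.
-/

set_option autoImplicit false
set_option linter.unusedSectionVars false

namespace Pool.Agent.MP_ec946a.RH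

open Finset Pool.Agent.MP_ec946a.SDP

/-- the mean over a finite set -/
noncomputable def mn {D : Type} (K : Finset D) (φ : D → ℝ) : ℝ := (∑ d ∈ K, φ d) / K.card

/-- the square of the `L^p` norm of a nonnegative function -/
noncomputable def th {D : Type} (p : ℝ) (K : Finset D) (F : D → ℝ) : ℝ :=
  (mn K fun d => F d ^ p) ^ (2 / p)

/-- the derivative of `th p K` at `F` in the direction `H` -/
noncomputable def d1 {D : Type} (p : ℝ) (K : Finset D) (F H : D → ℝ) : ℝ :=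
  2 * (mn K fun d => F d ^ p) ^ (2 / p - 1) * mn K fun d => F d ^ (p - 1) * H d

/-- half of the second derivative of `th p K` at `F` in the direction `H` -/
noncomputable def dd {D : Type} (p : ℝ) (K : Finset D) (F H : D → ℝ) : ℝ :=
  (p - 1) * (mn K fun d => F d ^ p) ^ (2 / p - 1) * (mn K fun d => F d ^ (p - 2) * H d ^ 2)
    + (2 - p) * (mn K fun d => F d ^ p) ^ (2 / p - 2) * (mn K fun d => F d ^ (p - 1) * H d) ^ 2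

/-- the sum of `th p` over the two halves `K0`, `K1` and the two signs of `G` -/
noncomputable def four {D : Type} (p : ℝ) (K0 K1 : Finset D) (G : D → ℝ) : ℝ :=
  th p K0 (fun d => max (G d) 0) + th p K0 (fun d => max (-G d) 0)
    + (th p K1 (fun d => max (G d) 0) + th p K1 (fun d => max (-G d) 0))

/-- row A1 -/
def LemT : Prop := ∀ (D : Type) (A : Finset D) (v g : D → ℝ) (q : ℝ), 1 < q → q ≤ 2 →
  (∀ d ∈ A, 0 ≤ v d) → (∀ d ∈ A, 0 ≤ g d) → ∀ m : ℝ, m = ∑ d ∈ A with 0 < g d, v d → m ≤ 2 →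
    (∑ d ∈ A, v d * g d ^ q) ^ (2 / q)
      ≤ ∑ d ∈ A, v d * g d ^ 2 - (∑ d ∈ A, v d * g d) ^ 2 / m * (1 - m ^ ((2 - q) / q))

/-- row A2 -/
def LemT' : Prop := ∀ (D : Type) (A : Finset D) (v g : D → ℝ) (s : ℝ), 2 ≤ s →
  (∀ d ∈ A, 0 ≤ v d) → (∀ d ∈ A, 0 ≤ g d) → ∀ m : ℝ, m = ∑ d ∈ A with 0 < g d, v d → m ≤ 2 →
    ∑ d ∈ A, v d * g d ^ 2 + (∑ d ∈ A, v d * g d) ^ 2 / m * (m ^ (-((s - 2) / s)) - 1)
      ≤ (∑ d ∈ A, v d * g d ^ s) ^ (2 / s)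

/-- row A3, first half -/
def Mass : Prop := ∀ m₁ m₂ m₃ m₄ a₁ a₂ a₃ a₄ δ : ℝ, 0 ≤ m₁ → 0 ≤ m₂ → 0 ≤ m₃ → 0 ≤ m₄ →
  0 ≤ a₁ → 0 ≤ a₂ → 0 ≤ a₃ → 0 ≤ a₄ → (m₁ = 0 → a₁ = 0) → (m₂ = 0 → a₂ = 0) →
  (m₃ = 0 → a₃ = 0) → (m₄ = 0 → a₄ = 0) → m₁ + m₂ + m₃ + m₄ ≤ 2 → 0 ≤ δ → δ < 1 →
    0 ≤ a₁ ^ 2 / m₁ * (1 - m₁ ^ δ) + a₂ ^ 2 / m₂ * (1 - m₂ ^ δ) + a₃ ^ 2 / m₃ * (1 - m₃ ^ δ)
      + a₄ ^ 2 / m₄ * (1 - m₄ ^ δ) + δ / (1 - δ) * (a₁ + a₂ - a₃ - a₄) ^ 2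

/-- row A3, second half -/
def Mass' : Prop := ∀ m₁ m₂ m₃ m₄ a₁ a₂ a₃ a₄ δ : ℝ, 0 ≤ m₁ → 0 ≤ m₂ → 0 ≤ m₃ → 0 ≤ m₄ →
  0 ≤ a₁ → 0 ≤ a₂ → 0 ≤ a₃ → 0 ≤ a₄ → (m₁ = 0 → a₁ = 0) → (m₂ = 0 → a₂ = 0) →
  (m₃ = 0 → a₃ = 0) → (m₄ = 0 → a₄ = 0) → m₁ + m₂ + m₃ + m₄ ≤ 2 → 0 ≤ δ → δ ≤ 1 →
    0 ≤ a₁ ^ 2 / m₁ * (m₁ ^ (-δ) - 1) + a₂ ^ 2 / m₂ * (m₂ ^ (-δ) - 1)
      + a₃ ^ 2 / m₃ * (m₃ ^ (-δ) - 1) + a₄ ^ 2 / m₄ * (m₄ ^ (-δ) - 1)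
      + δ / (1 + δ) * (a₁ + a₂ - a₃ - a₄) ^ 2

/-- row B, first half -/
def PQ : Prop := ∀ (D : Type) (K K0 K1 : Finset D) (F G H : D → ℝ) (p : ℝ), 1 < p → p ≤ 2 →
  0 < K0.card → K1.card = K0.card →
  (∀ φ : D → ℝ, ∑ d ∈ K, φ d = ∑ d ∈ K0, φ d + ∑ d ∈ K1, φ d) →
  (∀ d ∈ K0, 0 < F d) → (∀ d ∈ K1, 0 < F d) → (∀ d ∈ K0, H d = G d) → (∀ d ∈ K1, H d = -G d) →
    (p - 1) / 2 * four p K0 K1 G ≤ dd p K F H

/-- row B, second half -/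
def PS : Prop := ∀ (D : Type) (K K0 K1 : Finset D) (F G H : D → ℝ) (p : ℝ), 2 ≤ p →
  0 < K0.card → K1.card = K0.card →
  (∀ φ : D → ℝ, ∑ d ∈ K, φ d = ∑ d ∈ K0, φ d + ∑ d ∈ K1, φ d) →
  (∀ d ∈ K0, 0 < F d) → (∀ d ∈ K1, 0 < F d) → (∀ d ∈ K0, H d = G d) → (∀ d ∈ K1, H d = -G d) →
    dd p K F H ≤ (p - 1) / 2 * four p K0 K1 G

/-- row C, first derivative -/
def DER1 : Prop := ∀ (D : Type) (K : Finset D) (A H : D → ℝ) (p σ : ℝ), 1 < p → K.Nonempty →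
  (∀ d ∈ K, 0 < A d + σ * H d) →
    HasDerivAt (fun τ : ℝ => th p K fun d => A d + τ * H d)
      (d1 p K (fun d => A d + σ * H d) H) σ

/-- row C, second derivative -/
def DER2 : Prop := ∀ (D : Type) (K : Finset D) (A H : D → ℝ) (p σ : ℝ), 1 < p → K.Nonempty →
  (∀ d ∈ K, 0 < A d + σ * H d) →
    HasDerivAt (fun τ : ℝ => d1 p K (fun d => A d + τ * H d) H)
      (2 * dd p K (fun d => A d + σ * H d) H) σ

section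

variable {Ω D : Type} [Fintype Ω] [DecidableEq Ω] [Fintype D] [DecidableEq D] [AddCommGroup D]

/-- rank hypercontractivity for the subgroup `ker ℓ T` -/
def RankHyp (ℓ : Ω → (D →+ ZMod 2)) (T : Finset Ω) (q s : ℝ) : Prop :=
  ∀ f : (Ω → ZMod 2) → ℝ, (∀ x, 0 ≤ f x) →
    mn (ker ℓ T) (fun γ => ∑ x, th s (ker ℓ T) fun d => cexp ℓ γ f (x + sh ℓ d))
      ≤ ∑ x, th q (ker ℓ T) fun d => f (x + sh ℓ d)

end

/-- row D -/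
def Ind : Prop := PQ → PS → DER1 → DER2 →
  ∀ (Ω D : Type) [Fintype Ω] [DecidableEq Ω] [Fintype D] [DecidableEq D] [AddCommGroup D]
    (ℓ : Ω → (D →+ ZMod 2)) (T : Finset Ω) (q s : ℝ), 3 / 2 ≤ q → q ≤ 2 → s = 2 * q - 1 →
    RankHyp ℓ T q s

/-- row E: the hyperplane game -/
def Gam : Prop :=
  (∀ (Ω D : Type) [Fintype Ω] [DecidableEq Ω] [Fintype D] [DecidableEq D] [AddCommGroup D]
    (ℓ : Ω → (D →+ ZMod 2)), RankHyp ℓ ∅ (1 + 1 / √2) (1 + √2)) →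
  ∀ (k : ℕ) (hk : 1 ≤ k),
    (hgame k hk).value ≤ 2 * ((2 ^ k : ℕ) : ℝ) ^ (-(3 - 2 * √2) : ℝ)

end Pool.Agent.MP_ec946a.RH
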