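import Mathlib
import Pool.Agent.Lib.RH.Defs

/-!
# Rank hypercontractivity, row B

The second derivative of the square of the norm in a direction `G` on one half and `-G` on the
other half, compared with the norms of the positive and negative parts of `G` on the halves.
-/

set_option autoImplicit false

namespace Pool.Agent.MP_ec946a.RH

open Finset

section
variable {D : Type}

/-- The weight `F^p / (N M)`. -/
noncomputable def wt (p N M : ℝ) (F : D → ℝ) (d : D) : ℝ := F d ^ p / (N * M)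

/-- The normalised size `x M^(1/p) / F`. -/
noncomputable def sz (p M : ℝ) (F x : D → ℝ) (d : D) : ℝ := x d * M ^ (1 / p) / F d

lemma wt_sz_pow {p N M : ℝ} (hp : 0 < p) (hN : 0 < N) (hM : 0 < M) {F x : D → ℝ} {d : D}
    (hF : 0 < F d) (hx : 0 ≤ x d) :
    wt p N M F d * sz p M F x d ^ p = x d ^ p / N := by
  unfold wt sz
  have hM1 : 0 ≤ M ^ (1 / p) := (Real.rpow_pos_of_pos hM _).le
  have hM2 : (M ^ (1 / p)) ^ p = M := by
    rw [← Real.rpow_mul hM.le, one_div_mul_cancel hp.ne', Real.rpow_one]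
  rw [Real.div_rpow (mul_nonneg hx hM1) hF.le, Real.mul_rpow hx hM1, hM2]
  have h1 : 0 < F d ^ p := Real.rpow_pos_of_pos hF _
  field_simp

lemma wt_sz_sq {p N M : ℝ} (hp : 0 < p) (hN : 0 < N) (hM : 0 < M) {F x : D → ℝ} {d : D}
    (hF : 0 < F d) :
    wt p N M F d * sz p M F x d ^ 2 = M ^ (2 / p - 1) / N * (F d ^ (p - 2) * x d ^ 2) := by
  unfold wt sz
  have hM2 : (M ^ (1 / p)) ^ 2 = M ^ (2 / p - 1) * M := by
    rw [← Real.rpow_natCast, ← Real.rpow_mul hM.le, ← Real.rpow_add_one hM.ne']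
    congr 1
    push_cast
    ring
  have hF2 : F d ^ p = F d ^ (p - 2) * F d ^ 2 := by
    rw [← Real.rpow_natCast (F d) 2, ← Real.rpow_add hF]
    congr 1
    push_cast
    ring
  rw [div_pow, mul_pow, hM2, hF2]
  field_simp

lemma wt_sz_one {p N M : ℝ} (hp : 0 < p) (hN : 0 < N) (hM : 0 < M) {F x : D → ℝ} {d : D}
    (hF : 0 < F d) :
    wt p N M F d * sz p M F x d = M ^ (1 / p - 1) / N * (F d ^ (p - 1) * x d) := by
  unfold wt sz
  have hM2 : M ^ (1 / p) = M ^ (1 / p - 1) * M := by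
    rw [← Real.rpow_add_one hM.ne']
    congr 1
    ring
  have hF2 : F d ^ p = F d ^ (p - 1) * F d := by
    rw [← Real.rpow_add_one hF.ne']
    congr 1
    ring
  rw [hM2, hF2]
  field_simp

lemma mn_split {K K0 K1 : Finset D} (hc : K1.card = K0.card)
    (hK : ∀ φ : D → ℝ, ∑ d ∈ K, φ d = ∑ d ∈ K0, φ d + ∑ d ∈ K1, φ d) (φ : D → ℝ) :
    mn K φ = (∑ d ∈ K0, φ d + ∑ d ∈ K1, φ d) / (2 * K0.card) := by
  have h := hK fun _ => 1
  simp only [sum_const, nsmul_eq_mul, mul_one] at h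
  unfold mn
  rw [hK φ, h, hc]
  congr 1
  ring

/-- All quantities of the second derivative in terms of the weights. -/
lemma expand {p : ℝ} (hp : 0 < p) {K K0 K1 : Finset D} (hne : 0 < K0.card)
    (hc : K1.card = K0.card)
    (hK : ∀ φ : D → ℝ, ∑ d ∈ K, φ d = ∑ d ∈ K0, φ d + ∑ d ∈ K1, φ d) {F G H : D → ℝ}
    (hF0 : ∀ d ∈ K0, 0 < F d) (hF1 : ∀ d ∈ K1, 0 < F d)
    (hH0 : ∀ d ∈ K0, H d = G d) (hH1 : ∀ d ∈ K1, H d = -G d) :
    ∃ (v gp gm : D → ℝ), (∀ K' : Finset D, K' = K0 ∨ K' = K1 → (∀ d ∈ K', 0 < v d) ∧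
        (∀ d ∈ K', 0 ≤ gp d) ∧ (∀ d ∈ K', 0 ≤ gm d) ∧ (∀ d ∈ K', 0 < gp d ↔ 0 < G d) ∧
        (∀ d ∈ K', 0 < gm d ↔ G d < 0) ∧
        (mn K' (fun d => max (G d) 0 ^ p) = ∑ d ∈ K', v d * gp d ^ p) ∧
        (mn K' (fun d => max (-G d) 0 ^ p) = ∑ d ∈ K', v d * gm d ^ p)) ∧
      (∑ d ∈ K0, v d + ∑ d ∈ K1, v d = 2) ∧
      dd p K F H =
        (p - 1) / 2 * (∑ d ∈ K0, v d * gp d ^ 2 + ∑ d ∈ K0, v d * gm d ^ 2
          + ∑ d ∈ K1, v d * gp d ^ 2 + ∑ d ∈ K1, v d * gm d ^ 2)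
        + (2 - p) / 4 * (∑ d ∈ K0, v d * gp d + ∑ d ∈ K1, v d * gm d
          - ∑ d ∈ K0, v d * gm d - ∑ d ∈ K1, v d * gp d) ^ 2 := by
  have hN : (0 : ℝ) < K0.card := by exact_mod_cast hne
  obtain ⟨N, hNdef⟩ : ∃ N : ℝ, N = K0.card := ⟨_, rfl⟩
  obtain ⟨M, hMdef⟩ : ∃ M : ℝ, M = mn K (fun d => F d ^ p) := ⟨_, rfl⟩
  have hN0 : 0 < N := by rw [hNdef]; exact hN
  have hsum0 : 0 < ∑ d ∈ K0, F d ^ p :=
    sum_pos (fun d h => Real.rpow_pos_of_pos (hF0 d h) _) (card_pos.mp hne)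
  have hsum1 : 0 ≤ ∑ d ∈ K1, F d ^ p :=
    sum_nonneg (fun d h => (Real.rpow_pos_of_pos (hF1 d h) _).le)
  have hMe : M = (∑ d ∈ K0, F d ^ p + ∑ d ∈ K1, F d ^ p) / (2 * N) := by
    rw [hMdef, mn_split hc hK, hNdef]
  have hM0 : 0 < M := by rw [hMe]; positivity
  refine ⟨wt p N M F, sz p M F (fun d => max (G d) 0), sz p M F (fun d => max (-G d) 0),
    fun K' hK' => ?_, ?_, ?_⟩
  · have hFK : ∀ d ∈ K', 0 < F d := by
      rcases hK' with h | h
      · rw [h]; exact hF0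
      · rw [h]; exact hF1
    have hNK : N = K'.card := by
      rcases hK' with h | h
      · rw [h, hNdef]
      · rw [h, hc, hNdef]
    refine ⟨fun d h => ?_, fun d h => ?_, fun d h => ?_, fun d h => ?_, fun d h => ?_, ?_, ?_⟩
    · have := Real.rpow_pos_of_pos (hFK d h) p
      unfold wt; positivity
    · have := Real.rpow_pos_of_pos hM0 (1 / p)
      have := hFK d h
      unfold sz; positivity
    · have := Real.rpow_pos_of_pos hM0 (1 / p)
      have := hFK d h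
      unfold sz; positivity
    · have h1 := Real.rpow_pos_of_pos hM0 (1 / p)
      have h2 := hFK d h
      unfold sz
      rw [div_pos_iff_of_pos_right h2, mul_pos_iff_of_pos_right h1, lt_max_iff]
      simp
    · have h1 := Real.rpow_pos_of_pos hM0 (1 / p)
      have h2 := hFK d h
      unfold sz
      rw [div_pos_iff_of_pos_right h2, mul_pos_iff_of_pos_right h1, lt_max_iff]
      simp
    · unfold mn
      rw [sum_div, ← hNK]
      exact sum_congr rfl fun d h =>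
        (wt_sz_pow hp hN0 hM0 (x := fun d => max (G d) 0) (hFK d h) (le_max_right _ _)).symm
    · unfold mn
      rw [sum_div, ← hNK]
      exact sum_congr rfl fun d h =>
        (wt_sz_pow hp hN0 hM0 (x := fun d => max (-G d) 0) (hFK d h) (le_max_right _ _)).symm
  · simp only [wt]
    rw [← sum_div, ← sum_div, ← add_div, hMe]
    field_simp
  · have hsq : ∀ x : ℝ, max x 0 ^ 2 + max (-x) 0 ^ 2 = x ^ 2 := by
      intro x
      rcases le_total x 0 with h | h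
      · rw [max_eq_right h, max_eq_left (by linarith)]; ring
      · rw [max_eq_left h, max_eq_right (by linarith)]; ring
    have hsub : ∀ x : ℝ, max x 0 - max (-x) 0 = x := by
      intro x
      rcases le_total x 0 with h | h
      · rw [max_eq_right h, max_eq_left (by linarith)]; ring
      · rw [max_eq_left h, max_eq_right (by linarith)]; ring
    have s2 : ∀ (K : Finset D), (∀ d ∈ K, 0 < F d) → (∀ d ∈ K, H d ^ 2 = G d ^ 2) →
        ∑ d ∈ K, wt p N M F d * sz p M F (fun d => max (G d) 0) d ^ 2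
          + ∑ d ∈ K, wt p N M F d * sz p M F (fun d => max (-G d) 0) d ^ 2
          = M ^ (2 / p - 1) / N * ∑ d ∈ K, F d ^ (p - 2) * H d ^ 2 := by
      intro K hFK hHK
      rw [← sum_add_distrib, mul_sum]
      refine sum_congr rfl fun d h => ?_
      rw [wt_sz_sq hp hN0 hM0 (hFK d h), wt_sz_sq hp hN0 hM0 (hFK d h), hHK d h, ← hsq (G d)]
      ring
    have s1 : ∀ (K : Finset D), (∀ d ∈ K, 0 < F d) →
        ∑ d ∈ K, wt p N M F d * sz p M F (fun d => max (G d) 0) d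
          - ∑ d ∈ K, wt p N M F d * sz p M F (fun d => max (-G d) 0) d
          = M ^ (1 / p - 1) / N * ∑ d ∈ K, F d ^ (p - 1) * G d := by
      intro K hFK
      rw [← sum_sub_distrib, mul_sum]
      refine sum_congr rfl fun d h => ?_
      rw [wt_sz_one hp hN0 hM0 (hFK d h), wt_sz_one hp hN0 hM0 (hFK d h)]
      conv_rhs => rw [← hsub (G d)]
      ring
    have e20 := s2 K0 hF0 (fun d h => by rw [hH0 d h])
    have e21 := s2 K1 hF1 (fun d h => by rw [hH1 d h]; ring)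
    have e10 := s1 K0 hF0
    have e11 := s1 K1 hF1
    have r0 : ∑ d ∈ K0, F d ^ (p - 1) * H d = ∑ d ∈ K0, F d ^ (p - 1) * G d :=
      sum_congr rfl fun d h => by rw [hH0 d h]
    have r1 : ∑ d ∈ K1, F d ^ (p - 1) * H d = -∑ d ∈ K1, F d ^ (p - 1) * G d := by
      rw [← sum_neg_distrib]
      exact sum_congr rfl fun d h => by rw [hH1 d h]; ring
    have hM3 : M ^ (2 / p - 2) = (M ^ (1 / p - 1)) ^ 2 := by
      rw [← Real.rpow_natCast, ← Real.rpow_mul hM0.le]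
      congr 1
      push_cast
      ring
    have q2 : ∑ d ∈ K0, wt p N M F d * sz p M F (fun d => max (G d) 0) d ^ 2
          + ∑ d ∈ K0, wt p N M F d * sz p M F (fun d => max (-G d) 0) d ^ 2
          + ∑ d ∈ K1, wt p N M F d * sz p M F (fun d => max (G d) 0) d ^ 2
          + ∑ d ∈ K1, wt p N M F d * sz p M F (fun d => max (-G d) 0) d ^ 2
        = M ^ (2 / p - 1) / N * (∑ d ∈ K0, F d ^ (p - 2) * H d ^ 2
          + ∑ d ∈ K1, F d ^ (p - 2) * H d ^ 2) := by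
      rw [mul_add, ← e20, ← e21]; ring
    have q1 : ∑ d ∈ K0, wt p N M F d * sz p M F (fun d => max (G d) 0) d
          + ∑ d ∈ K1, wt p N M F d * sz p M F (fun d => max (-G d) 0) d
          - ∑ d ∈ K0, wt p N M F d * sz p M F (fun d => max (-G d) 0) d
          - ∑ d ∈ K1, wt p N M F d * sz p M F (fun d => max (G d) 0) d
        = M ^ (1 / p - 1) / N * (∑ d ∈ K0, F d ^ (p - 1) * H d
          + ∑ d ∈ K1, F d ^ (p - 1) * H d) := by
      rw [r0, r1, mul_add, mul_neg, ← e10, ← e11]; ring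
    rw [q2, q1]
    unfold dd
    rw [← hMdef, mn_split hc hK, mn_split hc hK, ← hNdef, hM3]
    field_simp
    ring

end

/-- Masses and first moments of the four pieces. -/
lemma masses {D : Type} {K0 K1 : Finset D} {v gp gm G : D → ℝ}
    (h : ∀ K' : Finset D, K' = K0 ∨ K' = K1 → (∀ d ∈ K', 0 < v d) ∧
        (∀ d ∈ K', 0 ≤ gp d) ∧ (∀ d ∈ K', 0 ≤ gm d) ∧ (∀ d ∈ K', 0 < gp d ↔ 0 < G d) ∧
        (∀ d ∈ K', 0 < gm d ↔ G d < 0))
    (hv : ∑ d ∈ K0, v d + ∑ d ∈ K1, v d = 2) :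
    (∀ K' : Finset D, K' = K0 ∨ K' = K1 → ∀ g : D → ℝ, g = gp ∨ g = gm →
      0 ≤ ∑ d ∈ K' with 0 < g d, v d ∧ 0 ≤ ∑ d ∈ K', v d * g d ∧
      (∑ d ∈ K' with 0 < g d, v d = 0 → ∑ d ∈ K', v d * g d = 0)) ∧
    (∑ d ∈ K0 with 0 < gp d, v d) + (∑ d ∈ K1 with 0 < gm d, v d)
      + (∑ d ∈ K0 with 0 < gm d, v d) + (∑ d ∈ K1 with 0 < gp d, v d) ≤ 2 := by
  classical
  constructor
  · intro K' hK' g hg
    obtain ⟨h1, h2, h3, -, -⟩ := h K' hK'
    have hg0 : ∀ d ∈ K', 0 ≤ g d := by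
      rcases hg with rfl | rfl
      · exact h2
      · exact h3
    refine ⟨sum_nonneg fun d hd => (h1 d (mem_filter.mp hd).1).le,
      sum_nonneg fun d hd => mul_nonneg (h1 d hd).le (hg0 d hd), fun h0 => ?_⟩
    refine sum_eq_zero fun d hd => ?_
    rcases (hg0 d hd).eq_or_lt with he | hlt
    · rw [← he, mul_zero]
    · exfalso
      have h4 : d ∈ K'.filter (fun d => 0 < g d) := mem_filter.mpr ⟨hd, hlt⟩
      have h5 : 0 < ∑ d ∈ K' with 0 < g d, v d :=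
        sum_pos (fun e he => h1 e (mem_filter.mp he).1) ⟨d, h4⟩
      linarith
  · have key : ∀ K' : Finset D, K' = K0 ∨ K' = K1 →
        (∑ d ∈ K' with 0 < gp d, v d) + (∑ d ∈ K' with 0 < gm d, v d) ≤ ∑ d ∈ K', v d := by
      intro K' hK'
      obtain ⟨h1, -, -, h4, h5⟩ := h K' hK'
      rw [← sum_union]
      · refine sum_le_sum_of_subset_of_nonneg ?_ fun d hd _ => (h1 d hd).le
        exact union_subset (filter_subset _ _) (filter_subset _ _)
      · rw [disjoint_left]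
        intro d hd hd'
        rw [mem_filter] at hd hd'
        have := (h4 d hd.1).mp hd.2
        have := (h5 d hd'.1).mp hd'.2
        linarith
    have := key K0 (Or.inl rfl)
    have := key K1 (Or.inr rfl)
    linarith

/-- Row B, first half. -/
theorem pq (hT : LemT) (hM : Mass) : PQ := by
  intro D K K0 K1 F G H p hp1 hp2 hne hc hK hF0 hF1 hH0 hH1
  have hp : 0 < p := by linarith
  obtain ⟨v, gp, gm, hall, hv, hdd⟩ := expand hp hne hc hK hF0 hF1 hH0 hH1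
  obtain ⟨hmm, hsum⟩ := masses (K0 := K0) (K1 := K1) (v := v) (gp := gp) (gm := gm) (G := G)
    (fun K' hK' => by
      obtain ⟨h1, h2, h3, h4, h5, -, -⟩ := hall K' hK'
      exact ⟨h1, h2, h3, h4, h5⟩) hv
  obtain ⟨a1, -, -, -, -, e0p, e0m⟩ := hall K0 (Or.inl rfl)
  obtain ⟨b1, -, -, -, -, e1p, e1m⟩ := hall K1 (Or.inr rfl)
  obtain ⟨m1, s1, z1⟩ := hmm K0 (Or.inl rfl) gp (Or.inl rfl)
  obtain ⟨m2, s2, z2⟩ := hmm K1 (Or.inr rfl) gm (Or.inr rfl)
  obtain ⟨m3, s3, z3⟩ := hmm K0 (Or.inl rfl) gm (Or.inr rfl)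
  obtain ⟨m4, s4, z4⟩ := hmm K1 (Or.inr rfl) gp (Or.inl rfl)
  have t : ∀ K' : Finset D, K' = K0 ∨ K' = K1 → ∀ g : D → ℝ, g = gp ∨ g = gm →
      ∑ d ∈ K' with 0 < g d, v d ≤ 2 → (∑ d ∈ K', v d * g d ^ p) ^ (2 / p)
        ≤ ∑ d ∈ K', v d * g d ^ 2 - (∑ d ∈ K', v d * g d) ^ 2 / (∑ d ∈ K' with 0 < g d, v d)
          * (1 - (∑ d ∈ K' with 0 < g d, v d) ^ ((2 - p) / p)) := by
    intro K' hK' g hg hm
    obtain ⟨h1, h2, h3, -, -, -, -⟩ := hall K' hK'
    refine hT D K' v g p hp1 hp2 (fun d hd => (h1 d hd).le) ?_ _ rfl hm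
    rcases hg with rfl | rfl
    · exact h2
    · exact h3
  have t1 := t K0 (Or.inl rfl) gp (Or.inl rfl) (by linarith)
  have t2 := t K1 (Or.inr rfl) gm (Or.inr rfl) (by linarith)
  have t3 := t K0 (Or.inl rfl) gm (Or.inr rfl) (by linarith)
  have t4 := t K1 (Or.inr rfl) gp (Or.inl rfl) (by linarith)
  have hmass := hM _ _ _ _ _ _ _ _ ((2 - p) / p) m1 m2 m3 m4 s1 s2 s3 s4 z1 z2 z3 z4 hsum
    (div_nonneg (by linarith) hp.le) (by rw [div_lt_one hp]; linarith)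
  have hδ : (2 - p) / p / (1 - (2 - p) / p) = (2 - p) / (2 * (p - 1)) := by
    have h1 : 1 - (2 - p) / p = 2 * (p - 1) / p := by field_simp; ring
    rw [h1]
    have h2 : p - 1 ≠ 0 := by linarith
    field_simp
  rw [hδ] at hmass
  have hfour : four p K0 K1 G = (∑ d ∈ K0, v d * gp d ^ p) ^ (2 / p)
      + (∑ d ∈ K0, v d * gm d ^ p) ^ (2 / p) + ((∑ d ∈ K1, v d * gp d ^ p) ^ (2 / p)
      + (∑ d ∈ K1, v d * gm d ^ p) ^ (2 / p)) := by
    unfold four th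
    rw [← e0p, ← e0m, ← e1p, ← e1m]
  rw [hfour, hdd]
  obtain ⟨X, hX⟩ : ∃ X, X = (∑ d ∈ K0, v d * gp d + ∑ d ∈ K1, v d * gm d
          - ∑ d ∈ K0, v d * gm d - ∑ d ∈ K1, v d * gp d) ^ 2 := ⟨_, rfl⟩
  rw [← hX] at hmass ⊢
  have hpp : 0 < (p - 1) / 2 := by linarith
  have e1 : (2 - p) / 4 * X = (p - 1) / 2 * ((2 - p) / (2 * (p - 1)) * X) := by
    have h2 : p - 1 ≠ 0 := by linarith
    field_simp
    ring
  rw [e1, ← mul_add]
  refine mul_le_mul_of_nonneg_left ?_ hpp.le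
  linarith

/-- Row B, second half. -/
theorem ps (hT : LemT') (hM : Mass') : PS := by
  intro D K K0 K1 F G H p hp2 hne hc hK hF0 hF1 hH0 hH1
  have hp : 0 < p := by linarith
  obtain ⟨v, gp, gm, hall, hv, hdd⟩ := expand hp hne hc hK hF0 hF1 hH0 hH1
  obtain ⟨hmm, hsum⟩ := masses (K0 := K0) (K1 := K1) (v := v) (gp := gp) (gm := gm) (G := G)
    (fun K' hK' => by
      obtain ⟨h1, h2, h3, h4, h5, -, -⟩ := hall K' hK'
      exact ⟨h1, h2, h3, h4, h5⟩) hv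
  obtain ⟨a1, -, -, -, -, e0p, e0m⟩ := hall K0 (Or.inl rfl)
  obtain ⟨b1, -, -, -, -, e1p, e1m⟩ := hall K1 (Or.inr rfl)
  obtain ⟨m1, s1, z1⟩ := hmm K0 (Or.inl rfl) gp (Or.inl rfl)
  obtain ⟨m2, s2, z2⟩ := hmm K1 (Or.inr rfl) gm (Or.inr rfl)
  obtain ⟨m3, s3, z3⟩ := hmm K0 (Or.inl rfl) gm (Or.inr rfl)
  obtain ⟨m4, s4, z4⟩ := hmm K1 (Or.inr rfl) gp (Or.inl rfl)
  have t : ∀ K' : Finset D, K' = K0 ∨ K' = K1 → ∀ g : D → ℝ, g = gp ∨ g = gm →
      ∑ d ∈ K' with 0 < g d, v d ≤ 2 →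
        ∑ d ∈ K', v d * g d ^ 2 + (∑ d ∈ K', v d * g d) ^ 2 / (∑ d ∈ K' with 0 < g d, v d)
          * ((∑ d ∈ K' with 0 < g d, v d) ^ (-((p - 2) / p)) - 1)
          ≤ (∑ d ∈ K', v d * g d ^ p) ^ (2 / p) := by
    intro K' hK' g hg hm
    obtain ⟨h1, h2, h3, -, -, -, -⟩ := hall K' hK'
    refine hT D K' v g p hp2 (fun d hd => (h1 d hd).le) ?_ _ rfl hm
    rcases hg with rfl | rfl
    · exact h2
    · exact h3
  have t1 := t K0 (Or.inl rfl) gp (Or.inl rfl) (by linarith)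
  have t2 := t K1 (Or.inr rfl) gm (Or.inr rfl) (by linarith)
  have t3 := t K0 (Or.inl rfl) gm (Or.inr rfl) (by linarith)
  have t4 := t K1 (Or.inr rfl) gp (Or.inl rfl) (by linarith)
  have hmass := hM _ _ _ _ _ _ _ _ ((p - 2) / p) m1 m2 m3 m4 s1 s2 s3 s4 z1 z2 z3 z4 hsum
    (div_nonneg (by linarith) hp.le) (by rw [div_le_one hp]; linarith)
  have hδ : (p - 2) / p / (1 + (p - 2) / p) = (p - 2) / (2 * (p - 1)) := by
    have h1 : 1 + (p - 2) / p = 2 * (p - 1) / p := by field_simp; ring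
    rw [h1]
    have h2 : p - 1 ≠ 0 := by linarith
    field_simp
  rw [hδ] at hmass
  have hfour : four p K0 K1 G = (∑ d ∈ K0, v d * gp d ^ p) ^ (2 / p)
      + (∑ d ∈ K0, v d * gm d ^ p) ^ (2 / p) + ((∑ d ∈ K1, v d * gp d ^ p) ^ (2 / p)
      + (∑ d ∈ K1, v d * gm d ^ p) ^ (2 / p)) := by
    unfold four th
    rw [← e0p, ← e0m, ← e1p, ← e1m]
  rw [hfour, hdd]
  obtain ⟨X, hX⟩ : ∃ X, X = (∑ d ∈ K0, v d * gp d + ∑ d ∈ K1, v d * gm d
          - ∑ d ∈ K0, v d * gm d - ∑ d ∈ K1, v d * gp d) ^ 2 := ⟨_, rfl⟩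
  rw [← hX] at hmass ⊢
  have hpp : 0 < (p - 1) / 2 := by linarith
  have e1 : (2 - p) / 4 * X = -((p - 1) / 2 * ((p - 2) / (2 * (p - 1)) * X)) := by
    have h2 : p - 1 ≠ 0 := by linarith
    field_simp
    ring
  rw [e1, ← sub_eq_add_neg, ← mul_sub]
  refine mul_le_mul_of_nonneg_left ?_ hpp.le
  linarith

end Pool.Agent.MP_ec946a.RH
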