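import Mathlib
import Pool.Agent.Lib.RH.Defs

/-!
# Rank hypercontractivity: statements of the bilinear rows
-/

set_option autoImplicit false
set_option linter.unusedSectionVars false

namespace Pool.Agent.MP_ec946a.RH

open Finset Pool.Agent.MP_ec946a.SDP

/-- row 1a -/
def SC : Prop := ∀ (D : Type) (K : Finset D) (F H : D → ℝ) (p : ℝ), 1 < p → p ≤ 2 →
  K.Nonempty → (∀ d ∈ K, 0 < F d) →
    (p - 1) * 2 ^ (2 / p - 1) * (th p K (fun d => max (H d) 0) + th p K (fun d => max (-H d) 0))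
      ≤ dd p K F H

/-- row 1b -/
def DIq : Prop := ∀ (D : Type) (K : Finset D) (a u : D → ℝ) (p : ℝ), 1 < p → p ≤ 2 →
  K.Nonempty → (∀ d ∈ K, |u d| ≤ a d) →
    th p K a
        + (p - 1) * 2 ^ (2 / p - 1)
          * (th p K (fun d => max (u d) 0) + th p K (fun d => max (-u d) 0))
      ≤ (th p K (fun d => a d + u d) + th p K (fun d => a d - u d)) / 2

section

variable {Ω D : Type} [Fintype Ω] [DecidableEq Ω] [Fintype D] [DecidableEq D] [AddCommGroup D]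

/-- the sum over the strings of the squared `L^p` norms over the orbits of `ker ℓ T` -/
noncomputable def NN (ℓ : Ω → (D →+ ZMod 2)) (T : Finset Ω) (p : ℝ)
    (f : (Ω → ZMod 2) → ℝ) : ℝ :=
  ∑ x, th p (ker ℓ T) fun d => f (x + sh ℓ d)

/-- the bilinear form of rank hypercontractivity -/
def BilHyp (ℓ : Ω → (D →+ ZMod 2)) (T : Finset Ω) (p : ℝ) : Prop :=
  ∀ (g : (Ω → ZMod 2) → ℝ) (h : D → (Ω → ZMod 2) → ℝ), (∀ x, 0 ≤ g x) → (∀ c x, 0 ≤ h c x) →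
    (∀ c x y, (∀ w, ℓ w c = 0 → x w = y w) → h c x = h c y) →
      mn (ker ℓ T) (fun c => ∑ x, g x * h c x)
        ≤ √(NN ℓ T p g) * √(mn (ker ℓ T) fun c => NN ℓ T p (h c))

end

/-- row 2 -/
def ST : Prop := ∀ (Ω D : Type) [Fintype Ω] [DecidableEq Ω] [Fintype D] [DecidableEq D]
    [AddCommGroup D] (ℓ : Ω → (D →+ ZMod 2)) (T : Finset Ω) (w : Ω) (p : ℝ), 1 < p → p ≤ 2 →
  (∃ d ∈ ker ℓ T, ℓ w d ≠ 0) → ∀ a b : (Ω → ZMod 2) → ℝ,
    (∀ x y, (∀ v, v ≠ w → x v = y v) → a x = a y) →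
    (∀ x y, (∀ v, v ≠ w → x v = y v) → b x = b y) → (∀ x, |b x| ≤ a x) →
      NN ℓ T p a + (p - 1) * (NN ℓ (insert w T) p (fun x => max (b x) 0)
          + NN ℓ (insert w T) p (fun x => max (-b x) 0))
        ≤ NN ℓ T p (fun x => a x + sgn (x w) * b x)

/-- row 3 -/
def Bil : Prop := ST → ∀ (Ω D : Type) [Fintype Ω] [DecidableEq Ω] [Fintype D] [DecidableEq D]
    [AddCommGroup D] (ℓ : Ω → (D →+ ZMod 2)) (T : Finset Ω) (p : ℝ), 1 + 1 / √2 ≤ p → p ≤ 2 →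
  BilHyp ℓ T p

/-- row 4: the hyperplane game -/
def GamB : Prop :=
  (∀ (Ω D : Type) [Fintype Ω] [DecidableEq Ω] [Fintype D] [DecidableEq D] [AddCommGroup D]
    (ℓ : Ω → (D →+ ZMod 2)), BilHyp ℓ ∅ (1 + 1 / √2)) →
  ∀ (k : ℕ) (hk : 1 ≤ k),
    (hgame k hk).value
      ≤ (2 : ℝ) ^ (1 / (1 + 1 / √2)) * ((2 ^ k : ℕ) : ℝ) ^ (-(3 - 2 * √2) : ℝ)

end Pool.Agent.MP_ec946a.RH
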