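import Mathlib
import Pool.Agent.Lib.RH.Defs2

/-!
# The bilinear inequality from the two-step inequality
-/

set_option autoImplicit false
set_option linter.unusedSectionVars false

namespace Pool.Agent.MP_ec946a.RH.BilAux

open Finset Pool.Agent.MP_ec946a.SDP

section mean

variable {D : Type}

lemma mn_add (K : Finset D) (φ ψ : D → ℝ) : mn K (fun d => φ d + ψ d) = mn K φ + mn K ψ := by
  unfold mn
  rw [sum_add_distrib, add_div]

lemma mn_mul (K : Finset D) (c : ℝ) (φ : D → ℝ) : mn K (fun d => c * φ d) = c * mn K φ := by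
  unfold mn
  rw [← mul_sum, mul_div_assoc]

lemma mn_mono {K : Finset D} {φ ψ : D → ℝ} (h : ∀ d ∈ K, φ d ≤ ψ d) : mn K φ ≤ mn K ψ := by
  unfold mn
  exact div_le_div_of_nonneg_right (sum_le_sum h) (Nat.cast_nonneg _)

lemma mn_nonneg {K : Finset D} {φ : D → ℝ} (h : ∀ d ∈ K, 0 ≤ φ d) : 0 ≤ mn K φ := by
  unfold mn
  exact div_nonneg (sum_nonneg h) (Nat.cast_nonneg _)

lemma mn_congr {K : Finset D} {φ ψ : D → ℝ} (h : ∀ d ∈ K, φ d = ψ d) : mn K φ = mn K ψ := by
  unfold mn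
  rw [sum_congr rfl h]

lemma th_nonneg (p : ℝ) {K : Finset D} {F : D → ℝ} (h : ∀ d ∈ K, 0 ≤ F d) : 0 ≤ th p K F := by
  unfold th
  exact Real.rpow_nonneg (mn_nonneg fun d hd => Real.rpow_nonneg (h d hd) _) _

lemma th_congr {p : ℝ} {K : Finset D} {F G : D → ℝ} (h : ∀ d ∈ K, F d = G d) :
    th p K F = th p K G := by
  unfold th
  rw [mn_congr fun d hd => by rw [h d hd]]

lemma th_const {p : ℝ} (hp : 0 < p) {K : Finset D} (hK : 0 < K.card) {t : ℝ} (ht : 0 ≤ t) :
    th p K (fun _ => t) = t ^ 2 := by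
  have h1 : (0 : ℝ) < K.card := by exact_mod_cast hK
  unfold th mn
  rw [sum_const, nsmul_eq_mul, mul_div_cancel_left₀ _ h1.ne', ← Real.rpow_mul ht,
    mul_div_cancel₀ _ hp.ne', Real.rpow_two]

end mean

section scalar

lemma cs2 {u v u' v' : ℝ} (hu : 0 ≤ u) (hv : 0 ≤ v) (hu' : 0 ≤ u') (hv' : 0 ≤ v') :
    √u * √v + √u' * √v' ≤ √(u + u') * √(v + v') := by
  rw [← Real.sqrt_mul (add_nonneg hu hu')]
  apply Real.le_sqrt_of_sq_le
  have h1 := Real.sq_sqrt hu
  have h2 := Real.sq_sqrt hv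
  have h3 := Real.sq_sqrt hu'
  have h4 := Real.sq_sqrt hv'
  calc (√u * √v + √u' * √v') ^ 2
      ≤ (√u ^ 2 + √u' ^ 2) * (√v ^ 2 + √v' ^ 2) := by
        nlinarith [sq_nonneg (√u * √v' - √u' * √v)]
    _ = (u + u') * (v + v') := by rw [h1, h2, h3, h4]

lemma half_le {α u v : ℝ} (hα : 0 < α) (h : 1 ≤ 2 * α ^ 2) (hu : 0 ≤ u) (hv : 0 ≤ v) :
    (√u * √v) / 2 ≤ √(α * u) * √(α / 2 * v) := by
  rw [← Real.sqrt_mul hu, ← Real.sqrt_mul (mul_nonneg hα.le hu)]
  apply Real.le_sqrt_of_sq_le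
  rw [div_pow, Real.sq_sqrt (mul_nonneg hu hv)]
  nlinarith [mul_nonneg hu hv]

lemma cs4 {α A B G G' V V' : ℝ} (hα : 0 < α) (h : 1 ≤ 2 * α ^ 2) (hA : 0 ≤ A) (hB : 0 ≤ B)
    (hG : 0 ≤ G) (hG' : 0 ≤ G') (hV : 0 ≤ V) (hV' : 0 ≤ V') :
    √A * √B + (√G * √V + √G' * √V') / 2
      ≤ √(A + α * (G + G')) * √(B + α / 2 * (V + V')) := by
  have h1 := half_le hα h hG hV
  have h2 := half_le hα h hG' hV'
  have a1 : 0 ≤ α * G := mul_nonneg hα.le hG
  have a2 : 0 ≤ α * G' := mul_nonneg hα.le hG'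
  have a3 : 0 ≤ α / 2 * V := mul_nonneg (by linarith) hV
  have a4 : 0 ≤ α / 2 * V' := mul_nonneg (by linarith) hV'
  have h3 := cs2 a1 a3 a2 a4
  have h4 := cs2 hA hB (add_nonneg a1 a2) (add_nonneg a3 a4)
  rw [mul_add, mul_add]
  linarith

end scalar

section parts

variable {Ω : Type} [DecidableEq Ω]

/-- the mean over the coordinate `w` -/
noncomputable def ev (w : Ω) (f : (Ω → ZMod 2) → ℝ) (x : Ω → ZMod 2) : ℝ :=
  (f x + f (x + Pi.single w 1)) / 2

/-- the factor of the sign of the coordinate `w` -/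
noncomputable def od (w : Ω) (f : (Ω → ZMod 2) → ℝ) (x : Ω → ZMod 2) : ℝ :=
  sgn (x w) * ((f x - f (x + Pi.single w 1)) / 2)

lemma ev_add_od (w : Ω) (f : (Ω → ZMod 2) → ℝ) (x : Ω → ZMod 2) :
    ev w f x + sgn (x w) * od w f x = f x := by
  unfold ev od
  rw [← mul_assoc, sgn_mul_self]
  ring

lemma two_flip (w : Ω) (x : Ω → ZMod 2) : x + Pi.single w 1 + Pi.single w 1 = x := by
  have h : (Pi.single w 1 : Ω → ZMod 2) + Pi.single w 1 = 0 := by
    rw [← Pi.single_add]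
    have : (1 : ZMod 2) + 1 = 0 := rfl
    rw [this, Pi.single_zero]
  rw [add_assoc, h, add_zero]

lemma sgn_flip (w : Ω) (x : Ω → ZMod 2) :
    sgn ((x + Pi.single w 1 : Ω → ZMod 2) w) = -sgn (x w) := by
  rw [Pi.add_apply, Pi.single_eq_same, sgn_add, sgn_one]
  ring

lemma ev_flip (w : Ω) (f : (Ω → ZMod 2) → ℝ) (x : Ω → ZMod 2) :
    ev w f (x + Pi.single w 1) = ev w f x := by
  unfold ev
  rw [two_flip]
  ring

lemma od_flip (w : Ω) (f : (Ω → ZMod 2) → ℝ) (x : Ω → ZMod 2) :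
    od w f (x + Pi.single w 1) = od w f x := by
  unfold od
  rw [two_flip, sgn_flip]
  ring

lemma flip_of_agree {w : Ω} {x y : Ω → ZMod 2} (h : ∀ v, v ≠ w → x v = y v) :
    x = y ∨ y = x + Pi.single w 1 := by
  by_cases hw : x w = y w
  · left
    funext v
    by_cases hv : v = w
    · rw [hv, hw]
    · exact h v hv
  · right
    funext v
    by_cases hv : v = w
    · rw [hv, Pi.add_apply, Pi.single_eq_same]
      have h1 : (1 : ZMod 2) + 1 = 0 := rfl
      rcases zmod2 (x w) with hx | hx <;> rcases zmod2 (y w) with hy | hy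
      · exact absurd (hx.trans hy.symm) hw
      · rw [hx, hy, zero_add]
      · rw [hx, hy, h1]
      · exact absurd (hx.trans hy.symm) hw
    · rw [Pi.add_apply, Pi.single_eq_of_ne hv, add_zero, h v hv]

lemma inv_of_flip {w : Ω} {f : (Ω → ZMod 2) → ℝ} (hf : ∀ x, f (x + Pi.single w 1) = f x)
    (x y : Ω → ZMod 2) (h : ∀ v, v ≠ w → x v = y v) : f x = f y := by
  rcases flip_of_agree h with rfl | rfl
  · rfl
  · exact (hf x).symm

/-- flipping one coordinate of both strings -/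
lemma agree_flip {S : Ω → Prop} (w : Ω) {x y : Ω → ZMod 2} (h : ∀ v, S v → x v = y v) :
    ∀ v, S v → (x + Pi.single w 1 : Ω → ZMod 2) v = (y + Pi.single w 1 : Ω → ZMod 2) v := by
  intro v hv
  rw [Pi.add_apply, Pi.add_apply, h v hv]

lemma ev_dep {S : Ω → Prop} (w : Ω) {f : (Ω → ZMod 2) → ℝ}
    (hf : ∀ x y, (∀ v, S v → x v = y v) → f x = f y) (x y : Ω → ZMod 2)
    (h : ∀ v, S v → x v = y v) : ev w f x = ev w f y := by
  unfold ev
  rw [hf x y h, hf _ _ (agree_flip w h)]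

lemma od_dep {S : Ω → Prop} {w : Ω} (hw : S w) {f : (Ω → ZMod 2) → ℝ}
    (hf : ∀ x y, (∀ v, S v → x v = y v) → f x = f y) (x y : Ω → ZMod 2)
    (h : ∀ v, S v → x v = y v) : od w f x = od w f y := by
  unfold od
  rw [hf x y h, hf _ _ (agree_flip w h), h w hw]

lemma od_zero {S : Ω → Prop} {w : Ω} (hw : ¬ S w) {f : (Ω → ZMod 2) → ℝ}
    (hf : ∀ x y, (∀ v, S v → x v = y v) → f x = f y) (x : Ω → ZMod 2) : od w f x = 0 := by
  have h : f x = f (x + Pi.single w 1) := by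
    apply hf
    intro v hv
    have hvw : v ≠ w := fun e => hw (e ▸ hv)
    rw [Pi.add_apply, Pi.single_eq_of_ne hvw, add_zero]
  unfold od
  rw [h]
  ring

/-- a function of the coordinates `insert w Z` which does not change with the coordinate `w` is a
function of the coordinates `Z` -/
lemma dep_of_insert {w : Ω} {Z : Finset Ω} {f : (Ω → ZMod 2) → ℝ}
    (hf : ∀ x y, (∀ v ∈ insert w Z, x v = y v) → f x = f y)
    (hw : ∀ x, f (x + Pi.single w 1) = f x) (x y : Ω → ZMod 2)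
    (h : ∀ v ∈ Z, x v = y v) : f x = f y := by
  by_cases hxy : x w = y w
  · apply hf
    intro v hv
    rcases mem_insert.mp hv with rfl | hv
    · exact hxy
    · exact h v hv
  · rw [← hw x]
    apply hf
    intro v hv
    have key : ∀ s t : ZMod 2, s ≠ t → s + 1 = t := by decide
    by_cases hvw : v = w
    · rw [hvw, Pi.add_apply, Pi.single_eq_same]
      exact key _ _ hxy
    · rw [Pi.add_apply, Pi.single_eq_of_ne hvw, add_zero]
      rcases mem_insert.mp hv with hv | hv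
      · exact absurd hv hvw
      · exact h v hv

lemma ev_nonneg {w : Ω} {f : (Ω → ZMod 2) → ℝ} (hf : ∀ x, 0 ≤ f x) (x : Ω → ZMod 2) :
    0 ≤ ev w f x := by
  unfold ev
  have h1 := hf x
  have h2 := hf (x + Pi.single w 1)
  linarith

lemma abs_od_le {w : Ω} {f : (Ω → ZMod 2) → ℝ} (hf : ∀ x, 0 ≤ f x) (x : Ω → ZMod 2) :
    |od w f x| ≤ ev w f x := by
  unfold ev od
  rw [abs_mul, abs_sgn, one_mul, abs_le]
  have h1 := hf x
  have h2 := hf (x + Pi.single w 1)
  constructor <;> linarith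

lemma sum_mul [Fintype Ω] (w : Ω) (f g : (Ω → ZMod 2) → ℝ) :
    ∑ x, f x * g x = ∑ x, ev w f x * ev w g x + ∑ x, od w f x * od w g x := by
  rw [sum_flip w fun x => f x * g x, ← sum_add_distrib, sum_div]
  refine sum_congr rfl fun x _ => ?_
  unfold ev od
  have h := sgn_mul_self (x w)
  calc (f x * g x + f (x + Pi.single w 1) * g (x + Pi.single w 1)) / 2
      = (f x + f (x + Pi.single w 1)) / 2 * ((g x + g (x + Pi.single w 1)) / 2)
        + 1 * ((f x - f (x + Pi.single w 1)) / 2 * ((g x - g (x + Pi.single w 1)) / 2)) := by ring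
    _ = _ := by rw [← h]; ring

end parts

section step

variable {Ω D : Type} [Fintype Ω] [DecidableEq Ω] [Fintype D] [DecidableEq D] [AddCommGroup D]
  (ℓ : Ω → (D →+ ZMod 2))

lemma NN_nonneg (T : Finset Ω) (p : ℝ) {f : (Ω → ZMod 2) → ℝ} (hf : ∀ x, 0 ≤ f x) :
    0 ≤ NN ℓ T p f :=
  sum_nonneg fun _ _ => th_nonneg p fun _ _ => hf _

/-- the two halves of a coordinate which the group fixes -/
lemma NN_fixed {T : Finset Ω} {w : Ω} (hw : ∀ d ∈ ker ℓ T, ℓ w d = 0) (p : ℝ)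
    {a b : (Ω → ZMod 2) → ℝ} (ha : ∀ x, a (x + Pi.single w 1) = a x)
    (hb : ∀ x, b (x + Pi.single w 1) = b x) :
    NN ℓ T p (fun x => a x + sgn (x w) * b x)
      = (NN ℓ T p (fun x => a x + b x) + NN ℓ T p (fun x => a x - b x)) / 2 := by
  unfold NN
  rw [sum_flip w fun x => th p (ker ℓ T) fun d => a (x + sh ℓ d) + sgn ((x + sh ℓ d) w)
    * b (x + sh ℓ d), ← sum_add_distrib]
  congr 1
  refine sum_congr rfl fun x _ => ?_
  have hs : ∀ y : Ω → ZMod 2, ∀ d ∈ ker ℓ T, (y + sh ℓ d) w = y w := by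
    intro y d hd
    rw [Pi.add_apply]
    show y w + ℓ w d = y w
    rw [hw d hd, add_zero]
  have e : ∀ d : D, x + Pi.single w 1 + sh ℓ d = x + sh ℓ d + Pi.single w 1 := fun d => by
    rw [add_assoc, add_comm (Pi.single w 1), ← add_assoc]
  rcases sgn_eq (x w) with h | h
  · congr 1
    · refine th_congr fun d hd => ?_
      rw [hs x d hd, h, one_mul]
    · refine th_congr fun d hd => ?_
      rw [hs _ d hd, sgn_flip, h, e, ha, hb]
      ring
  · rw [add_comm]
    congr 1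
    · refine th_congr fun d hd => ?_
      rw [hs _ d hd, sgn_flip, h, e, ha, hb]
      ring
    · refine th_congr fun d hd => ?_
      rw [hs x d hd, h]
      ring

lemma mul_parts (s t : ℝ) : s * t ≤ max s 0 * max t 0 + max (-s) 0 * max (-t) 0 := by
  rcases le_total 0 s with hs | hs <;> rcases le_total 0 t with ht | ht
  · rw [max_eq_left hs, max_eq_left ht, max_eq_right (by linarith : -s ≤ 0)]
    linarith
  · rw [max_eq_left hs, max_eq_right ht, max_eq_right (by linarith : -s ≤ 0)]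
    nlinarith
  · rw [max_eq_right hs, max_eq_left ht, max_eq_right (by linarith : -t ≤ 0)]
    nlinarith
  · rw [max_eq_right hs, max_eq_right ht, max_eq_left (by linarith : 0 ≤ -s),
      max_eq_left (by linarith : 0 ≤ -t)]
    linarith

/-- the mean over the group and over the subgroup of index two -/
lemma mn_half {T : Finset Ω} {w : Ω} {d₀ : D} (hd₀ : d₀ ∈ ker ℓ T) (hw : ℓ w d₀ = 1)
    (φ : D → ℝ) :
    mn (ker ℓ T) φ
      = (mn (ker ℓ (insert w T)) φ + mn (ker ℓ (insert w T)) fun d => φ (d + d₀)) / 2 := by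
  have hc : (0 : ℝ) < ((ker ℓ (insert w T)).card : ℝ) := by
    exact_mod_cast card_ker_pos ℓ (insert w T)
  unfold mn
  rw [ker_split ℓ T hd₀ hw, card_ker_split ℓ T hd₀ hw]
  field_simp

/-- the inequality for the functions of the coordinates `Z` -/
def Hyp (p : ℝ) (Z : Finset Ω) : Prop :=
  ∀ (T : Finset Ω) (g : (Ω → ZMod 2) → ℝ) (h : D → (Ω → ZMod 2) → ℝ), (∀ x, 0 ≤ g x) →
    (∀ c x, 0 ≤ h c x) → (∀ x y, (∀ v ∈ Z, x v = y v) → g x = g y) →
    (∀ c x y, (∀ v ∈ Z, x v = y v) → h c x = h c y) →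
    (∀ c x y, (∀ v, ℓ v c = 0 → x v = y v) → h c x = h c y) →
      mn (ker ℓ T) (fun c => ∑ x, g x * h c x)
        ≤ √(NN ℓ T p g) * √(mn (ker ℓ T) fun c => NN ℓ T p (h c))

lemma hyp_empty {p : ℝ} (hp : 0 < p) : Hyp ℓ p ∅ := by
  intro T g h hg hh gd hd _
  have hK : 0 < (ker ℓ T).card := card_ker_pos ℓ T
  have hK' : (0 : ℝ) < ((ker ℓ T).card : ℝ) := by exact_mod_cast hK
  set X : ℝ := (Fintype.card (Ω → ZMod 2) : ℝ) with hX
  have hX0 : 0 < X := cardX_pos
  have g0 : ∀ x, g x = g 0 := fun x => gd x 0 fun v hv => absurd hv (notMem_empty v)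
  have h0 : ∀ c x, h c x = h c 0 := fun c x => hd c x 0 fun v hv => absurd hv (notMem_empty v)
  have n1 : ∀ f : (Ω → ZMod 2) → ℝ, (∀ x, f x = f 0) → 0 ≤ f 0 →
      NN ℓ T p f = X * f 0 ^ 2 := by
    intro f hf hf0
    unfold NN
    rw [sum_congr rfl fun x _ => th_congr (G := fun _ => f 0) fun d _ => hf _]
    rw [sum_congr rfl fun x _ => th_const hp hK hf0]
    rw [sum_const, card_univ, nsmul_eq_mul, hX]
  have n2 : ∀ c, ∑ x, g x * h c x = X * g 0 * h c 0 := by
    intro c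
    rw [sum_congr rfl fun x _ => by rw [g0 x, h0 c x]]
    rw [sum_const, card_univ, nsmul_eq_mul, hX]
    ring
  rw [n1 g g0 (hg 0), mn_congr fun c _ => n2 c, mn_congr fun c _ => n1 (h c) (h0 c) (hh c 0),
    mn_mul, mn_mul]
  have j : (mn (ker ℓ T) fun c => h c 0) ^ 2 ≤ mn (ker ℓ T) fun c => h c 0 ^ 2 := by
    unfold mn
    rw [div_pow, div_le_div_iff₀ (by positivity) hK']
    have hs := sq_sum_le_card_mul_sum_sq (s := ker ℓ T) (f := fun c => h c 0)
    nlinarith
  have j0 : 0 ≤ mn (ker ℓ T) fun c => h c 0 ^ 2 := mn_nonneg fun c _ => sq_nonneg _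
  rw [← Real.sqrt_mul (by positivity)]
  apply Real.le_sqrt_of_sq_le
  calc (X * g 0 * mn (ker ℓ T) fun c => h c 0) ^ 2
      = (X ^ 2 * g 0 ^ 2) * (mn (ker ℓ T) fun c => h c 0) ^ 2 := by ring
    _ ≤ (X ^ 2 * g 0 ^ 2) * mn (ker ℓ T) fun c => h c 0 ^ 2 :=
        mul_le_mul_of_nonneg_left j (by positivity)
    _ = X * g 0 ^ 2 * (X * mn (ker ℓ T) fun c => h c 0 ^ 2) := by ring

lemma step_core (hST : ST) {p : ℝ} (hp1 : 1 < p) (hp2 : p ≤ 2) (hp : 1 ≤ 2 * (p - 1) ^ 2)
    (w : Ω) {Z : Finset Ω} (ih : Hyp ℓ p Z) (T : Finset Ω) (g0 g1 : (Ω → ZMod 2) → ℝ)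
    (a b : D → (Ω → ZMod 2) → ℝ) (g0f : ∀ x, g0 (x + Pi.single w 1) = g0 x)
    (g1f : ∀ x, g1 (x + Pi.single w 1) = g1 x) (af : ∀ c x, a c (x + Pi.single w 1) = a c x)
    (bf : ∀ c x, b c (x + Pi.single w 1) = b c x)
    (g0d : ∀ x y, (∀ v ∈ Z, x v = y v) → g0 x = g0 y)
    (g1d : ∀ x y, (∀ v ∈ Z, x v = y v) → g1 x = g1 y)
    (ad : ∀ c x y, (∀ v ∈ Z, x v = y v) → a c x = a c y)
    (bd : ∀ c x y, (∀ v ∈ Z, x v = y v) → b c x = b c y)
    (ac : ∀ c x y, (∀ v, ℓ v c = 0 → x v = y v) → a c x = a c y)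
    (bc : ∀ c x y, (∀ v, ℓ v c = 0 → x v = y v) → b c x = b c y)
    (b0 : ∀ c, ℓ w c ≠ 0 → ∀ x, b c x = 0) (ga : ∀ x, |g1 x| ≤ g0 x)
    (ha : ∀ c x, |b c x| ≤ a c x) :
    mn (ker ℓ T) (fun c => ∑ x, g0 x * a c x + ∑ x, g1 x * b c x)
      ≤ √(NN ℓ T p fun x => g0 x + sgn (x w) * g1 x)
        * √(mn (ker ℓ T) fun c => NN ℓ T p fun x => a c x + sgn (x w) * b c x) := by
  have ga' : ∀ x, -g0 x ≤ g1 x ∧ g1 x ≤ g0 x := fun x => abs_le.mp (ga x)
  have ha' : ∀ c x, -a c x ≤ b c x ∧ b c x ≤ a c x := fun c x => abs_le.mp (ha c x)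
  have g0n : ∀ x, 0 ≤ g0 x := fun x => (abs_nonneg _).trans (ga x)
  have an : ∀ c x, 0 ≤ a c x := fun c x => (abs_nonneg _).trans (ha c x)
  by_cases hw : ∀ d ∈ ker ℓ T, ℓ w d = 0
  · have i1 := ih T (fun x => g0 x + g1 x) (fun c x => a c x + b c x)
      (fun x => by linarith [(ga' x).1]) (fun c x => by linarith [(ha' c x).1])
      (fun x y h => by rw [g0d x y h, g1d x y h])
      (fun c x y h => by rw [ad c x y h, bd c x y h])
      (fun c x y h => by rw [ac c x y h, bc c x y h])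
    have i2 := ih T (fun x => g0 x - g1 x) (fun c x => a c x - b c x)
      (fun x => by linarith [(ga' x).2]) (fun c x => by linarith [(ha' c x).2])
      (fun x y h => by rw [g0d x y h, g1d x y h])
      (fun c x y h => by rw [ad c x y h, bd c x y h])
      (fun c x y h => by rw [ac c x y h, bc c x y h])
    have n1 : 0 ≤ NN ℓ T p fun x => g0 x + g1 x :=
      NN_nonneg ℓ T p fun x => by linarith [(ga' x).1]
    have n2 : 0 ≤ NN ℓ T p fun x => g0 x - g1 x :=
      NN_nonneg ℓ T p fun x => by linarith [(ga' x).2]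
    have n3 : 0 ≤ mn (ker ℓ T) fun c => NN ℓ T p fun x => a c x + b c x :=
      mn_nonneg fun c _ => NN_nonneg ℓ T p fun x => by linarith [(ha' c x).1]
    have n4 : 0 ≤ mn (ker ℓ T) fun c => NN ℓ T p fun x => a c x - b c x :=
      mn_nonneg fun c _ => NN_nonneg ℓ T p fun x => by linarith [(ha' c x).2]
    have e1 := NN_fixed ℓ hw p g0f g1f
    have e2 : (mn (ker ℓ T) fun c => NN ℓ T p fun x => a c x + sgn (x w) * b c x)
        = ((mn (ker ℓ T) fun c => NN ℓ T p fun x => a c x + b c x)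
          + mn (ker ℓ T) fun c => NN ℓ T p fun x => a c x - b c x) / 2 := by
      rw [← mn_add, div_eq_inv_mul, ← mn_mul]
      refine mn_congr fun c _ => ?_
      rw [NN_fixed ℓ hw p (af c) (bf c)]
      ring
    have e3 : mn (ker ℓ T) (fun c => ∑ x, g0 x * a c x + ∑ x, g1 x * b c x)
        = (mn (ker ℓ T) (fun c => ∑ x, (g0 x + g1 x) * (a c x + b c x))
          + mn (ker ℓ T) (fun c => ∑ x, (g0 x - g1 x) * (a c x - b c x))) / 2 := by
      rw [← mn_add, div_eq_inv_mul, ← mn_mul]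
      refine mn_congr fun c _ => ?_
      rw [← sum_add_distrib, ← sum_add_distrib, mul_sum]
      exact sum_congr rfl fun x _ => by ring
    rw [e1, e2, e3]
    have h2 := cs2 n1 n3 n2 n4
    have e4 : √(((NN ℓ T p fun x => g0 x + g1 x) + NN ℓ T p fun x => g0 x - g1 x) / 2)
        * √(((mn (ker ℓ T) fun c => NN ℓ T p fun x => a c x + b c x)
          + mn (ker ℓ T) fun c => NN ℓ T p fun x => a c x - b c x) / 2)
        = √((NN ℓ T p fun x => g0 x + g1 x) + NN ℓ T p fun x => g0 x - g1 x)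
          * √((mn (ker ℓ T) fun c => NN ℓ T p fun x => a c x + b c x)
          + mn (ker ℓ T) fun c => NN ℓ T p fun x => a c x - b c x) / 2 := by
      rw [Real.sqrt_div (add_nonneg n1 n2), Real.sqrt_div (add_nonneg n3 n4), div_mul_div_comm,
        Real.mul_self_sqrt (by norm_num)]
    rw [e4]
    linarith
  · push Not at hw
    obtain ⟨d₀, hd₀, hwd⟩ := hw
    have hw1 : ℓ w d₀ = 1 := by
      rcases zmod2 (ℓ w d₀) with h | h
      · exact absurd h hwd
      · exact h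
    have hα : 0 < p - 1 := by linarith
    have s1 := hST Ω D ℓ T w p hp1 hp2 ⟨d₀, hd₀, hwd⟩ g0 g1 (inv_of_flip g0f) (inv_of_flip g1f) ga
    have s2 := fun c => hST Ω D ℓ T w p hp1 hp2 ⟨d₀, hd₀, hwd⟩ (a c) (b c) (inv_of_flip (af c))
      (inv_of_flip (bf c)) (ha c)
    have i0 := ih T g0 a g0n an g0d ad ac
    have i1 := ih (insert w T) (fun x => max (g1 x) 0) (fun c x => max (b c x) 0)
      (fun x => le_max_right _ _) (fun c x => le_max_right _ _)
      (fun x y h => by rw [g1d x y h]) (fun c x y h => by rw [bd c x y h])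
      (fun c x y h => by rw [bc c x y h])
    have i2 := ih (insert w T) (fun x => max (-g1 x) 0) (fun c x => max (-b c x) 0)
      (fun x => le_max_right _ _) (fun c x => le_max_right _ _)
      (fun x y h => by rw [g1d x y h]) (fun c x y h => by rw [bd c x y h])
      (fun c x y h => by rw [bc c x y h])
    have nA : 0 ≤ NN ℓ T p g0 := NN_nonneg ℓ T p g0n
    have nB : 0 ≤ mn (ker ℓ T) fun c => NN ℓ T p (a c) := mn_nonneg fun c _ => NN_nonneg ℓ T p (an c)
    have nG : 0 ≤ NN ℓ (insert w T) p fun x => max (g1 x) 0 :=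
      NN_nonneg ℓ _ p fun x => le_max_right _ _
    have nG' : 0 ≤ NN ℓ (insert w T) p fun x => max (-g1 x) 0 :=
      NN_nonneg ℓ _ p fun x => le_max_right _ _
    have nb : ∀ c, 0 ≤ NN ℓ (insert w T) p fun x => max (b c x) 0 := fun c =>
      NN_nonneg ℓ _ p fun x => le_max_right _ _
    have nb' : ∀ c, 0 ≤ NN ℓ (insert w T) p fun x => max (-b c x) 0 := fun c =>
      NN_nonneg ℓ _ p fun x => le_max_right _ _
    have nV : 0 ≤ mn (ker ℓ (insert w T)) fun c => NN ℓ (insert w T) p fun x => max (b c x) 0 :=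
      mn_nonneg fun c _ => nb c
    have nV' : 0 ≤ mn (ker ℓ (insert w T)) fun c => NN ℓ (insert w T) p fun x => max (-b c x) 0 :=
      mn_nonneg fun c _ => nb' c
    have hcs := cs4 hα hp nA nB nG nG' nV nV'
    -- the left side
    have l1 : mn (ker ℓ T) (fun c => ∑ x, g1 x * b c x)
        = mn (ker ℓ (insert w T)) (fun c => ∑ x, g1 x * b c x) / 2 := by
      rw [mn_half ℓ hd₀ hw1]
      have z : mn (ker ℓ (insert w T)) (fun c => ∑ x, g1 x * b (c + d₀) x) = 0 := by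
        have z1 : ∀ c ∈ ker ℓ (insert w T), ∑ x, g1 x * b (c + d₀) x = 0 := by
          intro c hc
          refine sum_eq_zero fun x _ => ?_
          rw [b0 (c + d₀) ?_ x, mul_zero]
          rw [map_add, mem_ker.mp hc w (mem_insert_self _ _), hw1, zero_add]
          exact one_ne_zero
        rw [mn_congr z1]
        unfold mn
        rw [sum_const_zero, zero_div]
      rw [z, add_zero]
    have l2 : mn (ker ℓ (insert w T)) (fun c => ∑ x, g1 x * b c x)
        ≤ mn (ker ℓ (insert w T)) (fun c => ∑ x, max (g1 x) 0 * max (b c x) 0)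
          + mn (ker ℓ (insert w T)) (fun c => ∑ x, max (-g1 x) 0 * max (-b c x) 0) := by
      rw [← mn_add]
      refine mn_mono fun c _ => ?_
      rw [← sum_add_distrib]
      exact sum_le_sum fun x _ => mul_parts _ _
    -- the right side
    have r1 : (mn (ker ℓ T) fun c => NN ℓ T p (a c))
        + (p - 1) / 2 * ((mn (ker ℓ (insert w T)) fun c => NN ℓ (insert w T) p
            fun x => max (b c x) 0)
          + mn (ker ℓ (insert w T)) fun c => NN ℓ (insert w T) p fun x => max (-b c x) 0)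
        ≤ mn (ker ℓ T) fun c => NN ℓ T p fun x => a c x + sgn (x w) * b c x := by
      have q1 := mn_mono (K := ker ℓ T) fun c _ => s2 c
      rw [mn_add, mn_mul, mn_half ℓ hd₀ hw1 (fun c => NN ℓ (insert w T) p (fun x => max (b c x) 0)
        + NN ℓ (insert w T) p (fun x => max (-b c x) 0)), mn_add] at q1
      have q2 : 0 ≤ mn (ker ℓ (insert w T)) fun d =>
          NN ℓ (insert w T) p (fun x => max (b (d + d₀) x) 0)
            + NN ℓ (insert w T) p (fun x => max (-b (d + d₀) x) 0) :=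
        mn_nonneg fun c _ => add_nonneg (nb _) (nb' _)
      nlinarith
    rw [mn_add, l1]
    have f1 := Real.sqrt_le_sqrt s1
    have f2 := Real.sqrt_le_sqrt r1
    have f3 := mul_le_mul f1 f2 (Real.sqrt_nonneg _) (Real.sqrt_nonneg _)
    linarith

lemma hyp_insert (hST : ST) {p : ℝ} (hp1 : 1 < p) (hp2 : p ≤ 2) (hp : 1 ≤ 2 * (p - 1) ^ 2)
    (w : Ω) {Z : Finset Ω} (ih : Hyp ℓ p Z) : Hyp ℓ p (insert w Z) := by
  intro T g h hg hh gd hd hc
  have b0 : ∀ c, ℓ w c ≠ 0 → ∀ x, od w (h c) x = 0 := fun c hwc =>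
    od_zero (S := fun v => ℓ v c = 0) hwc (hc c)
  have key := step_core ℓ hST hp1 hp2 hp w ih T (ev w g) (od w g) (fun c => ev w (h c))
    (fun c => od w (h c)) (ev_flip w g) (od_flip w g) (fun c => ev_flip w (h c))
    (fun c => od_flip w (h c))
    (dep_of_insert (ev_dep (S := fun v => v ∈ insert w Z) w gd) (ev_flip w g))
    (dep_of_insert (od_dep (S := fun v => v ∈ insert w Z) (mem_insert_self w Z) gd) (od_flip w g))
    (fun c => dep_of_insert (ev_dep (S := fun v => v ∈ insert w Z) w (hd c)) (ev_flip w (h c)))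
    (fun c => dep_of_insert (od_dep (S := fun v => v ∈ insert w Z) (mem_insert_self w Z) (hd c))
      (od_flip w (h c)))
    (fun c => ev_dep (S := fun v => ℓ v c = 0) w (hc c))
    (fun c x y hxy => by
      by_cases hwc : ℓ w c = 0
      · exact od_dep (S := fun v => ℓ v c = 0) hwc (hc c) x y hxy
      · rw [b0 c hwc, b0 c hwc])
    b0 (abs_od_le hg) (fun c => abs_od_le (hh c))
  simp only [ev_add_od] at key
  rw [mn_congr fun c _ => sum_mul w g (h c)]
  exact key

lemma hyp_all (hST : ST) {p : ℝ} (hp1 : 1 < p) (hp2 : p ≤ 2) (hp : 1 ≤ 2 * (p - 1) ^ 2)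
    (Z : Finset Ω) : Hyp ℓ p Z := by
  induction Z using Finset.induction_on with
  | empty => exact hyp_empty ℓ (by linarith)
  | insert w Z _ ih => exact hyp_insert ℓ hST hp1 hp2 hp w ih

end step

end Pool.Agent.MP_ec946a.RH.BilAux

namespace Pool.Agent.MP_ec946a.RH

open Finset Pool.Agent.MP_ec946a.SDP

/-- row 3 -/
theorem bil : Bil := by
  intro hST Ω D _ _ _ _ _ ℓ T p hp1 hp2
  have hs : (0 : ℝ) < 1 / √2 := by positivity
  have hs2 : (1 / √2) ^ 2 = 1 / 2 := by
    rw [div_pow, Real.sq_sqrt (by norm_num)]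
    norm_num
  have hp : 1 ≤ 2 * (p - 1) ^ 2 := by nlinarith
  intro g h hg hh hc
  refine BilAux.hyp_all ℓ hST (by linarith) hp2 hp univ T g h hg hh ?_ ?_ hc
  · intro x y hxy
    rw [funext fun v => hxy v (mem_univ v)]
  · intro c x y hxy
    rw [funext fun v => hxy v (mem_univ v)]

end Pool.Agent.MP_ec946a.RH
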