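import Mathlib
import Pool.Agent.Lib.RH.Defs2

/-!
# The bilinear form follows from rank hypercontractivity
-/

set_option autoImplicit false
set_option linter.unusedSectionVars false

namespace Pool.Agent.MP_ec946a.RH

open Finset Pool.Agent.MP_ec946a.SDP

namespace J

lemma mn_holder {D : Type} {K : Finset D} (hK : K.Nonempty) {s q : ℝ} (hsq : s.HolderConjugate q)
    {f g : D → ℝ} (hf : ∀ d ∈ K, 0 ≤ f d) (hg : ∀ d ∈ K, 0 ≤ g d) :
    mn K (fun d => f d * g d) ≤ √(th s K f) * √(th q K g) := by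
  have hc : (0 : ℝ) < K.card := by exact_mod_cast hK.card_pos
  have hs := hsq.pos
  have hq := hsq.symm.pos
  have h1 := Real.inner_le_Lp_mul_Lq_of_nonneg K hsq hf hg
  have hA : 0 ≤ ∑ d ∈ K, f d ^ s := sum_nonneg fun d hd => Real.rpow_nonneg (hf d hd) _
  have hB : 0 ≤ ∑ d ∈ K, g d ^ q := sum_nonneg fun d hd => Real.rpow_nonneg (hg d hd) _
  have e : ∀ (p : ℝ) (F : D → ℝ), 0 < p → (0 ≤ ∑ d ∈ K, F d ^ p) →
      √(th p K F) = (∑ d ∈ K, F d ^ p) ^ (1 / p) / (K.card : ℝ) ^ (1 / p) := by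
    intro p F hp hF
    unfold th mn
    rw [Real.sqrt_eq_rpow, ← Real.rpow_mul (by positivity), Real.div_rpow hF hc.le]
    have : 2 / p * (1 / 2) = 1 / p := by ring
    rw [this]
  rw [e s f hs hA, e q g hq hB]
  unfold mn
  have e2 : (K.card : ℝ) ^ (1 / s) * (K.card : ℝ) ^ (1 / q) = K.card := by
    rw [← Real.rpow_add hc]
    have : 1 / s + 1 / q = 1 := by
      have := hsq.inv_add_inv_eq_one
      simpa [one_div] using this
    rw [this, Real.rpow_one]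
  rw [div_mul_div_comm, e2]
  exact div_le_div_of_nonneg_right h1 hc.le

section

variable {Ω D : Type} [Fintype Ω] [DecidableEq Ω] [Fintype D] [DecidableEq D] [AddCommGroup D]
  (ℓ : Ω → (D →+ ZMod 2)) (T : Finset Ω)

/-- a sum over the strings is the sum of the means over the orbits -/
lemma sum_eq_sum_mn (φ : (Ω → ZMod 2) → ℝ) :
    ∑ x, φ x = ∑ x, mn (ker ℓ T) fun d => φ (x + sh ℓ d) := by
  have hc : (0 : ℝ) < (ker ℓ T).card := by exact_mod_cast card_ker_pos ℓ T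
  unfold mn
  rw [← sum_div, sum_comm]
  have h : ∀ d ∈ ker ℓ T, ∑ x, φ (x + sh ℓ d) = ∑ x, φ x := fun d _ =>
    Fintype.sum_equiv (Equiv.addRight (sh ℓ d)) _ _ fun _ => rfl
  rw [sum_congr rfl h, sum_const, nsmul_eq_mul]
  field_simp

lemma cs2 {ι : Type*} (S : Finset ι) {a b : ι → ℝ} (ha : ∀ i ∈ S, 0 ≤ a i)
    (hb : ∀ i ∈ S, 0 ≤ b i) :
    ∑ i ∈ S, √(a i) * √(b i) ≤ √(∑ i ∈ S, a i) * √(∑ i ∈ S, b i) := by
  have h := Real.sum_mul_le_sqrt_mul_sqrt S (fun i => √(a i)) (fun i => √(b i))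
  rw [sum_congr rfl fun i hi => Real.sq_sqrt (ha i hi),
    sum_congr rfl fun i hi => Real.sq_sqrt (hb i hi)] at h
  exact h

theorem bil_of_rank₀ {q s : ℝ} (hsq : s.HolderConjugate q) (H : RankHyp ℓ T q s) :
    BilHyp ℓ T q := by
  intro g h hg hh hdep
  have hc : (0 : ℝ) < (ker ℓ T).card := by exact_mod_cast card_ker_pos ℓ T
  have hne : (ker ℓ T).Nonempty := ⟨0, zero_mem_ker ℓ T⟩
  have hth : ∀ (p : ℝ) (f : (Ω → ZMod 2) → ℝ), (∀ x, 0 ≤ f x) → ∀ x,
      0 ≤ th p (ker ℓ T) fun d => f (x + sh ℓ d) := by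
    intro p f hf x
    unfold th mn
    exact Real.rpow_nonneg (div_nonneg (sum_nonneg fun d _ => Real.rpow_nonneg (hf _) _) hc.le) _
  have hcg : ∀ c x, 0 ≤ cexp ℓ c g x := by
    intro c x
    unfold cexp
    have : 0 ≤ ∑ u, g (merge ℓ c x u) := sum_nonneg fun u _ => hg _
    positivity
  have h1 : ∀ c ∈ ker ℓ T, ∑ x, g x * h c x
      ≤ √(∑ x, th s (ker ℓ T) fun d => cexp ℓ c g (x + sh ℓ d)) * √(NN ℓ T q (h c)) := by
    intro c _
    rw [sum_cexp_mul ℓ c g (h c) fun x u => hdep c _ _ fun w hw => by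
      unfold merge
      rw [if_pos hw]]
    rw [sum_eq_sum_mn ℓ T]
    refine le_trans (sum_le_sum fun x _ => mn_holder hne hsq (fun d _ => hcg c _)
      fun d _ => hh c _) ?_
    exact cs2 univ (fun x _ => hth s _ (hcg c) x) fun x _ => hth q _ (hh c) x
  have h2 : ∑ c ∈ ker ℓ T, ∑ x, g x * h c x
      ≤ √(∑ c ∈ ker ℓ T, ∑ x, th s (ker ℓ T) fun d => cexp ℓ c g (x + sh ℓ d))
        * √(∑ c ∈ ker ℓ T, NN ℓ T q (h c)) :=
    (sum_le_sum h1).trans (cs2 _ (fun c _ => sum_nonneg fun x _ => hth s _ (hcg c) x)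
      fun c _ => sum_nonneg fun x _ => hth q _ (hh c) x)
  have h3 := H g hg
  have h4 : mn (ker ℓ T) (fun c => ∑ x, g x * h c x)
      ≤ √(mn (ker ℓ T) fun c => ∑ x, th s (ker ℓ T) fun d => cexp ℓ c g (x + sh ℓ d))
        * √(mn (ker ℓ T) fun c => NN ℓ T q (h c)) := by
    unfold mn
    rw [Real.sqrt_div' _ hc.le, Real.sqrt_div' _ hc.le, div_mul_div_comm, Real.mul_self_sqrt hc.le]
    exact div_le_div_of_nonneg_right h2 hc.le
  exact h4.trans (mul_le_mul_of_nonneg_right (Real.sqrt_le_sqrt h3) (Real.sqrt_nonneg _))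

end

end J

theorem bil_of_rank {Ω D : Type} [Fintype Ω] [DecidableEq Ω] [Fintype D] [DecidableEq D]
    [AddCommGroup D] (ℓ : Ω → (D →+ ZMod 2)) (T : Finset Ω) {q s : ℝ}
    (hsq : s.HolderConjugate q) (H : RankHyp ℓ T q s) : BilHyp ℓ T q :=
  J.bil_of_rank₀ ℓ T hsq H

end Pool.Agent.MP_ec946a.RH
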