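import Mathlib
import Pool.Agent.Lib.RH.Defs

/-!
# Rank hypercontractivity: the second derivative of the square of the norm

`DER1`, `DER2`, the midpoint lemma, and the two point inequality from the second derivative
inequality.
-/

set_option autoImplicit false
set_option linter.unusedSectionVars false

namespace Pool.Agent.MP_ec946a.RH

open Finset

section

variable {D : Type}

lemma der_mn_pos {K : Finset D} (hK : K.Nonempty) {φ : D → ℝ} (h : ∀ d ∈ K, 0 < φ d) :
    0 < mn K φ :=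
  div_pos (sum_pos h hK) (by exact_mod_cast hK.card_pos)

lemma hasDerivAt_lin (A H : D → ℝ) (d : D) (σ : ℝ) :
    HasDerivAt (fun τ : ℝ => A d + τ * H d) (H d) σ := by
  have h := ((hasDerivAt_id σ).mul_const (H d)).const_add (A d)
  rw [one_mul] at h
  exact h

lemma hasDerivAt_mn {K : Finset D} {φ : D → ℝ → ℝ} {φ' : D → ℝ} {σ : ℝ}
    (h : ∀ d ∈ K, HasDerivAt (φ d) (φ' d) σ) :
    HasDerivAt (fun τ => mn K fun d => φ d τ) (mn K φ') σ :=
  (HasDerivAt.fun_sum h).div_const _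

lemma hasDerivAt_mn_rpow {K : Finset D} {A H : D → ℝ} {σ : ℝ} (r : ℝ)
    (hF : ∀ d ∈ K, 0 < A d + σ * H d) :
    HasDerivAt (fun τ : ℝ => mn K fun d => (A d + τ * H d) ^ r)
      (r * mn K fun d => (A d + σ * H d) ^ (r - 1) * H d) σ := by
  have h1 : ∀ d ∈ K, HasDerivAt (fun τ : ℝ => (A d + τ * H d) ^ r)
      (H d * r * (A d + σ * H d) ^ (r - 1)) σ := fun d hd =>
    (hasDerivAt_lin A H d σ).rpow_const (Or.inl (hF d hd).ne')
  have h2 := hasDerivAt_mn h1
  have h3 : (mn K fun d => H d * r * (A d + σ * H d) ^ (r - 1))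
      = r * mn K fun d => (A d + σ * H d) ^ (r - 1) * H d := by
    unfold mn
    rw [mul_div_assoc', mul_sum]
    congr 1
    exact sum_congr rfl fun d _ => by ring
  rw [h3] at h2
  exact h2

theorem der1 : DER1 := by
  intro D K A H p σ hp hK hF
  have h1 := hasDerivAt_mn_rpow p hF
  have hM : 0 < mn K fun d => (A d + σ * H d) ^ p :=
    der_mn_pos hK fun d hd => Real.rpow_pos_of_pos (hF d hd) _
  have h2 := h1.rpow_const (p := 2 / p) (Or.inl hM.ne')
  have h3 : (p * mn K fun d => (A d + σ * H d) ^ (p - 1) * H d) * (2 / p)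
      * (mn K fun d => (A d + σ * H d) ^ p) ^ (2 / p - 1)
      = d1 p K (fun d => A d + σ * H d) H := by
    unfold d1
    field_simp
  rw [h3] at h2
  exact h2

theorem der2 : DER2 := by
  intro D K A H p σ hp hK hF
  have hM : 0 < mn K fun d => (A d + σ * H d) ^ p :=
    der_mn_pos hK fun d hd => Real.rpow_pos_of_pos (hF d hd) _
  have h1 := (hasDerivAt_mn_rpow p hF).rpow_const (p := 2 / p - 1) (Or.inl hM.ne')
  have h2 : HasDerivAt (fun τ : ℝ => mn K fun d => (A d + τ * H d) ^ (p - 1) * H d)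
      ((p - 1) * mn K fun d => (A d + σ * H d) ^ (p - 2) * H d ^ 2) σ := by
    have h3 : ∀ d ∈ K, HasDerivAt (fun τ : ℝ => (A d + τ * H d) ^ (p - 1) * H d)
        (H d * (p - 1) * (A d + σ * H d) ^ (p - 1 - 1) * H d) σ := fun d hd =>
      ((hasDerivAt_lin A H d σ).rpow_const (Or.inl (hF d hd).ne')).mul_const _
    have h4 := hasDerivAt_mn h3
    have h5 : (mn K fun d => H d * (p - 1) * (A d + σ * H d) ^ (p - 1 - 1) * H d)
        = (p - 1) * mn K fun d => (A d + σ * H d) ^ (p - 2) * H d ^ 2 := by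
      unfold mn
      rw [mul_div_assoc', mul_sum]
      congr 1
      refine sum_congr rfl fun d _ => ?_
      have h6 : p - 1 - 1 = p - 2 := by ring
      rw [h6]
      ring
    rw [h5] at h4
    exact h4
  have h3 := (h1.mul h2).const_mul 2
  have h4 : (fun τ : ℝ => d1 p K (fun d => A d + τ * H d) H) = fun τ : ℝ =>
      2 * ((mn K fun d => (A d + τ * H d) ^ p) ^ (2 / p - 1)
        * mn K fun d => (A d + τ * H d) ^ (p - 1) * H d) := by
    funext τ
    unfold d1
    ring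
  rw [h4]
  have h5 : 2 * (((p * mn K fun d => (A d + σ * H d) ^ (p - 1) * H d) * (2 / p - 1)
      * (mn K fun d => (A d + σ * H d) ^ p) ^ (2 / p - 1 - 1))
        * (mn K fun d => (A d + σ * H d) ^ (p - 1) * H d)
      + (mn K fun d => (A d + σ * H d) ^ p) ^ (2 / p - 1)
        * ((p - 1) * mn K fun d => (A d + σ * H d) ^ (p - 2) * H d ^ 2))
      = 2 * dd p K (fun d => A d + σ * H d) H := by
    unfold dd
    have h6 : 2 / p - 1 - 1 = 2 / p - 2 := by ring
    have h7 : p * (2 / p - 1) = 2 - p := by field_simp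
    rw [h6, ← h7]
    ring
  rw [← h5]
  exact h3

end

/-- the midpoint lemma -/
lemma midpoint {f f' f'' : ℝ → ℝ} {c : ℝ}
    (h1 : ∀ σ ∈ Set.Icc (-1 : ℝ) 1, HasDerivAt f (f' σ) σ)
    (h2 : ∀ σ ∈ Set.Icc (-1 : ℝ) 1, HasDerivAt f' (f'' σ) σ)
    (h3 : ∀ σ ∈ Set.Icc (-1 : ℝ) 1, 2 * c ≤ f'' σ) :
    f 0 + c ≤ (f 1 + f (-1)) / 2 := by
  have hg : ConvexOn ℝ (Set.Icc (-1 : ℝ) 1) fun σ => f σ - c * σ ^ 2 := by
    refine convexOn_of_hasDerivWithinAt2_nonneg (convex_Icc _ _)
      (f' := fun σ => f' σ - c * (2 * σ)) (f'' := fun σ => f'' σ - c * 2) ?_ ?_ ?_ ?_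
    · exact fun σ hσ => ((h1 σ hσ).continuousAt.sub
        ((continuous_const.mul (continuous_pow 2)).continuousAt)).continuousWithinAt
    · intro σ hσ
      have h4 := (h1 σ (interior_subset hσ)).sub (((hasDerivAt_pow 2 σ)).const_mul c)
      have h5 : c * (((2 : ℕ) : ℝ) * σ ^ (2 - 1)) = c * (2 * σ) := by norm_num
      rw [h5] at h4
      exact h4.hasDerivWithinAt
    · intro σ hσ
      have h4 := (h2 σ (interior_subset hσ)).sub ((((hasDerivAt_id σ).const_mul 2)).const_mul c)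
      rw [mul_one] at h4
      exact h4.hasDerivWithinAt
    · intro σ hσ
      have h4 := h3 σ (interior_subset hσ)
      linarith
  have hx : (1 : ℝ) ∈ Set.Icc (-1 : ℝ) 1 := by constructor <;> norm_num
  have hy : (-1 : ℝ) ∈ Set.Icc (-1 : ℝ) 1 := by constructor <;> norm_num
  have ha : (0 : ℝ) ≤ 1 / 2 := by norm_num
  have hab : (1 / 2 : ℝ) + 1 / 2 = 1 := by norm_num
  have h4 := hg.2 hx hy ha ha hab
  have h5 : (1 / 2 : ℝ) • (1 : ℝ) + (1 / 2 : ℝ) • (-1 : ℝ) = 0 := by
    rw [smul_eq_mul, smul_eq_mul]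
    norm_num
  rw [h5] at h4
  simp only [smul_eq_mul] at h4
  norm_num at h4
  linarith

end Pool.Agent.MP_ec946a.RH
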