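import Mathlib
import Pool.Agent.Lib.RH.Der
import Pool.Agent.Lib.RH.Defs2

/-!
# The two point inequality from the second derivative inequality
-/

set_option autoImplicit false
set_option linter.unusedSectionVars false

namespace Pool.Agent.MP_ec946a.RH

open Finset

section

variable {D : Type}

lemma diq_th_congr {p : ℝ} {K : Finset D} {F F' : D → ℝ} (h : ∀ d ∈ K, F d = F' d) :
    th p K F = th p K F' := by
  unfold th mn
  rw [sum_congr rfl fun d hd => show F d ^ p = F' d ^ p by rw [h d hd]]

lemma diq_continuous_th {p : ℝ} (hp : 0 < p) (K : Finset D) (F : D → ℝ → ℝ)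
    (hF : ∀ d, Continuous (F d)) : Continuous fun ε : ℝ => th p K fun d => F d ε := by
  unfold th mn
  refine Continuous.rpow_const (Continuous.div_const (continuous_finsetSum _ fun d _ =>
    (hF d).rpow_const fun _ => Or.inr hp.le) _) fun _ => Or.inr (by positivity)

end

theorem diq (hSC : SC) : DIq := by
  intro D K a u p hp1 hp2 hK hu
  set C := (p - 1) * 2 ^ (2 / p - 1)
    * (th p K (fun d => max (u d) 0) + th p K (fun d => max (-u d) 0)) with hC
  have key : ∀ ε : ℝ, 0 < ε → th p K (fun d => a d + ε) + C
      ≤ (th p K (fun d => a d + ε + u d) + th p K (fun d => a d + ε - u d)) / 2 := by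
    intro ε hε
    have hF : ∀ σ ∈ Set.Icc (-1 : ℝ) 1, ∀ d ∈ K, 0 < (a d + ε) + σ * u d := by
      intro σ hσ d hd
      have h1 : |σ * u d| ≤ a d := by
        rw [abs_mul]
        have h2 : |σ| ≤ 1 := abs_le.mpr hσ
        have h3 := hu d hd
        have h4 := abs_nonneg (u d)
        nlinarith [abs_nonneg σ]
      have h5 := neg_abs_le (σ * u d)
      linarith
    have h1 := midpoint (f := fun σ : ℝ => th p K fun d => (a d + ε) + σ * u d)
      (f' := fun σ : ℝ => d1 p K (fun d => (a d + ε) + σ * u d) u)
      (f'' := fun σ : ℝ => 2 * dd p K (fun d => (a d + ε) + σ * u d) u) (c := C)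
      (fun σ hσ => der1 D K (fun d => a d + ε) u p σ hp1 hK (hF σ hσ))
      (fun σ hσ => der2 D K (fun d => a d + ε) u p σ hp1 hK (hF σ hσ))
      (fun σ hσ => by
        have h2 := hSC D K (fun d => (a d + ε) + σ * u d) u p hp1 hp2 hK (hF σ hσ)
        linarith)
    have e0 : (th p K fun d => (a d + ε) + 0 * u d) = th p K fun d => a d + ε :=
      diq_th_congr fun d _ => by ring
    have e1 : (th p K fun d => (a d + ε) + 1 * u d) = th p K fun d => a d + ε + u d :=
      diq_th_congr fun d _ => by ring
    have e2 : (th p K fun d => (a d + ε) + (-1) * u d) = th p K fun d => a d + ε - u d :=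
      diq_th_congr fun d _ => by ring
    simp only [e0, e1, e2] at h1
    exact h1
  have hp0 : 0 < p := by linarith
  have hcl : IsClosed {ε : ℝ | th p K (fun d => a d + ε) + C
      ≤ (th p K (fun d => a d + ε + u d) + th p K (fun d => a d + ε - u d)) / 2} := by
    refine isClosed_le ((diq_continuous_th hp0 K _ fun d => ?_).add continuous_const)
      (((diq_continuous_th hp0 K _ fun d => ?_).add (diq_continuous_th hp0 K _ fun d => ?_)).div_const _)
    · exact continuous_const.add continuous_id
    · exact (continuous_const.add continuous_id).add continuous_const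
    · exact (continuous_const.add continuous_id).sub continuous_const
  have h0 : (0 : ℝ) ∈ closure (Set.Ioi (0 : ℝ)) := by
    rw [closure_Ioi]
    exact Set.self_mem_Ici
  have h1 := closure_minimal (fun ε hε => key ε hε) hcl h0
  have h2 : th p K (fun d => a d + 0) + C
      ≤ (th p K (fun d => a d + 0 + u d) + th p K (fun d => a d + 0 - u d)) / 2 := h1
  simp only [add_zero] at h2
  exact h2

end Pool.Agent.MP_ec946a.RH
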