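import Mathlib
import Pool.Agent.Lib.RH.Defs2

/-!
# The hyperplane game: the value from the bilinear rank hypercontractive inequality

Row 4 of the table `rh_rows`: the value of the hyperplane game with `2 ^ k` labels is at
most `2 ^ (1 / q) * (2 ^ k) ^ (-(3 - 2 √2))`, `q = 1 + 1 / √2`.
-/

set_option autoImplicit false
set_option linter.unusedSectionVars false

namespace Pool.Agent.MP_ec946a.RH

open Finset Pool.Agent.MP_ec946a.SDP

section

variable {Ω D : Type} [Fintype Ω] [DecidableEq Ω] [Fintype D] [DecidableEq D] [AddCommGroup D]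
  (ℓ : Ω → (D →+ ZMod 2))

lemma th_indicator {p : ℝ} (hp : 0 < p) (F : D → ℝ) (P : D → Prop) [DecidablePred P]
    (hF : ∀ d, F d = if P d then 1 else 0) :
    th p (univ : Finset D) F
      = (((univ.filter P).card : ℝ) / (Fintype.card D : ℝ)) ^ (2 / p) := by
  unfold th mn
  have h : ∀ d, F d ^ p = if P d then 1 else 0 := by
    intro d
    rw [hF]
    split_ifs
    · exact Real.one_rpow p
    · exact Real.zero_rpow hp.ne'
  rw [sum_congr rfl fun d _ => h d, sum_boole, card_univ]

lemma th_smul {p c : ℝ} (hp : 0 < p) (hc : 0 ≤ c) (K : Finset D) (F : D → ℝ)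
    (hF : ∀ d, 0 ≤ F d) :
    th p K (fun d => c * F d) = c ^ 2 * th p K F := by
  unfold th mn
  have h : ∀ d, (c * F d) ^ p = c ^ p * F d ^ p := fun d => Real.mul_rpow hc (hF d)
  rw [sum_congr rfl fun d _ => h d, ← mul_sum, mul_div_assoc, Real.mul_rpow (by positivity)
    (div_nonneg (sum_nonneg fun d _ => Real.rpow_nonneg (hF d) p) (Nat.cast_nonneg _)),
    ← Real.rpow_mul hc, mul_div_cancel₀ _ hp.ne', Real.rpow_two]

/-- the number of pairs of a string and a nonzero `γ` for which the guess `b γ`, made from the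
bits fixed by `γ`, is right up to adding `γ` -/
theorem guess (h2 : ∀ d : D, d + d = 0) {p : ℝ} (hp : 1 < p) (hp2 : p ≤ 2) (H : BilHyp ℓ ∅ p)
    {f : (Ω → ZMod 2) → ℝ} {a : (Ω → ZMod 2) → D}
    (ha : ∀ x d, a (x + sh ℓ d) = a x + d) (hf : ∀ x, f x = if a x = 0 then 1 else 0)
    (b : D → (Ω → ZMod 2) → D) (hb : ∀ γ x u, b γ (merge ℓ γ x u) = b γ x)
    (hbs : ∀ γ, γ ≠ 0 → ∀ x d, b γ (x + sh ℓ d) = b γ x + d ∨ b γ (x + sh ℓ d) = b γ x + d + γ) :
    ∑ γ ∈ univ.erase (0 : D), ((univ.filter fun x => a x = b γ x ∨ a x = b γ x + γ).card : ℝ)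
      ≤ (2 : ℝ) ^ (1 / p) * (Fintype.card D : ℝ) ^ (1 - 2 / p)
        * ((Fintype.card (Ω → ZMod 2) : ℝ) * ((Fintype.card D : ℝ) - 1)) := by
  set X : ℝ := (Fintype.card (Ω → ZMod 2) : ℝ) with hX
  set K : ℝ := (Fintype.card D : ℝ) with hK
  have hp0 : 0 < p := by linarith
  have hX0 : 0 < X := cardX_pos
  have hK0 : 0 < K := cardD_pos
  have hne : Nonempty D := ⟨0⟩
  have hK1 : 1 ≤ K := by
    rw [hK]
    exact_mod_cast Nat.succ_le_of_lt Fintype.card_pos
  set A : ℝ := (2 : ℝ) ^ (1 / p) with hA
  have hA0 : 0 < A := Real.rpow_pos_of_pos two_pos _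
  have hadd : ∀ c d : D, c + d = 0 ↔ c = d := by
    intro c d
    constructor
    · intro h
      exact add_right_cancel (h.trans (h2 d).symm)
    · rintro rfl
      exact h2 c
  let h : D → (Ω → ZMod 2) → ℝ := fun γ x =>
    if γ = 0 then A * f x else if b γ x = 0 ∨ b γ x = γ then 1 else 0
  have hf0 : ∀ x, 0 ≤ f x := by
    intro x
    rw [hf]
    split_ifs
    · exact zero_le_one
    · exact le_refl _
  have hh0 : ∀ γ x, 0 ≤ h γ x := by
    intro γ x
    show 0 ≤ (if γ = 0 then A * f x else if b γ x = 0 ∨ b γ x = γ then (1 : ℝ) else 0)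
    split_ifs
    · exact mul_nonneg hA0.le (hf0 x)
    · exact zero_le_one
    · exact le_refl _
  have hdep : ∀ γ x y, (∀ w, ℓ w γ = 0 → x w = y w) → h γ x = h γ y := by
    intro γ x y hxy
    by_cases hγ : γ = 0
    · have e : x = y := funext fun w => hxy w (by rw [hγ, map_zero])
      rw [e]
    · have e : merge ℓ γ x y = y := by
        funext i
        unfold merge
        split_ifs with hi
        · exact hxy i hi
        · rfl
      have e1 : b γ y = b γ x := by
        rw [← hb γ x y, e]
      show (if γ = 0 then A * f x else if b γ x = 0 ∨ b γ x = γ then (1 : ℝ) else 0)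
        = (if γ = 0 then A * f y else if b γ y = 0 ∨ b γ y = γ then (1 : ℝ) else 0)
      rw [if_neg hγ, if_neg hγ, e1]
  have hmain := H f h hf0 hh0 hdep
  rw [ker_empty] at hmain
  -- the norm of f
  have hNf : NN ℓ ∅ p f = X * (1 / K) ^ (2 / p) := by
    unfold NN
    rw [ker_empty]
    have e : ∀ x, th p (univ : Finset D) (fun d => f (x + sh ℓ d)) = (1 / K) ^ (2 / p) := by
      intro x
      rw [th_indicator hp0 _ (fun d => d = a x)]
      · rw [filter_eq' univ (a x), if_pos (mem_univ _), card_singleton, Nat.cast_one]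
      · intro d
        rw [hf, ha]
        congr 1
        rw [hadd]
        exact propext eq_comm
    rw [sum_congr rfl fun x _ => e x, sum_const, card_univ, nsmul_eq_mul]
  -- the norms of h
  have hNh : ∀ γ, NN ℓ ∅ p (h γ) = X * (2 / K) ^ (2 / p) := by
    intro γ
    by_cases hγ : γ = 0
    · have e : NN ℓ ∅ p (h γ) = A ^ 2 * NN ℓ ∅ p f := by
        unfold NN
        rw [mul_sum]
        refine sum_congr rfl fun x _ => ?_
        rw [← th_smul hp0 hA0.le _ _ (fun d => hf0 _)]
        congr 1
        funext d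
        show (if γ = 0 then A * f (x + sh ℓ d) else _) = _
        rw [if_pos hγ]
      rw [e, hNf]
      have e2 : A ^ 2 * (1 / K) ^ (2 / p) = (2 / K) ^ (2 / p) := by
        rw [show (2 : ℝ) / K = 2 * (1 / K) by ring, Real.mul_rpow two_pos.le (by positivity)]
        congr 1
        rw [hA, ← Real.rpow_natCast, ← Real.rpow_mul two_pos.le]
        congr 1
        push_cast
        ring
      rw [← e2]
      ring
    · unfold NN
      rw [ker_empty]
      have e : ∀ x, th p (univ : Finset D) (fun d => h γ (x + sh ℓ d)) = (2 / K) ^ (2 / p) := by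
        intro x
        rw [th_indicator hp0 _ (fun d => d = b γ x ∨ d = b γ x + γ)]
        · have e1 : univ.filter (fun d => d = b γ x ∨ d = b γ x + γ)
              = ({b γ x, b γ x + γ} : Finset D) := by
            ext d
            simp
          rw [e1, card_pair (fun h => hγ (left_eq_add.mp h)), Nat.cast_two]
        · intro d
          show (if γ = 0 then A * f (x + sh ℓ d) else
            if b γ (x + sh ℓ d) = 0 ∨ b γ (x + sh ℓ d) = γ then (1 : ℝ) else 0) = _
          rw [if_neg hγ]
          congr 1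
          apply propext
          have e3 : ∀ c : D, c + d = γ ↔ d = c + γ := by
            intro c
            constructor
            · rintro rfl
              rw [← add_assoc, h2, zero_add]
            · rintro rfl
              rw [← add_assoc, h2, zero_add]
          have e4 : ∀ c : D, c + d = 0 ↔ d = c := fun c => (hadd c d).trans eq_comm
          rcases hbs γ hγ x d with h3 | h3
          · rw [h3, e3, e4]
          · rw [h3, add_eq_right, e4]
            have e5 : b γ x + d + γ = 0 ↔ d = b γ x + γ := by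
              rw [hadd, e3]
            rw [e5]
            exact or_comm
      rw [sum_congr rfl fun x _ => e x, sum_const, card_univ, nsmul_eq_mul]
  have hmnh : (mn (univ : Finset D) fun c => NN ℓ ∅ p (h c)) = X * (2 / K) ^ (2 / p) := by
    unfold mn
    rw [sum_congr rfl fun c _ => hNh c, sum_const, card_univ, nsmul_eq_mul, ← hK]
    field_simp
  -- the left side
  set P : D → ℝ := fun γ => ((univ.filter fun x => a x = b γ x ∨ a x = b γ x + γ).card : ℝ)
    with hP
  have hl : ∀ γ, γ ≠ 0 → K * ∑ x, f x * h γ x = P γ := by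
    intro γ hγ
    rw [sum_orbit ℓ (fun x => f x * h γ x), hP]
    show _ = ((univ.filter fun x => a x = b γ x ∨ a x = b γ x + γ).card : ℝ)
    rw [card_filter]
    push_cast
    refine sum_congr rfl fun x _ => ?_
    have e : ∀ d : D, f (x + sh ℓ d) * h γ (x + sh ℓ d)
        = if d = a x then (if a x = b γ x ∨ a x = b γ x + γ then 1 else 0) else 0 := by
      intro d
      rw [hf, ha]
      by_cases hd : d = a x
      · rw [if_pos hd, if_pos ((hadd _ _).mpr hd.symm), one_mul]
        show (if γ = 0 then A * f (x + sh ℓ d) else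
            if b γ (x + sh ℓ d) = 0 ∨ b γ (x + sh ℓ d) = γ then (1 : ℝ) else 0) = _
        rw [if_neg hγ]
        congr 1
        apply propext
        have e3 : ∀ c : D, c + d = γ ↔ a x = c + γ := by
          intro c
          rw [← hd]
          constructor
          · rintro rfl
            rw [← add_assoc, h2, zero_add]
          · rintro rfl
            rw [← add_assoc, h2, zero_add]
        have e4 : ∀ c : D, c + d = 0 ↔ a x = c := by
          intro c
          rw [hadd, hd]
          exact eq_comm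
        rcases hbs γ hγ x d with h3 | h3
        · rw [h3, e3, e4]
        · rw [h3, add_eq_right, e4]
          have e5 : b γ x + d + γ = 0 ↔ a x = b γ x + γ := by
            rw [hadd, e3]
          rw [e5]
          exact or_comm
      · rw [if_neg hd, if_neg, zero_mul]
        intro h3
        exact hd ((hadd _ _).mp h3).symm
    rw [sum_congr rfl fun d _ => e d, sum_ite_eq' univ (a x), if_pos (mem_univ _)]
  have hl0 : K * ∑ x, f x * h 0 x = A * X := by
    have e : ∀ x, f x * h 0 x = A * f x := by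
      intro x
      show f x * (if (0 : D) = 0 then A * f x else _) = _
      rw [if_pos rfl, hf]
      split_ifs
      · ring
      · ring
    rw [sum_congr rfl fun x _ => e x, ← mul_sum, mul_left_comm, sum_orbit ℓ f]
    congr 1
    have e1 : ∀ x, ∑ d : D, f (x + sh ℓ d) = 1 := by
      intro x
      have e2 : ∀ d : D, f (x + sh ℓ d) = if d = a x then 1 else 0 := by
        intro d
        rw [hf, ha]
        congr 1
        rw [hadd]
        exact propext eq_comm
      rw [sum_congr rfl fun d _ => e2 d, sum_ite_eq' univ (a x), if_pos (mem_univ _)]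
    rw [sum_congr rfl fun x _ => e1 x, sum_const, card_univ, nsmul_eq_mul, mul_one]
  have hsum : K * ∑ c : D, ∑ x, f x * h c x = ∑ γ ∈ univ.erase (0 : D), P γ + A * X := by
    rw [← sum_erase_add _ _ (mem_univ (0 : D)), mul_add, hl0, mul_sum]
    congr 1
    exact sum_congr rfl fun γ hγ => hl γ (mem_erase.mp hγ).1
  rw [hNf, hmnh] at hmain
  unfold mn at hmain
  rw [card_univ, ← hK] at hmain
  set S : ℝ := ∑ γ ∈ univ.erase (0 : D), P γ with hS
  -- the right side
  have hr : √(X * (1 / K) ^ (2 / p)) * √(X * (2 / K) ^ (2 / p)) = X * A * K ^ (-(2 / p)) := by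
    rw [← Real.sqrt_mul (by positivity)]
    have e : X * (1 / K) ^ (2 / p) * (X * (2 / K) ^ (2 / p)) = (X * A * K ^ (-(2 / p))) ^ 2 := by
      have e1 : (1 / K) ^ (2 / p) = K ^ (-(2 / p)) := by
        rw [one_div, Real.inv_rpow hK0.le, Real.rpow_neg hK0.le]
      have e2 : (2 / K) ^ (2 / p) = A ^ 2 * K ^ (-(2 / p)) := by
        rw [div_eq_mul_one_div, Real.mul_rpow two_pos.le (by positivity), e1]
        congr 1
        rw [hA, ← Real.rpow_natCast, ← Real.rpow_mul two_pos.le]
        congr 1
        push_cast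
        ring
      rw [e1, e2]
      ring
    rw [e, Real.sqrt_sq (by positivity)]
  rw [hr, div_le_iff₀ hK0] at hmain
  have h5 : S + A * X ≤ K * (X * A * K ^ (-(2 / p)) * K) := by
    rw [← hsum]
    exact mul_le_mul_of_nonneg_left hmain hK0.le
  have h6 : K * K ^ (-(2 / p)) = K ^ (1 - 2 / p) := by
    conv_lhs => rw [← Real.rpow_one K]
    rw [← Real.rpow_mul hK0.le, ← Real.rpow_add hK0]
    congr 1
    ring
  have h7 : K ^ (1 - 2 / p) ≤ 1 := by
    refine Real.rpow_le_one_of_one_le_of_nonpos hK1 ?_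
    have : 1 ≤ 2 / p := by
      rw [le_div_iff₀ hp0]
      linarith
    linarith
  have h8 : K * (X * A * K ^ (-(2 / p)) * K) = A * X * (K * K ^ (1 - 2 / p)) := by
    rw [← h6]
    ring
  rw [h8] at h5
  have h9 : 0 ≤ A * X * (1 - K ^ (1 - 2 / p)) := by
    have : 0 ≤ 1 - K ^ (1 - 2 / p) := by linarith
    positivity
  nlinarith [h5, h9]

end

lemma lin_ann {k : ℕ} (γ : NZ k) (e : W k) (h : ∀ w, lin k w γ.1 = 0 → lin k w e = 0) :
    e = 0 ∨ e = γ.1 := by
  have h1 : ∀ j, e j = γ.1 j * e (i0 γ) := by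
    intro j
    have h2 := h (Pi.single j 1 + (γ.1 j) • Pi.single (i0 γ) 1)
    have e1 : ∀ d : W k, lin k (Pi.single j 1 + (γ.1 j) • Pi.single (i0 γ) 1) d
        = d j + γ.1 j * d (i0 γ) := by
      intro d
      rw [lin_add_left, lin_single]
      congr 1
      show ∑ i, (γ.1 j • (Pi.single (i0 γ) 1 : W k)) i * d i = _
      have e2 : ∀ i, (γ.1 j • (Pi.single (i0 γ) 1 : W k)) i * d i
          = γ.1 j * ((Pi.single (i0 γ) 1 : W k) i * d i) := by
        intro i
        rw [Pi.smul_apply, smul_eq_mul, mul_assoc]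
      rw [sum_congr rfl fun i _ => e2 i, ← mul_sum]
      congr 1
      exact lin_single (i0 γ) d
    rw [e1, e1, i0_spec, mul_one, CharTwo.add_self_eq_zero] at h2
    have h3 := h2 rfl
    have h4 : γ.1 j * e (i0 γ) + γ.1 j * e (i0 γ) = 0 := CharTwo.add_self_eq_zero _
    linear_combination h3 - h4
  rcases zmod2 (e (i0 γ)) with h2 | h2
  · left
    funext j
    rw [h1 j, h2, mul_zero]
    rfl
  · right
    funext j
    rw [h1 j, h2, mul_one]

lemma rv_shift {k : ℕ} (γ : W k) (x : XX k) (d : W k) : rv γ (x + sh (lin k) d) = rv γ x := by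
  unfold rv
  congr 1
  apply Quotient.sound
  exact (relV k γ).symm ⟨d, fun w _ => rfl⟩

lemma sv_shift {k : ℕ} (γ : NZ k) (x : XX k) (d : W k) :
    sv γ.1 (x + sh (lin k) d) = sv γ.1 x + d ∨ sv γ.1 (x + sh (lin k) d) = sv γ.1 x + d + γ.1 := by
  have h := lin_ann γ (sv γ.1 x + d + sv γ.1 (x + sh (lin k) d)) (by
    intro w hw
    have h1 := sv_spec γ.1 x hw
    have h2 := sv_spec γ.1 (x + sh (lin k) d) hw
    rw [rv_shift, h1] at h2
    have h3 : x w + lin k w (sv γ.1 x)
        = x w + lin k w d + lin k w (sv γ.1 (x + sh (lin k) d)) := h2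
    rw [map_add, map_add]
    have h4 : lin k w d + lin k w d = 0 := CharTwo.add_self_eq_zero _
    have h5 : lin k w (sv γ.1 (x + sh (lin k) d)) + lin k w (sv γ.1 (x + sh (lin k) d)) = 0 :=
      CharTwo.add_self_eq_zero _
    linear_combination h3 + h4 + h5)
  rcases h with h | h
  · left
    have h1 := add_self_W (sv γ.1 (x + sh (lin k) d))
    exact (add_right_cancel (h.trans h1.symm)).symm
  · right
    have h1 := add_self_W (sv γ.1 (x + sh (lin k) d))
    calc sv γ.1 (x + sh (lin k) d)
        = (sv γ.1 x + d + (sv γ.1 x + d)) + sv γ.1 (x + sh (lin k) d) := by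
          rw [add_self_W, zero_add]
      _ = (sv γ.1 x + d) + (sv γ.1 x + d + sv γ.1 (x + sh (lin k) d)) := by abel
      _ = _ := by rw [h]

theorem game_value {p : ℝ} (hp : 1 < p) (hp2 : p ≤ 2) (k : ℕ) (hk : 1 ≤ k)
    (H : BilHyp (lin k) ∅ p) :
    (hgame k hk).value ≤ (2 : ℝ) ^ (1 / p) * ((2 ^ k : ℕ) : ℝ) ^ (1 - 2 / p) := by
  unfold Game.value
  have hne : Nonempty (((hgame k hk).U → Fin (2 ^ k)) × ((hgame k hk).V → Fin (2 ^ k))) := by
    have : Nonempty (Fin (2 ^ k)) := ⟨lab k 0⟩
    infer_instance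
  refine ciSup_le fun L => ?_
  obtain ⟨LU, LV⟩ := L
  let a : XX k → W k := pick LU
  let f : XX k → ℝ := fun x => if a x = 0 then 1 else 0
  have hp' : ∀ x d, a (x + sh (lin k) d) = a x + d := fun x d => pick_shift _ x d
  let b : W k → XX k → W k := fun γ x =>
    if h : γ ≠ 0 then (lab k).symm (LV ⟨⟨γ, h⟩, Quotient.mk (relV k γ) x⟩) + sv γ x else 0
  have hb : ∀ γ x u, b γ (merge (lin k) γ x u) = b γ x := by
    intro γ x u
    show (if h : γ ≠ 0 then (lab k).symm (LV ⟨⟨γ, h⟩,
      Quotient.mk (relV k γ) (merge (lin k) γ x u)⟩) + sv γ (merge (lin k) γ x u) else 0) = _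
    rw [mk_merge, sv_merge]
  have hbs : ∀ γ, γ ≠ 0 → ∀ x d, b γ (x + sh (lin k) d) = b γ x + d
      ∨ b γ (x + sh (lin k) d) = b γ x + d + γ := by
    intro γ hγ x d
    have e1 : Quotient.mk (relV k γ) (x + sh (lin k) d) = Quotient.mk (relV k γ) x := by
      apply Quotient.sound
      exact (relV k γ).symm ⟨d, fun w _ => rfl⟩
    have e2 : ∀ y, b γ y
        = (lab k).symm (LV ⟨⟨γ, hγ⟩, Quotient.mk (relV k γ) y⟩) + sv γ y := by
      intro y
      show (if h : γ ≠ 0 then _ else _) = _
      rw [dif_pos hγ]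
    rw [e2, e2, e1]
    rcases sv_shift ⟨γ, hγ⟩ x d with h | h
    · left
      have h' : sv γ (x + sh (lin k) d) = sv γ x + d := h
      rw [h', add_assoc]
    · right
      have h' : sv γ (x + sh (lin k) d) = sv γ x + d + γ := h
      rw [h']
      abel
  have h1 := guess (lin k) add_self_W hp hp2 H (f := f) hp' (fun x => rfl) b hb hbs
  have hcE : (Nat.card (hgame k hk).E : ℝ)
      = (Fintype.card (XX k) : ℝ) * ((Fintype.card (W k) : ℝ) - 1) := by
    show ((Nat.card (XX k × NZ k) : ℕ) : ℝ) = _
    rw [Nat.card_prod, Nat.card_eq_fintype_card, Nat.card_eq_fintype_card,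
      Fintype.card_subtype_compl, Fintype.card_subtype_eq, Nat.cast_mul,
      Nat.cast_sub Fintype.card_pos, Nat.cast_one]
  have hE0 : (0 : ℝ) < (Nat.card (hgame k hk).E : ℝ) := by exact_mod_cast Nat.card_pos
  rw [div_le_iff₀ hE0, hcE]
  have h2 : (Nat.card ((hgame k hk).satisfied LU LV) : ℝ)
      ≤ ∑ γ ∈ univ.erase (0 : W k),
        ((univ.filter fun x => a x = b γ x ∨ a x = b γ x + γ).card : ℝ) := by
    have h3 : ∑ γ ∈ univ.erase (0 : W k),
        (univ.filter fun x => a x = b γ x ∨ a x = b γ x + γ).card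
        = ((univ.erase (0 : W k)).sigma fun γ =>
          univ.filter fun x => a x = b γ x ∨ a x = b γ x + γ).card := (card_sigma _ _).symm
    rw [← Nat.cast_sum, h3]
    have h4 : Nat.card ((hgame k hk).satisfied LU LV)
        ≤ Nat.card ((univ.erase (0 : W k)).sigma fun γ =>
          univ.filter fun x => a x = b γ x ∨ a x = b γ x + γ) := by
      refine Nat.card_le_card_of_injective
        (fun e => ⟨⟨e.1.2.1, e.1.1⟩, ?_⟩) ?_
      · rw [mem_sigma]
        refine ⟨mem_erase.mpr ⟨e.1.2.2, mem_univ _⟩, mem_filter.mpr ⟨mem_univ _, ?_⟩⟩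
        obtain ⟨⟨x, γ⟩, he⟩ := e
        show a x = b γ.1 x ∨ a x = b γ.1 x + γ.1
        have h5 : prj x γ (LU (Quotient.mk _ x)) = LV ⟨γ, Quotient.mk _ x⟩ := he
        have h6 : b γ.1 x = (lab k).symm (LV ⟨γ, Quotient.mk (relV k γ.1) x⟩) + sv γ.1 x := by
          show (if h : γ.1 ≠ 0 then _ else _) = _
          rw [dif_pos γ.2]
        rw [prj_eq_iff] at h5
        rw [h6]
        have hadd : ∀ c s t d : W k, c = d + (s + t) → c + s = d + t := by
          intro c s t d h
          rw [h]
          calc d + (s + t) + s = d + t + (s + s) := by abel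
            _ = d + t := by rw [add_self_W, add_zero]
        rcases h5.2 with h7 | h7
        · left
          apply hadd
          rw [h7, Equiv.symm_apply_apply]
        · right
          have h8 : (lab k).symm (LU (Quotient.mk _ x))
              = (lab k).symm (LV ⟨γ, Quotient.mk (relV k γ.1) x⟩) + γ.1
                + (su x + sv γ.1 x) := by
            rw [h7, Equiv.symm_apply_apply]
          have h9 := hadd _ _ _ _ h8
          show (lab k).symm (LU (Quotient.mk _ x)) + su x = _
          rw [h9]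
          abel
      · rintro ⟨⟨x, γ⟩, he⟩ ⟨⟨x', γ'⟩, he'⟩ h
        have h5 := congrArg Subtype.val h
        have h6 : γ.1 = γ'.1 := congrArg Sigma.fst h5
        have h7 : x = x' := by
          have := Sigma.mk.inj_iff.mp h5
          exact eq_of_heq this.2
        apply Subtype.ext
        exact Prod.ext h7 (Subtype.ext h6)
    have h8 : Nat.card ((univ.erase (0 : W k)).sigma fun γ =>
          univ.filter fun x => a x = b γ x ∨ a x = b γ x + γ)
        = ((univ.erase (0 : W k)).sigma fun γ =>
          univ.filter fun x => a x = b γ x ∨ a x = b γ x + γ).card :=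
      Nat.card_eq_card_toFinset _ |>.trans (by simp)
    rw [h8] at h4
    exact_mod_cast h4
  refine h2.trans (h1.trans (le_of_eq ?_))
  rw [card_W]

/-- the exponent of the game -/
lemma exponent : 1 - 2 / (1 + 1 / √2) = -(3 - 2 * √2) := by
  have h : √2 * √2 = 2 := Real.mul_self_sqrt two_pos.le
  have h0 : 0 < √2 := Real.sqrt_pos.mpr two_pos
  have h1 : (0 : ℝ) < 1 + 1 / √2 := by positivity
  rw [sub_eq_iff_eq_add, ← sub_eq_iff_eq_add', eq_div_iff h1.ne']
  field_simp
  nlinarith [h]

theorem gamB : GamB := by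
  intro H k hk
  have h0 : 0 < √2 := Real.sqrt_pos.mpr two_pos
  have h1 : 1 ≤ √2 := Real.one_le_sqrt.mpr one_le_two
  have h := game_value (p := 1 + 1 / √2) (by
    have : 0 < 1 / √2 := by positivity
    linarith) (by
    have : 1 / √2 ≤ 1 := by
      rw [div_le_one h0]
      exact h1
    linarith) k hk (H (W k) (W k) (lin k))
  rwa [exponent] at h

end Pool.Agent.MP_ec946a.RH
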