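import Mathlib
import Pool.Agent.Lib.RH.Defs

/-!
# Rank hypercontractivity: the induction
-/

set_option autoImplicit false
set_option linter.unusedSectionVars false

namespace Pool.Agent.MP_ec946a.RH

open Finset Pool.Agent.MP_ec946a.SDP

namespace J

section basic

variable {D : Type}

lemma mn_nonneg {K : Finset D} {φ : D → ℝ} (h : ∀ d ∈ K, 0 ≤ φ d) : 0 ≤ mn K φ :=
  div_nonneg (sum_nonneg h) (Nat.cast_nonneg _)

lemma mn_mono {K : Finset D} {φ ψ : D → ℝ} (h : ∀ d ∈ K, φ d ≤ ψ d) : mn K φ ≤ mn K ψ :=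
  div_le_div_of_nonneg_right (sum_le_sum h) (Nat.cast_nonneg _)

lemma mn_congr {K : Finset D} {φ ψ : D → ℝ} (h : ∀ d ∈ K, φ d = ψ d) : mn K φ = mn K ψ := by
  unfold mn
  rw [sum_congr rfl h]

lemma mn_mul (c : ℝ) (K : Finset D) (φ : D → ℝ) : mn K (fun d => c * φ d) = c * mn K φ := by
  unfold mn
  rw [← mul_sum, mul_div_assoc]

lemma mn_const {K : Finset D} (hK : K.Nonempty) (c : ℝ) : mn K (fun _ => c) = c := by
  unfold mn
  rw [sum_const, nsmul_eq_mul]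
  have : (0 : ℝ) < K.card := by exact_mod_cast hK.card_pos
  field_simp

lemma th_nonneg (p : ℝ) {K : Finset D} {F : D → ℝ} (h : ∀ d ∈ K, 0 ≤ F d) : 0 ≤ th p K F :=
  Real.rpow_nonneg (mn_nonneg fun d hd => Real.rpow_nonneg (h d hd) _) _

lemma th_mono {p : ℝ} (hp : 0 < p) {K : Finset D} {F G : D → ℝ} (h0 : ∀ d ∈ K, 0 ≤ F d)
    (h : ∀ d ∈ K, F d ≤ G d) : th p K F ≤ th p K G := by
  unfold th
  refine Real.rpow_le_rpow (mn_nonneg fun d hd => Real.rpow_nonneg (h0 d hd) _)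
    (mn_mono fun d hd => Real.rpow_le_rpow (h0 d hd) (h d hd) hp.le) (by positivity)

lemma th_congr {p : ℝ} {K : Finset D} {F G : D → ℝ} (h : ∀ d ∈ K, F d = G d) :
    th p K F = th p K G := by
  unfold th
  rw [mn_congr fun d hd => by rw [h d hd]]

lemma th_const {p : ℝ} (hp : 0 < p) {K : Finset D} (hK : K.Nonempty) {c : ℝ} (hc : 0 ≤ c) :
    th p K (fun _ => c) = c ^ 2 := by
  unfold th
  rw [mn_const hK, ← Real.rpow_mul hc, mul_div_cancel₀ _ hp.ne', Real.rpow_two]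

lemma dd_scale (p : ℝ) (K : Finset D) (F H : D → ℝ) {c : ℝ} (hc : c ^ 2 = 1) :
    dd p K F (fun d => c * H d) = dd p K F H := by
  unfold dd
  have e1 : (mn K fun d => F d ^ (p - 2) * (c * H d) ^ 2)
      = mn K fun d => F d ^ (p - 2) * H d ^ 2 := by
    refine mn_congr fun d _ => ?_
    rw [mul_pow, hc, one_mul]
  have e2 : (mn K fun d => F d ^ (p - 1) * (c * H d))
      = c * mn K fun d => F d ^ (p - 1) * H d := by
    rw [← mn_mul]
    refine mn_congr fun d _ => ?_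
    ring
  rw [e1, e2, mul_pow, hc, one_mul]

lemma dd_congr {p : ℝ} {K : Finset D} {F H H' : D → ℝ} (h : ∀ d ∈ K, H d = H' d) :
    dd p K F H = dd p K F H' := by
  unfold dd
  rw [mn_congr (φ := fun d => F d ^ (p - 2) * H d ^ 2) (ψ := fun d => F d ^ (p - 2) * H' d ^ 2)
    fun d hd => by rw [h d hd],
    mn_congr (φ := fun d => F d ^ (p - 1) * H d) (ψ := fun d => F d ^ (p - 1) * H' d)
    fun d hd => by rw [h d hd]]

lemma dd_zero (p : ℝ) (K : Finset D) (F : D → ℝ) : dd p K F (fun _ => 0) = 0 := by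
  unfold dd mn
  simp

end basic

section main

variable {Ω D : Type} [Fintype Ω] [DecidableEq Ω] [Fintype D] [DecidableEq D] [AddCommGroup D]
  (ℓ : Ω → (D →+ ZMod 2)) (T : Finset Ω)

/-- right side -/
noncomputable def Phi (q : ℝ) (f : (Ω → ZMod 2) → ℝ) : ℝ :=
  ∑ x, th q (ker ℓ T) fun d => f (x + sh ℓ d)

/-- left side -/
noncomputable def Psi (s : ℝ) (f : (Ω → ZMod 2) → ℝ) : ℝ :=
  mn (ker ℓ T) fun γ => ∑ x, th s (ker ℓ T) fun d => cexp ℓ γ f (x + sh ℓ d)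

lemma ker_nonempty : (ker ℓ T).Nonempty := ⟨0, zero_mem_ker ℓ T⟩

/-- the flip of a bit -/
def fl (w : Ω) : Ω → ZMod 2 := Pi.single w 1

lemma fl_add_self (w : Ω) : fl w + fl w = 0 := by
  unfold fl
  funext i
  exact CharTwo.add_self_eq_zero _

lemma add_fl_fl (w : Ω) (x : Ω → ZMod 2) : x + fl w + fl w = x := by
  rw [add_assoc, fl_add_self, add_zero]

/-- the average over a bit -/
noncomputable def av (w : Ω) (f : (Ω → ZMod 2) → ℝ) (x : Ω → ZMod 2) : ℝ :=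
  (f x + f (x + fl w)) / 2

/-- half of the difference over a bit -/
noncomputable def df (w : Ω) (f : (Ω → ZMod 2) → ℝ) (x : Ω → ZMod 2) : ℝ :=
  (f x - f (x + fl w)) / 2

/-- the derivative over a bit -/
noncomputable def gr (w : Ω) (f : (Ω → ZMod 2) → ℝ) (x : Ω → ZMod 2) : ℝ :=
  sgn (x w) * df w f x

lemma cexp_pos (γ : D) {f : (Ω → ZMod 2) → ℝ} (hf : ∀ x, 0 < f x) (x : Ω → ZMod 2) :
    0 < cexp ℓ γ f x := by
  unfold cexp
  have hX0 : (0 : ℝ) < (Fintype.card (Ω → ZMod 2) : ℝ) := cardX_pos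
  have : 0 < ∑ u, f (merge ℓ γ x u) := sum_pos (fun u _ => hf _) univ_nonempty
  positivity

lemma cexp_nonneg (γ : D) {f : (Ω → ZMod 2) → ℝ} (hf : ∀ x, 0 ≤ f x) (x : Ω → ZMod 2) :
    0 ≤ cexp ℓ γ f x := by
  unfold cexp
  have : 0 ≤ ∑ u, f (merge ℓ γ x u) := sum_nonneg (fun u _ => hf _)
  positivity

lemma cexp_mono (γ : D) {f g : (Ω → ZMod 2) → ℝ} (hf : ∀ x, f x ≤ g x) (x : Ω → ZMod 2) :
    cexp ℓ γ f x ≤ cexp ℓ γ g x := by
  unfold cexp
  have : ∑ u, f (merge ℓ γ x u) ≤ ∑ u, g (merge ℓ γ x u) := sum_le_sum (fun u _ => hf _)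
  have hX0 : (0 : ℝ) < (Fintype.card (Ω → ZMod 2) : ℝ) := cardX_pos
  exact mul_le_mul_of_nonneg_left this (by positivity)

lemma cexp_lin (γ : D) (f g : (Ω → ZMod 2) → ℝ) (τ : ℝ) (x : Ω → ZMod 2) :
    cexp ℓ γ (fun y => f y + τ * g y) x = cexp ℓ γ f x + τ * cexp ℓ γ g x := by
  unfold cexp
  rw [sum_add_distrib, ← mul_sum]
  ring

lemma cexp_const (γ : D) (c : ℝ) (x : Ω → ZMod 2) : cexp ℓ γ (fun _ => c) x = c := by
  unfold cexp
  rw [sum_const, nsmul_eq_mul, card_univ]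
  have hX0 : (0 : ℝ) < (Fintype.card (Ω → ZMod 2) : ℝ) := cardX_pos
  field_simp

lemma cexp_flip (γ : D) (w : Ω) (f : (Ω → ZMod 2) → ℝ) (x : Ω → ZMod 2) :
    cexp ℓ γ (fun y => f (y + fl w)) x = cexp ℓ γ f (x + fl w) := by
  unfold cexp
  congr 1
  refine Fintype.sum_equiv (Equiv.addRight (fl w)) _ _ fun u => ?_
  show f (merge ℓ γ x u + fl w) = f (merge ℓ γ (x + fl w) (u + fl w))
  rw [merge_add, merge_self]

lemma cexp_neg (γ : D) (g : (Ω → ZMod 2) → ℝ) (x : Ω → ZMod 2) :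
    cexp ℓ γ (fun y => - g y) x = - cexp ℓ γ g x := by
  unfold cexp
  rw [sum_neg_distrib]
  ring

/-- shifting the argument does not change a sum over all strings -/
lemma sum_shift (φ : (Ω → ZMod 2) → ℝ) (z : Ω → ZMod 2) : ∑ x, φ (x + z) = ∑ x, φ x :=
  Fintype.sum_equiv (Equiv.addRight z) _ _ fun _ => rfl

lemma Phi_flip (q : ℝ) (w : Ω) (f : (Ω → ZMod 2) → ℝ) :
    Phi ℓ T q (fun y => f (y + fl w)) = Phi ℓ T q f := by
  unfold Phi
  rw [← sum_shift (fun x => th q (ker ℓ T) fun d => f (x + sh ℓ d)) (fl w)]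
  refine sum_congr rfl fun x _ => th_congr fun d _ => ?_
  show f (x + sh ℓ d + fl w) = f (x + fl w + sh ℓ d)
  rw [add_right_comm x (fl w) (sh ℓ d)]

lemma Psi_flip (s : ℝ) (w : Ω) (f : (Ω → ZMod 2) → ℝ) :
    Psi ℓ T s (fun y => f (y + fl w)) = Psi ℓ T s f := by
  unfold Psi
  refine mn_congr fun γ _ => ?_
  rw [← sum_shift (fun x => th s (ker ℓ T) fun d => cexp ℓ γ f (x + sh ℓ d)) (fl w)]
  refine sum_congr rfl fun x _ => th_congr fun d _ => ?_
  rw [cexp_flip, add_right_comm x (fl w) (sh ℓ d)]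

lemma df_flip (w : Ω) (f : (Ω → ZMod 2) → ℝ) (x : Ω → ZMod 2) :
    df w f (x + fl w) = - df w f x := by
  unfold df
  rw [add_fl_fl]
  ring

lemma av_flip (w : Ω) (f : (Ω → ZMod 2) → ℝ) (x : Ω → ZMod 2) :
    av w f (x + fl w) = av w f x := by
  unfold av
  rw [add_fl_fl]
  ring

lemma av_add_df (w : Ω) (f : (Ω → ZMod 2) → ℝ) (x : Ω → ZMod 2) : av w f x + df w f x = f x := by
  unfold av df
  ring

lemma av_sub_df (w : Ω) (f : (Ω → ZMod 2) → ℝ) (x : Ω → ZMod 2) :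
    av w f x - df w f x = f (x + fl w) := by
  unfold av df
  ring

lemma path_pos (w : Ω) {f : (Ω → ZMod 2) → ℝ} (hf : ∀ x, 0 < f x) {τ : ℝ} (h1 : -1 ≤ τ)
    (h2 : τ ≤ 1) (x : Ω → ZMod 2) : 0 < av w f x + τ * df w f x := by
  have e : av w f x + τ * df w f x = (1 + τ) / 2 * f x + (1 - τ) / 2 * f (x + fl w) := by
    unfold av df
    ring
  rw [e]
  have ha := hf x
  have hb := hf (x + fl w)
  rcases eq_or_lt_of_le h1 with h | h
  · rw [← h]
    norm_num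
    exact hb
  · have : 0 < (1 + τ) / 2 * f x := mul_pos (by linarith) ha
    have : 0 ≤ (1 - τ) / 2 * f (x + fl w) := mul_nonneg (by linarith) hb.le
    linarith

lemma gr_flip (w : Ω) (f : (Ω → ZMod 2) → ℝ) (x : Ω → ZMod 2) :
    gr w f (x + fl w) = gr w f x := by
  unfold gr
  rw [df_flip]
  have : (x + fl w) w = x w + 1 := by
    unfold fl
    rw [Pi.add_apply, Pi.single_eq_same]
  rw [this, sgn_add, sgn_one]
  ring

lemma df_eq (w : Ω) (f : (Ω → ZMod 2) → ℝ) (x : Ω → ZMod 2) :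
    df w f x = sgn (x w) * gr w f x := by
  unfold gr
  rw [← mul_assoc, sgn_mul_self, one_mul]

lemma df_sh (w : Ω) (f : (Ω → ZMod 2) → ℝ) (x : Ω → ZMod 2) (d : D) :
    df w f (x + sh ℓ d) = sgn (x w) * (sgn (ℓ w d) * gr w f (x + sh ℓ d)) := by
  rw [df_eq]
  have : (x + sh ℓ d) w = x w + ℓ w d := rfl
  rw [this, sgn_add]
  ring

/-- noise which fixes the bit `w` commutes with the sign -/
lemma cexp_df {γ : D} {w : Ω} (hγ : ℓ w γ = 0) (f : (Ω → ZMod 2) → ℝ) (x : Ω → ZMod 2) :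
    cexp ℓ γ (df w f) x = sgn (x w) * cexp ℓ γ (gr w f) x := by
  unfold cexp
  have h : ∀ u, df w f (merge ℓ γ x u) = sgn (x w) * gr w f (merge ℓ γ x u) := by
    intro u
    rw [df_eq]
    have e : merge ℓ γ x u w = x w := by
      unfold merge
      rw [if_pos hγ]
    rw [e]
  rw [sum_congr rfl fun u _ => h u, ← mul_sum]
  ring

lemma cexp_df_sh {γ : D} {w : Ω} (hγ : ℓ w γ = 0) (f : (Ω → ZMod 2) → ℝ) (x : Ω → ZMod 2)
    (d : D) : cexp ℓ γ (df w f) (x + sh ℓ d)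
      = sgn (x w) * (sgn (ℓ w d) * cexp ℓ γ (gr w f) (x + sh ℓ d)) := by
  rw [cexp_df ℓ hγ]
  have : (x + sh ℓ d) w = x w + ℓ w d := rfl
  rw [this, sgn_add]
  ring

/-- noise which rerandomises the bit `w` kills the difference -/
lemma cexp_df_zero {γ : D} {w : Ω} (hγ : ℓ w γ = 1) (f : (Ω → ZMod 2) → ℝ) (x : Ω → ZMod 2) :
    cexp ℓ γ (df w f) x = 0 := by
  unfold cexp
  have h1 : ∑ u, df w f (merge ℓ γ x u) = - ∑ u, df w f (merge ℓ γ x u) := by
    conv_lhs => rw [← sum_shift (fun u => df w f (merge ℓ γ x u)) (fl w)]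
    rw [← sum_neg_distrib]
    refine sum_congr rfl fun u _ => ?_
    have e : merge ℓ γ x (u + fl w) = merge ℓ γ x u + fl w := by
      funext i
      unfold merge fl
      by_cases hij : i = w
      · subst hij
        rw [if_neg (by rw [hγ]; exact one_ne_zero), Pi.add_apply, Pi.add_apply,
          if_neg (by rw [hγ]; exact one_ne_zero)]
      · rw [Pi.add_apply, Pi.add_apply, Pi.single_eq_of_ne hij, add_zero, add_zero]
    rw [e, df_flip]
  have h2 : ∑ u, df w f (merge ℓ γ x u) = 0 := by linarith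
  rw [h2, mul_zero]

/-- the second half of `ker ℓ T` -/
def K1 (w : Ω) (d₀ : D) : Finset D := (ker ℓ (insert w T)).image (· + d₀)

lemma mem_K1 {w : Ω} {d₀ d : D} (hd₀ : d₀ ∈ ker ℓ T) (hw : ℓ w d₀ = 1) (hd : d ∈ K1 ℓ T w d₀) :
    d ∈ ker ℓ T ∧ ℓ w d = 1 := by
  obtain ⟨e, he, rfl⟩ := mem_image.mp hd
  rw [mem_ker] at he hd₀
  refine ⟨mem_ker.mpr fun i hi => ?_, ?_⟩
  · rw [map_add, he i (mem_insert_of_mem hi), hd₀ i hi, add_zero]
  · rw [map_add, he w (mem_insert_self _ _), hw, zero_add]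

lemma card_K1 (w : Ω) (d₀ : D) : (K1 ℓ T w d₀).card = (ker ℓ (insert w T)).card :=
  card_image_of_injective _ (add_left_injective d₀)

lemma sum_K1 (w : Ω) (d₀ : D) (φ : D → ℝ) :
    ∑ d ∈ K1 ℓ T w d₀, φ d = ∑ d ∈ ker ℓ (insert w T), φ (d + d₀) := by
  unfold K1
  rw [sum_image fun a _ b _ h => add_right_cancel h]

lemma sum_ker {w : Ω} {d₀ : D} (hd₀ : d₀ ∈ ker ℓ T) (hw : ℓ w d₀ = 1) (φ : D → ℝ) :
    ∑ d ∈ ker ℓ T, φ d = ∑ d ∈ ker ℓ (insert w T), φ d + ∑ d ∈ K1 ℓ T w d₀, φ d := by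
  rw [sum_K1, ← ker_split ℓ T hd₀ hw]

/-- the two halves give the same contribution after averaging over all strings -/
lemma sum_th_K1 (p : ℝ) (w : Ω) (d₀ : D) (g : (Ω → ZMod 2) → ℝ) :
    ∑ x, th p (K1 ℓ T w d₀) (fun d => g (x + sh ℓ d))
      = ∑ x, th p (ker ℓ (insert w T)) (fun d => g (x + sh ℓ d)) := by
  rw [← sum_shift (fun x => th p (ker ℓ (insert w T)) (fun d => g (x + sh ℓ d))) (sh ℓ d₀)]
  refine sum_congr rfl fun x _ => ?_
  unfold th mn
  rw [sum_K1, card_K1]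
  have : ∀ d : D, x + sh ℓ (d + d₀) = x + sh ℓ d₀ + sh ℓ d := by
    intro d
    rw [sh_add]
    abel
  simp only [this]

lemma sum_four (p : ℝ) (w : Ω) (d₀ : D) (g : (Ω → ZMod 2) → ℝ) :
    ∑ x, four p (ker ℓ (insert w T)) (K1 ℓ T w d₀) (fun d => g (x + sh ℓ d))
      = 2 * (Phi ℓ (insert w T) p (fun x => max (g x) 0)
          + Phi ℓ (insert w T) p (fun x => max (-g x) 0)) := by
  unfold four
  rw [sum_add_distrib, sum_add_distrib, sum_add_distrib,
    sum_th_K1 ℓ T p w d₀ (fun x => max (g x) 0), sum_th_K1 ℓ T p w d₀ (fun x => max (-g x) 0)]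
  unfold Phi
  ring

/-- the path from the average over a bit to the function -/
noncomputable def pa (w : Ω) (f : (Ω → ZMod 2) → ℝ) (τ : ℝ) (x : Ω → ZMod 2) : ℝ :=
  av w f x + τ * df w f x

lemma cexp_pa (γ : D) (w : Ω) (f : (Ω → ZMod 2) → ℝ) (τ : ℝ) (x : Ω → ZMod 2) :
    cexp ℓ γ (pa w f τ) x = cexp ℓ γ (av w f) x + τ * cexp ℓ γ (df w f) x :=
  cexp_lin ℓ γ _ _ τ x

section deriv

variable {w : Ω} {f : (Ω → ZMod 2) → ℝ} {τ : ℝ}

lemma deriv_Phi (H1 : DER1) {q : ℝ} (hq : 1 < q) (hf : ∀ x, 0 < f x) (h1 : -1 ≤ τ)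
    (h2 : τ ≤ 1) :
    HasDerivAt (fun τ : ℝ => Phi ℓ T q (pa w f τ))
      (∑ x, d1 q (ker ℓ T) (fun d => pa w f τ (x + sh ℓ d)) fun d => df w f (x + sh ℓ d)) τ := by
  unfold Phi
  exact HasDerivAt.fun_sum fun x _ => H1 D (ker ℓ T) (fun d => av w f (x + sh ℓ d))
    (fun d => df w f (x + sh ℓ d)) q τ hq (ker_nonempty ℓ T)
    (fun d _ => path_pos w hf h1 h2 _)

lemma deriv2_Phi (H2 : DER2) {q : ℝ} (hq : 1 < q) (hf : ∀ x, 0 < f x) (h1 : -1 ≤ τ)
    (h2 : τ ≤ 1) :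
    HasDerivAt (fun τ : ℝ => ∑ x, d1 q (ker ℓ T) (fun d => pa w f τ (x + sh ℓ d))
        fun d => df w f (x + sh ℓ d))
      (2 * ∑ x, dd q (ker ℓ T) (fun d => pa w f τ (x + sh ℓ d))
        fun d => df w f (x + sh ℓ d)) τ := by
  rw [mul_sum]
  exact HasDerivAt.fun_sum fun x _ => H2 D (ker ℓ T) (fun d => av w f (x + sh ℓ d))
    (fun d => df w f (x + sh ℓ d)) q τ hq (ker_nonempty ℓ T)
    (fun d _ => path_pos w hf h1 h2 _)

lemma deriv_Psi (H1 : DER1) {s : ℝ} (hs : 1 < s) (hf : ∀ x, 0 < f x) (h1 : -1 ≤ τ)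
    (h2 : τ ≤ 1) :
    HasDerivAt (fun τ : ℝ => Psi ℓ T s (pa w f τ))
      (mn (ker ℓ T) fun γ => ∑ x, d1 s (ker ℓ T) (fun d => cexp ℓ γ (pa w f τ) (x + sh ℓ d))
        fun d => cexp ℓ γ (df w f) (x + sh ℓ d)) τ := by
  unfold Psi mn
  refine HasDerivAt.div_const ?_ _
  refine HasDerivAt.fun_sum fun γ _ => HasDerivAt.fun_sum fun x _ => ?_
  have h3 := H1 D (ker ℓ T) (fun d => cexp ℓ γ (av w f) (x + sh ℓ d))
    (fun d => cexp ℓ γ (df w f) (x + sh ℓ d)) s τ hs (ker_nonempty ℓ T)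
    (fun d _ => by
      rw [← cexp_pa]
      exact cexp_pos ℓ γ (path_pos w hf h1 h2) _)
  simp only [← cexp_pa] at h3
  exact h3

lemma deriv2_Psi (H2 : DER2) {s : ℝ} (hs : 1 < s) (hf : ∀ x, 0 < f x) (h1 : -1 ≤ τ)
    (h2 : τ ≤ 1) :
    HasDerivAt (fun τ : ℝ => mn (ker ℓ T) fun γ => ∑ x, d1 s (ker ℓ T)
        (fun d => cexp ℓ γ (pa w f τ) (x + sh ℓ d)) fun d => cexp ℓ γ (df w f) (x + sh ℓ d))
      (2 * mn (ker ℓ T) fun γ => ∑ x, dd s (ker ℓ T)
        (fun d => cexp ℓ γ (pa w f τ) (x + sh ℓ d))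
        fun d => cexp ℓ γ (df w f) (x + sh ℓ d)) τ := by
  rw [← mn_mul]
  unfold mn
  refine HasDerivAt.div_const ?_ _
  refine HasDerivAt.fun_sum fun γ _ => ?_
  rw [mul_sum]
  refine HasDerivAt.fun_sum fun x _ => ?_
  have h3 := H2 D (ker ℓ T) (fun d => cexp ℓ γ (av w f) (x + sh ℓ d))
    (fun d => cexp ℓ γ (df w f) (x + sh ℓ d)) s τ hs (ker_nonempty ℓ T)
    (fun d _ => by
      rw [← cexp_pa]
      exact cexp_pos ℓ γ (path_pos w hf h1 h2) _)
  simp only [← cexp_pa] at h3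
  exact h3

end deriv

section key

variable {w : Ω} {d₀ : D}

lemma sgn_sq (a : ZMod 2) : sgn a ^ 2 = 1 := by
  rw [sq, sgn_mul_self]

lemma ddq_lower (hPQ : PQ) (hd₀ : d₀ ∈ ker ℓ T) (hw : ℓ w d₀ = 1) {q : ℝ} (hq : 1 < q)
    (hq2 : q ≤ 2) {f F : (Ω → ZMod 2) → ℝ} (hF : ∀ x, 0 < F x) :
    (q - 1) * (Phi ℓ (insert w T) q (fun x => max (gr w f x) 0)
        + Phi ℓ (insert w T) q (fun x => max (-gr w f x) 0))
      ≤ ∑ x, dd q (ker ℓ T) (fun d => F (x + sh ℓ d)) fun d => df w f (x + sh ℓ d) := by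
  have h1 : (q - 1) * (Phi ℓ (insert w T) q (fun x => max (gr w f x) 0)
        + Phi ℓ (insert w T) q (fun x => max (-gr w f x) 0))
      = ∑ x, (q - 1) / 2
        * four q (ker ℓ (insert w T)) (K1 ℓ T w d₀) (fun d => gr w f (x + sh ℓ d)) := by
    rw [← mul_sum, sum_four]
    ring
  rw [h1]
  refine sum_le_sum fun x _ => ?_
  have h2 : dd q (ker ℓ T) (fun d => F (x + sh ℓ d)) (fun d => df w f (x + sh ℓ d))
      = dd q (ker ℓ T) (fun d => F (x + sh ℓ d))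
        fun d => sgn (ℓ w d) * gr w f (x + sh ℓ d) := by
    rw [← dd_scale q (ker ℓ T) (fun d => F (x + sh ℓ d))
      (fun d => sgn (ℓ w d) * gr w f (x + sh ℓ d)) (sgn_sq (x w))]
    exact dd_congr fun d _ => df_sh ℓ w f x d
  rw [h2]
  refine hPQ D (ker ℓ T) (ker ℓ (insert w T)) (K1 ℓ T w d₀) _ _ _ q hq hq2
    (card_ker_pos ℓ _) (card_K1 ℓ T w d₀) (fun φ => sum_ker ℓ T hd₀ hw φ)
    (fun d _ => hF _) (fun d _ => hF _) (fun d hd => ?_) (fun d hd => ?_)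
  · rw [mem_ker.mp hd w (mem_insert_self _ _), sgn_zero, one_mul]
  · rw [(mem_K1 ℓ T hd₀ hw hd).2, sgn_one, neg_one_mul]

lemma dds_upper (hPS : PS) (hd₀ : d₀ ∈ ker ℓ T) (hw : ℓ w d₀ = 1) {s : ℝ} (hs : 2 ≤ s)
    {f F : (Ω → ZMod 2) → ℝ} (hF : ∀ x, 0 < F x) {γ : D} (hγ : ℓ w γ = 0) :
    ∑ x, dd s (ker ℓ T) (fun d => cexp ℓ γ F (x + sh ℓ d))
        (fun d => cexp ℓ γ (df w f) (x + sh ℓ d))
      ≤ (s - 1) * (∑ x, th s (ker ℓ (insert w T))
            (fun d => cexp ℓ γ (fun y => max (gr w f y) 0) (x + sh ℓ d))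
          + ∑ x, th s (ker ℓ (insert w T))
            (fun d => cexp ℓ γ (fun y => max (-gr w f y) 0) (x + sh ℓ d))) := by
  have h0 : ∑ x, dd s (ker ℓ T) (fun d => cexp ℓ γ F (x + sh ℓ d))
        (fun d => cexp ℓ γ (df w f) (x + sh ℓ d))
      ≤ ∑ x, (s - 1) / 2 * four s (ker ℓ (insert w T)) (K1 ℓ T w d₀)
          (fun d => cexp ℓ γ (gr w f) (x + sh ℓ d)) := by
    refine sum_le_sum fun x _ => ?_
    have h2 : dd s (ker ℓ T) (fun d => cexp ℓ γ F (x + sh ℓ d))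
          (fun d => cexp ℓ γ (df w f) (x + sh ℓ d))
        = dd s (ker ℓ T) (fun d => cexp ℓ γ F (x + sh ℓ d))
          fun d => sgn (ℓ w d) * cexp ℓ γ (gr w f) (x + sh ℓ d) := by
      rw [← dd_scale s (ker ℓ T) (fun d => cexp ℓ γ F (x + sh ℓ d))
        (fun d => sgn (ℓ w d) * cexp ℓ γ (gr w f) (x + sh ℓ d)) (sgn_sq (x w))]
      exact dd_congr fun d _ => cexp_df_sh ℓ hγ f x d
    rw [h2]
    refine hPS D (ker ℓ T) (ker ℓ (insert w T)) (K1 ℓ T w d₀) _ _ _ s hs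
      (card_ker_pos ℓ _) (card_K1 ℓ T w d₀) (fun φ => sum_ker ℓ T hd₀ hw φ)
      (fun d _ => cexp_pos ℓ γ hF _) (fun d _ => cexp_pos ℓ γ hF _)
      (fun d hd => ?_) (fun d hd => ?_)
    · rw [mem_ker.mp hd w (mem_insert_self _ _), sgn_zero, one_mul]
    · rw [(mem_K1 ℓ T hd₀ hw hd).2, sgn_one, neg_one_mul]
  refine h0.trans ?_
  rw [← mul_sum, sum_four ℓ T s w d₀ (cexp ℓ γ (gr w f))]
  unfold Phi
  have h3 : ∑ x, th s (ker ℓ (insert w T)) (fun d => max (cexp ℓ γ (gr w f) (x + sh ℓ d)) 0)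
      ≤ ∑ x, th s (ker ℓ (insert w T))
            (fun d => cexp ℓ γ (fun y => max (gr w f y) 0) (x + sh ℓ d)) := by
    refine sum_le_sum fun x _ => th_mono (by linarith) (fun d _ => le_max_right _ _)
      fun d _ => max_le (cexp_mono ℓ γ (fun y => le_max_left _ _) _)
        (cexp_nonneg ℓ γ (fun y => le_max_right _ _) _)
  have h4 : ∑ x, th s (ker ℓ (insert w T)) (fun d => max (-cexp ℓ γ (gr w f) (x + sh ℓ d)) 0)
      ≤ ∑ x, th s (ker ℓ (insert w T))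
            (fun d => cexp ℓ γ (fun y => max (-gr w f y) 0) (x + sh ℓ d)) := by
    refine sum_le_sum fun x _ => th_mono (by linarith) (fun d _ => le_max_right _ _)
      fun d _ => max_le ?_ (cexp_nonneg ℓ γ (fun y => le_max_right _ _) _)
    rw [← cexp_neg]
    exact cexp_mono ℓ γ (fun y => le_max_left _ _) _
  have h5 : (0 : ℝ) ≤ s - 1 := by linarith
  nlinarith [mul_le_mul_of_nonneg_left (add_le_add h3 h4) h5]

/-- the second derivative along the path is nonnegative -/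
lemma key (hPQ : PQ) (hPS : PS) (hd₀ : d₀ ∈ ker ℓ T) (hw : ℓ w d₀ = 1) {q s : ℝ}
    (hq : 3 / 2 ≤ q) (hq2 : q ≤ 2) (hs : s = 2 * q - 1) (IH : RankHyp ℓ (insert w T) q s)
    {f F : (Ω → ZMod 2) → ℝ} (hF : ∀ x, 0 < F x) :
    (mn (ker ℓ T) fun γ => ∑ x, dd s (ker ℓ T) (fun d => cexp ℓ γ F (x + sh ℓ d))
        fun d => cexp ℓ γ (df w f) (x + sh ℓ d))
      ≤ ∑ x, dd q (ker ℓ T) (fun d => F (x + sh ℓ d)) fun d => df w f (x + sh ℓ d) := by
  refine le_trans ?_ (ddq_lower ℓ T hPQ hd₀ hw (by linarith) hq2 hF)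
  have hpos := IH (fun x => max (gr w f x) 0) (fun x => le_max_right _ _)
  have hneg := IH (fun x => max (-gr w f x) 0) (fun x => le_max_right _ _)
  have hc : (0 : ℝ) < (ker ℓ (insert w T)).card := by exact_mod_cast card_ker_pos ℓ (insert w T)
  unfold mn
  rw [sum_ker ℓ T hd₀ hw, card_ker_split ℓ T hd₀ hw]
  have h1 : ∑ γ ∈ K1 ℓ T w d₀, ∑ x, dd s (ker ℓ T) (fun d => cexp ℓ γ F (x + sh ℓ d))
        (fun d => cexp ℓ γ (df w f) (x + sh ℓ d)) = 0 := by
    refine sum_eq_zero fun γ hγ => sum_eq_zero fun x _ => ?_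
    rw [dd_congr (H' := fun _ => 0) fun d _ => cexp_df_zero ℓ (mem_K1 ℓ T hd₀ hw hγ).2 f _,
      dd_zero]
  rw [h1, add_zero]
  have h2 : ∑ γ ∈ ker ℓ (insert w T), ∑ x, dd s (ker ℓ T)
        (fun d => cexp ℓ γ F (x + sh ℓ d)) (fun d => cexp ℓ γ (df w f) (x + sh ℓ d))
      ≤ ∑ γ ∈ ker ℓ (insert w T), (s - 1) * (∑ x, th s (ker ℓ (insert w T))
            (fun d => cexp ℓ γ (fun y => max (gr w f y) 0) (x + sh ℓ d))
          + ∑ x, th s (ker ℓ (insert w T))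
            (fun d => cexp ℓ γ (fun y => max (-gr w f y) 0) (x + sh ℓ d))) :=
    sum_le_sum fun γ hγ => dds_upper ℓ T hPS hd₀ hw (by linarith) hF
      (mem_ker.mp hγ w (mem_insert_self _ _))
  rw [← mul_sum, sum_add_distrib] at h2
  unfold mn at hpos hneg
  rw [div_le_iff₀ hc] at hpos hneg
  have hpos' : ∑ γ ∈ ker ℓ (insert w T), ∑ x, th s (ker ℓ (insert w T))
            (fun d => cexp ℓ γ (fun y => max (gr w f y) 0) (x + sh ℓ d))
      ≤ Phi ℓ (insert w T) q (fun x => max (gr w f x) 0) * (ker ℓ (insert w T)).card := hpos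
  have hneg' : ∑ γ ∈ ker ℓ (insert w T), ∑ x, th s (ker ℓ (insert w T))
            (fun d => cexp ℓ γ (fun y => max (-gr w f y) 0) (x + sh ℓ d))
      ≤ Phi ℓ (insert w T) q (fun x => max (-gr w f x) 0) * (ker ℓ (insert w T)).card := hneg
  rw [div_le_iff₀ (by positivity)]
  have h5 : (0 : ℝ) ≤ s - 1 := by linarith
  refine h2.trans ((mul_le_mul_of_nonneg_left (add_le_add hpos' hneg') h5).trans (le_of_eq ?_))
  rw [hs]
  ring

end key

/-- one step: averaging over a bit which is not trivial on `ker ℓ T` -/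
lemma step (hPQ : PQ) (hPS : PS) (H1 : DER1) (H2 : DER2) {w : Ω} {d₀ : D}
    (hd₀ : d₀ ∈ ker ℓ T) (hw : ℓ w d₀ = 1) {q s : ℝ}
    (hq : 3 / 2 ≤ q) (hq2 : q ≤ 2) (hs : s = 2 * q - 1) (IH : RankHyp ℓ (insert w T) q s)
    {f : (Ω → ZMod 2) → ℝ} (hf : ∀ x, 0 < f x) :
    Phi ℓ T q (av w f) - Psi ℓ T s (av w f) ≤ Phi ℓ T q f - Psi ℓ T s f := by
  set ψ : ℝ → ℝ := fun τ => Phi ℓ T q (pa w f τ) - Psi ℓ T s (pa w f τ) with hψ
  have hd : ∀ τ ∈ Set.Icc (-1 : ℝ) 1, HasDerivAt ψ _ τ := fun τ hτ =>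
    (deriv_Phi ℓ T H1 (by linarith : 1 < q) hf hτ.1 hτ.2).sub
      (deriv_Psi ℓ T H1 (by linarith : 1 < s) hf hτ.1 hτ.2)
  have hd2 : ∀ τ ∈ Set.Icc (-1 : ℝ) 1, HasDerivAt _ _ τ := fun τ hτ =>
    (deriv2_Phi ℓ T (w := w) (f := f) H2 (by linarith : 1 < q) hf hτ.1 hτ.2).sub
      (deriv2_Psi ℓ T (w := w) (f := f) H2 (by linarith : 1 < s) hf hτ.1 hτ.2)
  have hconv : ConvexOn ℝ (Set.Icc (-1 : ℝ) 1) ψ := by
    refine convexOn_of_hasDerivWithinAt2_nonneg (convex_Icc _ _)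
      (fun τ hτ => (hd τ hτ).continuousAt.continuousWithinAt)
      (fun τ hτ => (hd τ (interior_subset hτ)).hasDerivWithinAt)
      (fun τ hτ => (hd2 τ (interior_subset hτ)).hasDerivWithinAt) (fun τ hτ => ?_)
    have hτ' := interior_subset hτ
    have := key ℓ T hPQ hPS hd₀ hw hq hq2 hs IH (f := f) (F := pa w f τ)
      (path_pos w hf hτ'.1 hτ'.2)
    linarith
  have e0 : ψ 0 = Phi ℓ T q (av w f) - Psi ℓ T s (av w f) := by
    have : pa w f 0 = av w f := by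
      funext x
      unfold pa
      ring
    rw [hψ]
    simp only [this]
  have e1 : ψ 1 = Phi ℓ T q f - Psi ℓ T s f := by
    have : pa w f 1 = f := by
      funext x
      unfold pa
      rw [one_mul, av_add_df]
    rw [hψ]
    simp only [this]
  have e2 : ψ (-1) = Phi ℓ T q f - Psi ℓ T s f := by
    have : pa w f (-1) = fun y => f (y + fl w) := by
      funext x
      unfold pa
      rw [neg_one_mul, ← sub_eq_add_neg, av_sub_df]
    rw [hψ]
    simp only [this]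
    rw [Phi_flip, Psi_flip]
  have hm : (-1 : ℝ) ∈ Set.Icc (-1 : ℝ) 1 := ⟨by norm_num, by norm_num⟩
  have hp : (1 : ℝ) ∈ Set.Icc (-1 : ℝ) 1 := ⟨by norm_num, by norm_num⟩
  have h := hconv.2 hm hp (by norm_num : (0 : ℝ) ≤ 1 / 2) (by norm_num : (0 : ℝ) ≤ 1 / 2)
    (by norm_num)
  simp only [smul_eq_mul] at h
  have e3 : (1 / 2 : ℝ) * (-1) + 1 / 2 * 1 = 0 := by norm_num
  rw [e3, e0, e1, e2] at h
  linarith

lemma av_pos (w : Ω) {f : (Ω → ZMod 2) → ℝ} (hf : ∀ x, 0 < f x) (x : Ω → ZMod 2) :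
    0 < av w f x := by
  unfold av
  have h1 := hf x
  have h2 := hf (x + fl w)
  positivity

/-- averaging over any set of bits which are not trivial on `ker ℓ T` -/
lemma steps (hPQ : PQ) (hPS : PS) (H1 : DER1) (H2 : DER2) {q s : ℝ}
    (hq : 3 / 2 ≤ q) (hq2 : q ≤ 2) (hs : s = 2 * q - 1)
    (IH : ∀ w, ∀ d₀ ∈ ker ℓ T, ℓ w d₀ = 1 → RankHyp ℓ (insert w T) q s) (B : Finset Ω)
    (hB : ∀ w ∈ B, ∃ d₀ ∈ ker ℓ T, ℓ w d₀ = 1) {f : (Ω → ZMod 2) → ℝ} (hf : ∀ x, 0 < f x) :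
    ∃ f' : (Ω → ZMod 2) → ℝ, (∀ x, 0 < f' x) ∧ (∀ w ∈ B, ∀ x, f' (x + fl w) = f' x) ∧
      Phi ℓ T q f' - Psi ℓ T s f' ≤ Phi ℓ T q f - Psi ℓ T s f := by
  induction B using Finset.induction_on with
  | empty => exact ⟨f, hf, by simp, le_refl _⟩
  | insert w B hwB ih =>
    obtain ⟨f₁, h1, h2, h3⟩ := ih fun v hv => hB v (mem_insert_of_mem hv)
    obtain ⟨d₀, hd₀, hw⟩ := hB w (mem_insert_self _ _)
    refine ⟨av w f₁, av_pos w h1, ?_, ?_⟩
    · intro v hv x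
      rcases mem_insert.mp hv with rfl | hv
      · exact av_flip _ _ _
      · unfold av
        rw [add_right_comm x (fl v) (fl w), h2 v hv, h2 v hv]
    · exact (step ℓ T hPQ hPS H1 H2 hd₀ hw hq hq2 hs (IH w d₀ hd₀ hw) h1).trans h3

/-- a function which does not see the bits of `B` -/
lemma eq_of_agree {B : Finset Ω} {f : (Ω → ZMod 2) → ℝ} (hf : ∀ w ∈ B, ∀ x, f (x + fl w) = f x)
    {x y : Ω → ZMod 2} (hxy : ∀ i ∉ B, x i = y i) : f x = f y := by
  induction B using Finset.induction_on generalizing x y with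
  | empty =>
    congr 1
    funext i
    exact hxy i (notMem_empty _)
  | insert w B hwB ih =>
    have ih' := fun x y => @ih (fun v hv => hf v (mem_insert_of_mem hv)) x y
    by_cases h : x w = y w
    · refine ih' x y fun i hi => ?_
      by_cases hiw : i = w
      · rw [hiw, h]
      · exact hxy i fun h1 => (mem_insert.mp h1).elim hiw hi
    · rw [← hf w (mem_insert_self _ _) x]
      refine ih' _ y fun i hi => ?_
      by_cases hiw : i = w
      · subst hiw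
        have e : (x + fl i) i = x i + 1 := by
          unfold fl
          rw [Pi.add_apply, Pi.single_eq_same]
        rw [e]
        rcases zmod2 (x i) with h1 | h1 <;> rcases zmod2 (y i) with h2 | h2
        · exact absurd (h1.trans h2.symm) h
        · rw [h1, h2, zero_add]
        · rw [h1, h2]
          rfl
        · exact absurd (h1.trans h2.symm) h
      · have e : (x + fl w) i = x i := by
          unfold fl
          rw [Pi.add_apply, Pi.single_eq_of_ne hiw, add_zero]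
        rw [e]
        exact hxy i fun h1 => (mem_insert.mp h1).elim hiw hi

/-- equality for functions which see only the trivial bits -/
lemma Phi_eq_Psi {q s : ℝ} (hq : 0 < q) (hs : 0 < s) {f : (Ω → ZMod 2) → ℝ} (hf : ∀ x, 0 < f x)
    (h : ∀ w, (∃ d₀ ∈ ker ℓ T, ℓ w d₀ = 1) → ∀ x, f (x + fl w) = f x) :
    Phi ℓ T q f = Psi ℓ T s f := by
  classical
  set B : Finset Ω := univ.filter fun w => ∃ d₀ ∈ ker ℓ T, ℓ w d₀ = 1 with hB
  have hB' : ∀ w ∈ B, ∀ x, f (x + fl w) = f x := fun w hw =>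
    h w (mem_filter.mp hw).2
  have hnot : ∀ i ∉ B, ∀ d ∈ ker ℓ T, ℓ i d = 0 := by
    intro i hi d hd
    rcases zmod2 (ℓ i d) with h0 | h0
    · exact h0
    · exact absurd (mem_filter.mpr ⟨mem_univ _, d, hd, h0⟩) hi
  have e1 : ∀ x, ∀ d ∈ ker ℓ T, f (x + sh ℓ d) = f x := by
    intro x d hd
    refine eq_of_agree hB' fun i hi => ?_
    show x i + ℓ i d = x i
    rw [hnot i hi d hd, add_zero]
  have e2 : ∀ γ ∈ ker ℓ T, ∀ x, cexp ℓ γ f x = f x := by
    intro γ hγ x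
    have : ∀ u, f (merge ℓ γ x u) = f x := by
      intro u
      refine eq_of_agree hB' fun i hi => ?_
      unfold merge
      rw [if_pos (hnot i hi γ hγ)]
    unfold cexp
    rw [sum_congr rfl fun u _ => this u, sum_const, nsmul_eq_mul, card_univ]
    have hX0 : (0 : ℝ) < (Fintype.card (Ω → ZMod 2) : ℝ) := cardX_pos
    field_simp
  have e3 : Phi ℓ T q f = ∑ x, f x ^ 2 := by
    unfold Phi
    refine sum_congr rfl fun x _ => ?_
    rw [th_congr fun d hd => e1 x d hd, th_const hq (ker_nonempty ℓ T) (hf x).le]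
  have e4 : Psi ℓ T s f = ∑ x, f x ^ 2 := by
    unfold Psi
    rw [← mn_const (ker_nonempty ℓ T) (∑ x, f x ^ 2)]
    refine mn_congr fun γ hγ => sum_congr rfl fun x _ => ?_
    rw [th_congr fun d hd => (e2 γ hγ _).trans (e1 x d hd),
      th_const hs (ker_nonempty ℓ T) (hf x).le]
  rw [e3, e4]

/-- from positive to nonnegative functions -/
lemma of_pos {q s : ℝ} (hq : 0 < q) (hs : 0 < s)
    (h : ∀ f : (Ω → ZMod 2) → ℝ, (∀ x, 0 < f x) → Psi ℓ T s f ≤ Phi ℓ T q f) :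
    RankHyp ℓ T q s := by
  intro f hf
  have c1 : Continuous fun ε : ℝ => Psi ℓ T s (fun x => f x + ε * 1) := by
    unfold Psi mn th mn
    simp only [cexp_lin, cexp_const]
    refine Continuous.div_const (continuous_finsetSum _ fun γ _ => continuous_finsetSum _
      fun x _ => ?_) _
    refine Continuous.rpow_const (Continuous.div_const (continuous_finsetSum _ fun d _ => ?_) _)
      fun _ => Or.inr (by positivity)
    exact Continuous.rpow_const (by fun_prop) fun _ => Or.inr hs.le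
  have c2 : Continuous fun ε : ℝ => Phi ℓ T q (fun x => f x + ε * 1) := by
    unfold Phi th mn
    refine continuous_finsetSum _ fun x _ => ?_
    refine Continuous.rpow_const (Continuous.div_const (continuous_finsetSum _ fun d _ => ?_) _)
      fun _ => Or.inr (by positivity)
    exact Continuous.rpow_const (by fun_prop) fun _ => Or.inr hq.le
  have t1 := (c1.tendsto 0).mono_left (nhdsWithin_le_nhds (s := Set.Ioi (0 : ℝ)))
  have t2 := (c2.tendsto 0).mono_left (nhdsWithin_le_nhds (s := Set.Ioi (0 : ℝ)))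
  have h3 := le_of_tendsto_of_tendsto t1 t2 (by
    filter_upwards [self_mem_nhdsWithin] with ε hε
    refine h _ fun x => ?_
    have h4 := hf x
    have h5 : (0 : ℝ) < ε := hε
    linarith)
  simp only [zero_mul, add_zero] at h3
  exact h3

end main

end J

open J in
theorem ind : Ind := by
  intro hPQ hPS H1 H2 Ω D _ _ _ _ _ ℓ T q s hq hq2 hs
  induction hn : (univ \ T).card using Nat.strong_induction_on generalizing T with
  | _ n ih =>
    refine of_pos ℓ T (by linarith) (by linarith) fun f hf => ?_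
    have IH : ∀ w, ∀ d₀ ∈ ker ℓ T, ℓ w d₀ = 1 → RankHyp ℓ (insert w T) q s := by
      intro w d₀ hd₀ hw
      have hwT : w ∉ T := by
        intro h
        rw [mem_ker.mp hd₀ w h] at hw
        exact zero_ne_one hw
      refine ih (univ \ insert w T).card ?_ (insert w T) rfl
      rw [← hn]
      refine card_lt_card ?_
      rw [Finset.ssubset_iff_of_subset (sdiff_subset_sdiff (le_refl _) (subset_insert _ _))]
      exact ⟨w, mem_sdiff.mpr ⟨mem_univ _, hwT⟩, fun h => (mem_sdiff.mp h).2 (mem_insert_self _ _)⟩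
    classical
    obtain ⟨f', h1, h2, h3⟩ := steps ℓ T hPQ hPS H1 H2 hq hq2 hs IH
      (univ.filter fun w => ∃ d₀ ∈ ker ℓ T, ℓ w d₀ = 1) (fun w hw => (mem_filter.mp hw).2) hf
    have h4 := Phi_eq_Psi ℓ T (q := q) (s := s) (by linarith) (by linarith) h1
      fun w hw => h2 w (mem_filter.mpr ⟨mem_univ _, hw⟩)
    linarith

end Pool.Agent.MP_ec946a.RH
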