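import Mathlib

/-!
# Rank hypercontractivity, row A1: one sign set, exponent `q ≤ 2`
-/

set_option autoImplicit false

namespace Pool.Agent.RHT

open Finset

/-- Young's inequality for two numbers, weights `a + b = 1`. -/
theorem young2 {a b x y : ℝ} (ha : 0 ≤ a) (hb : 0 ≤ b) (hab : a + b = 1) (hx : 0 ≤ x) (hy : 0 ≤ y) :
    x ^ a * y ^ b ≤ a * x + b * y :=
  Real.geom_mean_le_arith_mean2_weighted ha hb hx hy hab

theorem two_rpow_le {δ m : ℝ} (h0 : 0 ≤ δ) (h1 : δ ≤ 1) (hm : 0 ≤ m) (hm2 : m ≤ 2) :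
    m ^ δ ≤ 1 + δ := by
  calc m ^ δ ≤ 2 ^ δ := Real.rpow_le_rpow hm hm2 h0
    _ = (1 + 1) ^ δ := by norm_num
    _ ≤ 1 + δ * 1 := _root_.rpow_one_add_le_one_add_mul_self (by norm_num) h0 h1
    _ = 1 + δ := by ring

variable {ι : Type*}

theorem lemT (A : Finset ι) (v g : ι → ℝ) (hv : ∀ i ∈ A, 0 ≤ v i) (hg : ∀ i ∈ A, 0 ≤ g i)
    {q m : ℝ} (hq1 : 1 < q) (hq2 : q ≤ 2) (hm : m = ∑ i ∈ A.filter (fun i => 0 < g i), v i)
    (hm2 : m ≤ 2) :
    (∑ i ∈ A, v i * g i ^ q) ^ (2 / q) ≤ ∑ i ∈ A, v i * g i ^ 2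
      - ((∑ i ∈ A, v i * g i) ^ 2 / m) * (1 - m ^ ((2 - q) / q)) := by
  have hq0 : 0 < q := by linarith
  set a := ∑ i ∈ A, v i * g i with ha
  set b := ∑ i ∈ A, v i * g i ^ 2 with hb
  set δ := (2 - q) / q with hδ
  have hδ0 : 0 ≤ δ := div_nonneg (by linarith) hq0.le
  have hδ1 : δ < 1 := by rw [hδ, div_lt_one hq0]; linarith
  have a0 : 0 ≤ a := Finset.sum_nonneg fun i hi => mul_nonneg (hv i hi) (hg i hi)
  have b0 : 0 ≤ b := Finset.sum_nonneg fun i hi => mul_nonneg (hv i hi) (sq_nonneg _)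
  have m0 : 0 ≤ m := by
    rw [hm]
    exact Finset.sum_nonneg fun i hi => hv i (Finset.mem_filter.1 hi).1
  -- degenerate case
  rcases a0.eq_or_lt with h0 | h0
  · have hz : ∀ i ∈ A, v i * g i = 0 := by
      intro i hi
      have := (Finset.sum_eq_zero_iff_of_nonneg
        (fun i hi => mul_nonneg (hv i hi) (hg i hi))).1 h0.symm i hi
      exact this
    have h1 : ∑ i ∈ A, v i * g i ^ q = 0 := by
      refine Finset.sum_eq_zero fun i hi => ?_
      rcases mul_eq_zero.1 (hz i hi) with h | h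
      · rw [h, zero_mul]
      · rw [h, Real.zero_rpow hq0.ne', mul_zero]
    rw [h1, ← h0, Real.zero_rpow (by positivity)]
    simpa using b0
  -- main case
  have hcs : a ^ 2 ≤ m * b := by
    have e1 : a = ∑ i ∈ A.filter (fun i => 0 < g i), v i * g i := by
      rw [ha, Finset.sum_filter]
      refine Finset.sum_congr rfl fun i hi => ?_
      split_ifs with h
      · rfl
      · rw [le_antisymm (not_lt.1 h) (hg i hi), mul_zero]
    have e2 : b = ∑ i ∈ A.filter (fun i => 0 < g i), v i * g i ^ 2 := by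
      rw [hb, Finset.sum_filter]
      refine Finset.sum_congr rfl fun i hi => ?_
      split_ifs with h
      · rfl
      · rw [le_antisymm (not_lt.1 h) (hg i hi)]; ring
    rw [e1, e2, hm]
    apply Finset.sum_sq_le_sum_mul_sum_of_sq_le_mul
    · exact fun i hi => hv i (Finset.mem_filter.1 hi).1
    · exact fun i hi => mul_nonneg (hv i (Finset.mem_filter.1 hi).1) (sq_nonneg _)
    · intro i _
      apply le_of_eq; ring
  have b1 : 0 < b := by
    rcases b0.eq_or_lt with h | h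
    · rw [← h, mul_zero] at hcs
      nlinarith
    · exact h
  have m1 : 0 < m := by
    rcases m0.eq_or_lt with h | h
    · rw [← h, zero_mul] at hcs
      nlinarith
    · exact h
  -- Hölder
  have hH : ∑ i ∈ A, v i * g i ^ q ≤ a ^ (2 - q) * b ^ (q - 1) := by
    have hpt : ∀ i ∈ A, v i * g i ^ q ≤ a ^ (2 - q) * b ^ (q - 1)
        * (v i * ((2 - q) * (g i / a) + (q - 1) * (g i ^ 2 / b))) := by
      intro i hi
      have hy := young2 (a := 2 - q) (b := q - 1) (x := g i / a) (y := g i ^ 2 / b)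
        (by linarith) (by linarith) (by ring) (div_nonneg (hg i hi) a0)
        (div_nonneg (sq_nonneg _) b0)
      have e : g i ^ q = a ^ (2 - q) * b ^ (q - 1) * ((g i / a) ^ (2 - q) * (g i ^ 2 / b) ^ (q - 1)) := by
        rw [Real.div_rpow (hg i hi) a0, Real.div_rpow (sq_nonneg _) b0]
        have h1 : (g i ^ 2) ^ (q - 1) = g i ^ (2 * (q - 1)) := by
          rw [← Real.rpow_natCast, ← Real.rpow_mul (hg i hi)]
          norm_num
        have h2 : g i ^ (2 - q) * g i ^ (2 * (q - 1)) = g i ^ q := by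
          rcases (hg i hi).eq_or_lt with h | h
          · rw [← h, Real.zero_rpow hq0.ne', Real.zero_rpow (by linarith : 2 * (q - 1) ≠ 0),
              mul_zero]
          · rw [← Real.rpow_add h]; ring_nf
        have hA : 0 < a ^ (2 - q) := Real.rpow_pos_of_pos h0 _
        have hB : 0 < b ^ (q - 1) := Real.rpow_pos_of_pos b1 _
        rw [h1, ← h2]
        field_simp
      rw [e]
      calc v i * (a ^ (2 - q) * b ^ (q - 1) * ((g i / a) ^ (2 - q) * (g i ^ 2 / b) ^ (q - 1)))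
          = a ^ (2 - q) * b ^ (q - 1) * (v i * ((g i / a) ^ (2 - q) * (g i ^ 2 / b) ^ (q - 1))) := by
            ring
        _ ≤ _ := mul_le_mul_of_nonneg_left (mul_le_mul_of_nonneg_left hy (hv i hi)) (by positivity)
    calc ∑ i ∈ A, v i * g i ^ q ≤ ∑ i ∈ A, a ^ (2 - q) * b ^ (q - 1)
        * (v i * ((2 - q) * (g i / a) + (q - 1) * (g i ^ 2 / b))) := Finset.sum_le_sum hpt
      _ = a ^ (2 - q) * b ^ (q - 1) * ((2 - q) * (a / a) + (q - 1) * (b / b)) := by
          rw [← Finset.mul_sum]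
          congr 1
          have : ∀ i ∈ A, v i * ((2 - q) * (g i / a) + (q - 1) * (g i ^ 2 / b))
              = (2 - q) / a * (v i * g i) + (q - 1) / b * (v i * g i ^ 2) := by
            intro i _; ring
          rw [Finset.sum_congr rfl this, Finset.sum_add_distrib, ← Finset.mul_sum, ← Finset.mul_sum,
            ← ha, ← hb]
          ring
      _ = _ := by
          rw [div_self h0.ne', div_self b1.ne']; ring
  have hsum0 : 0 ≤ ∑ i ∈ A, v i * g i ^ q :=
    Finset.sum_nonneg fun i hi => mul_nonneg (hv i hi) (Real.rpow_nonneg (hg i hi) _)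
  set y := b * m / a ^ 2 with hy
  have ha2 : 0 < a ^ 2 := by positivity
  have y1 : 1 ≤ y := by
    rw [hy, le_div_iff₀ ha2]; linarith
  have y0 : 0 ≤ y := by linarith
  have eb : b = a ^ 2 / m * y := by rw [hy]; field_simp
  have e1 : (a ^ (2 - q) * b ^ (q - 1)) ^ (2 / q) = a ^ 2 / m * (m ^ δ * y ^ (1 - δ)) := by
    have h1 : (a ^ (2 - q) * b ^ (q - 1)) ^ (2 / q) = a ^ (2 * δ) * b ^ (1 - δ) := by
      rw [Real.mul_rpow (by positivity) (by positivity), ← Real.rpow_mul a0, ← Real.rpow_mul b0]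
      congr 2
      · rw [hδ]; field_simp
      · rw [hδ]; field_simp; ring
    rw [h1, eb, Real.mul_rpow (by positivity) y0, Real.div_rpow (by positivity) m0,
      ← Real.rpow_natCast a 2, ← Real.rpow_mul a0, Real.rpow_sub m1, Real.rpow_one]
    have h2 : a ^ (2 * δ) * a ^ (((2:ℕ):ℝ) * (1 - δ)) = a ^ (((2:ℕ)):ℝ) := by
      rw [← Real.rpow_add h0]; push_cast; ring_nf
    rw [← h2]
    have hmd : 0 < m ^ δ := Real.rpow_pos_of_pos m1 _
    field_simp
  have e2 : b - a ^ 2 / m * (1 - m ^ δ) = a ^ 2 / m * (y - 1 + m ^ δ) := by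
    rw [eb]; ring
  have hmδ : m ^ δ ≤ 1 + δ := two_rpow_le hδ0 hδ1.le m0 hm2
  have hyδ : y ^ (1 - δ) ≤ 1 + (1 - δ) * (y - 1) := by
    have := _root_.rpow_one_add_le_one_add_mul_self (s := y - 1) (p := 1 - δ) (by linarith)
      (by linarith) (by linarith)
    simpa using this
  have h3 : m ^ δ * y ^ (1 - δ) ≤ y - 1 + m ^ δ := by
    have h4 : 0 ≤ m ^ δ := Real.rpow_nonneg m0 _
    calc m ^ δ * y ^ (1 - δ) ≤ m ^ δ * (1 + (1 - δ) * (y - 1)) := mul_le_mul_of_nonneg_left hyδ h4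
      _ = m ^ δ + (m ^ δ * (1 - δ)) * (y - 1) := by ring
      _ ≤ m ^ δ + 1 * (y - 1) := by
          have : m ^ δ * (1 - δ) ≤ 1 := by nlinarith
          nlinarith
      _ = _ := by ring
  calc (∑ i ∈ A, v i * g i ^ q) ^ (2 / q) ≤ (a ^ (2 - q) * b ^ (q - 1)) ^ (2 / q) :=
        Real.rpow_le_rpow hsum0 hH (by positivity)
    _ = a ^ 2 / m * (m ^ δ * y ^ (1 - δ)) := e1
    _ ≤ a ^ 2 / m * (y - 1 + m ^ δ) := mul_le_mul_of_nonneg_left h3 (by positivity)
    _ = _ := e2.symm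

end Pool.Agent.RHT
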