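import Pool.Agent.Lib.RH.Defs
import Pool.Agent.Lib.RH.TQ

/-! # Row A1 in the form of `Defs` -/

set_option autoImplicit false

namespace Pool.Agent.MP_ec946a.RH

theorem lemT : LemT := fun _ A v g q h1 h2 hv hg _ hm hm2 =>
  Pool.Agent.RHT.lemT A v g hv hg h1 h2 hm hm2

end Pool.Agent.MP_ec946a.RH
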