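import Mathlib

/-!
# Rank hypercontractivity: the weighted interpolation inequality above the exponent 2
-/

set_option autoImplicit false

namespace Pool.Agent.RH

open Finset Real

/-- `2 ^ d ≤ 1 + d` on `[0, 1]`. -/
lemma two_rpow_le_one_add {d : ℝ} (h0 : 0 ≤ d) (h1 : d ≤ 1) : (2 : ℝ) ^ d ≤ 1 + d := by
  have h := rpow_one_add_le_one_add_mul_self (s := 1) (by norm_num : (-1 : ℝ) ≤ 1) h0 h1
  norm_num at h
  linarith

/-- Hölder interpolation of the second moment between the first and the `s`-th moment. -/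
lemma interp_above {ι : Type*} (A : Finset ι) (v g : ι → ℝ) (hv : ∀ i ∈ A, 0 ≤ v i)
    (hg : ∀ i ∈ A, 0 ≤ g i) {s : ℝ} (hs : 2 < s) :
    ∑ i ∈ A, v i * g i ^ 2
      ≤ (∑ i ∈ A, v i * g i) ^ ((s - 2) / (s - 1)) * (∑ i ∈ A, v i * g i ^ s) ^ (1 / (s - 1)) := by
  have hp : (((s - 1) / (s - 2)) : ℝ).HolderConjugate (s - 1) := by
    rw [Real.holderConjugate_iff]
    refine ⟨?_, ?_⟩
    · rw [lt_div_iff₀ (by linarith)]
      linarith
    · have h1 : s - 1 ≠ 0 := by linarith
      have h2 : s - 2 ≠ 0 := by linarith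
      field_simp
      ring
  have h := Real.inner_le_Lp_mul_Lq_of_nonneg A (f := fun i => (v i * g i) ^ ((s - 2) / (s - 1)))
    (g := fun i => (v i * g i ^ s) ^ (1 / (s - 1))) hp
    (fun i hi => rpow_nonneg (mul_nonneg (hv i hi) (hg i hi)) _)
    (fun i hi => rpow_nonneg (mul_nonneg (hv i hi) (rpow_nonneg (hg i hi) _)) _)
  have e1 : ∀ i ∈ A, (v i * g i) ^ ((s - 2) / (s - 1)) * (v i * g i ^ s) ^ (1 / (s - 1))
      = v i * g i ^ 2 := by
    intro i hi
    have h1 : s - 1 ≠ 0 := by linarith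
    rw [mul_rpow (hv i hi) (hg i hi), mul_rpow (hv i hi) (rpow_nonneg (hg i hi) _),
      ← rpow_mul (hg i hi)]
    have e2 : v i ^ ((s - 2) / (s - 1)) * v i ^ (1 / (s - 1)) = v i := by
      rw [← rpow_add' (hv i hi)]
      · have : (s - 2) / (s - 1) + 1 / (s - 1) = 1 := by field_simp; ring
        rw [this, rpow_one]
      · have : (s - 2) / (s - 1) + 1 / (s - 1) = 1 := by field_simp; ring
        rw [this]
        norm_num
    have e3 : g i ^ ((s - 2) / (s - 1)) * g i ^ (s * (1 / (s - 1))) = g i ^ 2 := by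
      rw [← rpow_add' (hg i hi)]
      · have : (s - 2) / (s - 1) + s * (1 / (s - 1)) = 2 := by field_simp; ring
        rw [this, rpow_two]
      · have : (s - 2) / (s - 1) + s * (1 / (s - 1)) = 2 := by field_simp; ring
        rw [this]
        norm_num
    calc v i ^ ((s - 2) / (s - 1)) * g i ^ ((s - 2) / (s - 1))
          * (v i ^ (1 / (s - 1)) * g i ^ (s * (1 / (s - 1))))
        = (v i ^ ((s - 2) / (s - 1)) * v i ^ (1 / (s - 1)))
          * (g i ^ ((s - 2) / (s - 1)) * g i ^ (s * (1 / (s - 1)))) := by ring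
      _ = v i * g i ^ 2 := by rw [e2, e3]
  rw [sum_congr rfl e1] at h
  refine h.trans (le_of_eq ?_)
  have h1 : s - 1 ≠ 0 := by linarith
  have h2 : s - 2 ≠ 0 := by linarith
  congr 1
  · congr 1
    · refine sum_congr rfl fun i hi => ?_
      rw [← rpow_mul (mul_nonneg (hv i hi) (hg i hi))]
      have : (s - 2) / (s - 1) * ((s - 1) / (s - 2)) = 1 := by field_simp
      rw [this, rpow_one]
    · field_simp
  · congr 1
    refine sum_congr rfl fun i hi => ?_
    rw [← rpow_mul (mul_nonneg (hv i hi) (rpow_nonneg (hg i hi) _))]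
    have : 1 / (s - 1) * (s - 1) = 1 := by field_simp
    rw [this, rpow_one]

/-- Cauchy-Schwarz with the mass of the support. -/
lemma cs_support {ι : Type*} (A : Finset ι) (v g : ι → ℝ) (hv : ∀ i ∈ A, 0 ≤ v i)
    (hg : ∀ i ∈ A, 0 ≤ g i) :
    (∑ i ∈ A, v i * g i) ^ 2
      ≤ (∑ i ∈ A with 0 < g i, v i) * ∑ i ∈ A, v i * g i ^ 2 := by
  have e1 : ∑ i ∈ A, v i * g i = ∑ i ∈ A with 0 < g i, v i * g i := by
    rw [sum_filter]
    refine sum_congr rfl fun i hi => ?_
    split_ifs with h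
    · rfl
    · have : g i = 0 := le_antisymm (not_lt.mp h) (hg i hi)
      rw [this, mul_zero]
  have e2 : ∑ i ∈ A, v i * g i ^ 2 = ∑ i ∈ A with 0 < g i, v i * g i ^ 2 := by
    rw [sum_filter]
    refine sum_congr rfl fun i hi => ?_
    split_ifs with h
    · rfl
    · have : g i = 0 := le_antisymm (not_lt.mp h) (hg i hi)
      rw [this]
      ring
  rw [e1, e2]
  refine sum_sq_le_sum_mul_sum_of_sq_le_mul _ (fun i hi => hv i (mem_filter.mp hi).1)
    (fun i hi => mul_nonneg (hv i (mem_filter.mp hi).1) (sq_nonneg _)) (fun i hi => le_of_eq (by ring))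

/-- LEMMA T': the `s`-norm against the second moment and the mass of the support, `s ≥ 2`. -/
theorem lemT' {ι : Type*} (A : Finset ι) (v g : ι → ℝ) (hv : ∀ i ∈ A, 0 ≤ v i)
    (hg : ∀ i ∈ A, 0 ≤ g i) {s m : ℝ} (hs : 2 ≤ s)
    (hm : m = ∑ i ∈ A with 0 < g i, v i) (hm2 : m ≤ 2) :
    ∑ i ∈ A, v i * g i ^ 2
        + (∑ i ∈ A, v i * g i) ^ 2 / m * (m ^ (-((s - 2) / s)) - 1)
      ≤ (∑ i ∈ A, v i * g i ^ s) ^ (2 / s) := by
  have hs0 : (0 : ℝ) < s := by linarith
  have ha0 : 0 ≤ ∑ i ∈ A, v i * g i := sum_nonneg fun i hi => mul_nonneg (hv i hi) (hg i hi)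
  have hb0 : 0 ≤ ∑ i ∈ A, v i * g i ^ 2 :=
    sum_nonneg fun i hi => mul_nonneg (hv i hi) (sq_nonneg _)
  have he0 : 0 ≤ ∑ i ∈ A, v i * g i ^ s :=
    sum_nonneg fun i hi => mul_nonneg (hv i hi) (rpow_nonneg (hg i hi) _)
  have hm0 : 0 ≤ m := by
    rw [hm]
    exact sum_nonneg fun i hi => hv i (mem_filter.mp hi).1
  have hcs := cs_support A v g hv hg
  rw [← hm] at hcs
  rcases eq_or_lt_of_le hs with h2 | h2
  · -- `s = 2`
    subst h2
    have e : ∑ i ∈ A, v i * g i ^ (2 : ℝ) = ∑ i ∈ A, v i * g i ^ 2 :=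
      sum_congr rfl fun i _ => by rw [rpow_two]
    rw [e]
    norm_num
  have hint := interp_above A v g hv hg h2
  set a := ∑ i ∈ A, v i * g i with ha
  set b := ∑ i ∈ A, v i * g i ^ 2 with hb
  set e := ∑ i ∈ A, v i * g i ^ s with he
  set d := (s - 2) / s with hd
  have hd0 : 0 < d := by
    rw [hd]
    exact div_pos (by linarith) hs0
  have hd1 : d < 1 := by
    rw [hd, div_lt_one hs0]
    linarith
  have h2s : 2 / s = 1 - d := by
    rw [hd]
    field_simp
    ring
  rcases eq_or_lt_of_le ha0 with hz | hapos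
  · -- `a = 0`: everything vanishes
    have hb' : b ≤ 0 := by
      rw [← hz] at hint
      rw [zero_rpow (by
        have h1 : 0 < s - 1 := by linarith
        have h3 : 0 < s - 2 := by linarith
        exact (div_pos h3 h1).ne'), zero_mul] at hint
      exact hint
    rw [← hz]
    have : b = 0 := le_antisymm hb' hb0
    rw [this]
    simp only [ne_eq, OfNat.ofNat_ne_zero, not_false_eq_true, zero_pow, zero_div, zero_mul,
      add_zero]
    exact rpow_nonneg he0 _
  have hmpos : 0 < m := by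
    rcases eq_or_lt_of_le hm0 with h | h
    · exfalso
      rw [← h, zero_mul] at hcs
      have : 0 < a ^ 2 := by positivity
      linarith
    · exact h
  have hbpos : 0 < b := by
    rcases eq_or_lt_of_le hb0 with h | h
    · exfalso
      rw [← h, mul_zero] at hcs
      have : 0 < a ^ 2 := by positivity
      linarith
    · exact h
  -- the moment inequality in the form `b ^ (1 + d) ≤ a ^ (2 d) e ^ (1 - d)`
  have h1s : (0 : ℝ) < s - 1 := by linarith
  have hkey : b ^ (1 + d) ≤ a ^ (2 * d) * e ^ (1 - d) := by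
    have h := rpow_le_rpow hb0 hint (by linarith : 0 ≤ 1 + d)
    rw [mul_rpow (rpow_nonneg ha0 _) (rpow_nonneg he0 _), ← rpow_mul ha0, ← rpow_mul he0] at h
    have e1 : (s - 2) / (s - 1) * (1 + d) = 2 * d := by
      rw [hd]
      field_simp
      ring
    have e2 : 1 / (s - 1) * (1 + d) = 1 - d := by
      rw [hd]
      field_simp
      ring
    rw [e1, e2] at h
    exact h
  rw [h2s]
  have haD : 0 < a ^ (2 * d) := rpow_pos_of_pos hapos _
  have hy : a ^ 2 ≤ m * b := hcs
  set y := m * b / a ^ 2 with hydef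
  have ha2 : 0 < a ^ 2 := by positivity
  have hy1 : 1 ≤ y := by
    rw [hydef, le_div_iff₀ ha2, one_mul]
    exact hy
  have hbern : 1 + (1 + d) * (y - 1) ≤ y ^ (1 + d) := by
    have h := one_add_mul_self_le_rpow_one_add (s := y - 1) (by linarith : (-1 : ℝ) ≤ y - 1)
      (by linarith : (1 : ℝ) ≤ 1 + d)
    rw [show 1 + (y - 1) = y by ring] at h
    exact h
  have hmd : 1 ≤ (1 + d) * m ^ (-d) := by
    have h1 : m ^ d ≤ 2 ^ d := rpow_le_rpow hm0 hm2 hd0.le
    have h3 := two_rpow_le_one_add hd0.le hd1.le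
    have h4 : 0 < m ^ d := rpow_pos_of_pos hmpos _
    rw [rpow_neg hm0, ← div_eq_mul_inv, le_div_iff₀ h4]
    linarith
  have hmn : 0 < m ^ (-d) := rpow_pos_of_pos hmpos _
  have hmain : y - 1 ≤ m ^ (-d) * (y ^ (1 + d) - 1) := by
    have h5 : m ^ (-d) * ((1 + d) * (y - 1)) ≤ m ^ (-d) * (y ^ (1 + d) - 1) :=
      mul_le_mul_of_nonneg_left (by linarith) hmn.le
    have h6 : 1 * (y - 1) ≤ ((1 + d) * m ^ (-d)) * (y - 1) :=
      mul_le_mul_of_nonneg_right hmd (by linarith)
    nlinarith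
  -- express everything in `y`
  have hb_eq : b = a ^ 2 / m * y := by
    rw [hydef]
    field_simp
  have hpow : b ^ (1 + d) = a ^ (2 * d) * (a ^ 2 / m * (m ^ (-d) * y ^ (1 + d))) := by
    rw [hb_eq, mul_rpow (by positivity) (by linarith), div_rpow ha2.le hm0,
      ← rpow_natCast a 2, ← rpow_mul ha0]
    rw [show ((2 : ℕ) : ℝ) * (1 + d) = 2 * d + ((2 : ℕ) : ℝ) by push_cast; ring,
      rpow_add hapos, rpow_add hmpos, rpow_one, rpow_neg hm0]
    field_simp
  have hfin : a ^ 2 / m * (m ^ (-d) * y ^ (1 + d)) ≤ e ^ (1 - d) := by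
    rw [hpow] at hkey
    exact le_of_mul_le_mul_left hkey haD
  refine le_trans ?_ hfin
  have h7 : 0 ≤ a ^ 2 / m := by positivity
  have h8 := mul_le_mul_of_nonneg_left hmain h7
  rw [hb_eq]
  nlinarith
end Pool.Agent.RH
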