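import Mathlib
import Pool.Agent.Lib.RH.TS
import Pool.Agent.Lib.RH.Defs

/-!
# Rank hypercontractivity: row A2
-/

set_option autoImplicit false

namespace Pool.Agent.MP_ec946a.RH

theorem lemT' : LemT' :=
  fun _ A v g _ hs hv hg _ hm hm2 => Pool.Agent.RH.lemT' A v g hv hg hs hm hm2

end Pool.Agent.MP_ec946a.RH
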