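import Mathlib
import Pool.Agent.Lib.RH.Defs

/-!
# The inequalities for four masses
-/

set_option autoImplicit false

namespace Pool.Agent.MP_ec946a.RH

namespace J

lemma quad {c X P Q κ : ℝ} (h0 : 0 ≤ c) (h1 : c ≤ 1) (hX : 0 ≤ X) (hQ : Q ^ 2 ≤ X * (1 - c))
    (hκ : 1 / 2 ≤ κ) : c * P ^ 2 ≤ (1 + c) * (c * X + κ * (P - Q) ^ 2) := by
  rcases eq_or_lt_of_le h1 with h | h
  · subst h
    have hQ0 : Q = 0 := by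
      have : Q ^ 2 ≤ 0 := by simpa using hQ
      exact pow_eq_zero_iff two_ne_zero |>.mp (le_antisymm this (sq_nonneg _))
    subst hQ0
    nlinarith [mul_le_mul_of_nonneg_right hκ (sq_nonneg P)]
  · have h2 : 0 < 1 - c := by linarith
    refine le_of_mul_le_mul_left ?_ h2
    have e1 : (1 + c) * c * Q ^ 2 ≤ (1 + c) * c * (X * (1 - c)) :=
      mul_le_mul_of_nonneg_left hQ (mul_nonneg (by linarith) h0)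
    have e2 : (1 - c) * (1 + c) * (1 / 2) * (P - Q) ^ 2 ≤ (1 - c) * (1 + c) * κ * (P - Q) ^ 2 :=
      mul_le_mul_of_nonneg_right (mul_le_mul_of_nonneg_left hκ
        (mul_nonneg h2.le (by linarith))) (sq_nonneg _)
    nlinarith [sq_nonneg ((1 - c) * P - (1 + c) * Q)]

/-- `a ^ 2 / m` and `a ^ 2` -/
lemma div_mul_self {a m : ℝ} (h : m = 0 → a = 0) : a ^ 2 / m * m = a ^ 2 := by
  rcases eq_or_ne m 0 with h0 | h0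
  · rw [h h0, h0]
    simp
  · field_simp

lemma cs {a₃ a₄ m₃ m₄ : ℝ} (h3 : 0 ≤ m₃) (h4 : 0 ≤ m₄) (z3 : m₃ = 0 → a₃ = 0)
    (z4 : m₄ = 0 → a₄ = 0) : (a₃ + a₄) ^ 2 ≤ (a₃ ^ 2 / m₃ + a₄ ^ 2 / m₄) * (m₃ + m₄) := by
  rcases eq_or_lt_of_le h3 with h | h
  · rw [← h, z3 h.symm]
    simp only [zero_add]
    rw [div_zero, zero_add, div_mul_self z4]
  rcases eq_or_lt_of_le h4 with h' | h'
  · rw [← h', z4 h'.symm]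
    simp only [add_zero]
    rw [div_zero, add_zero, div_mul_self z3]
  have h5 : 0 < m₃ + m₄ := by linarith
  rw [← sub_nonneg]
  have e : (a₃ ^ 2 / m₃ + a₄ ^ 2 / m₄) * (m₃ + m₄) - (a₃ + a₄) ^ 2
      = (a₃ * m₄ - a₄ * m₃) ^ 2 / (m₃ * m₄) := by
    field_simp
    ring
  rw [e]
  positivity

/-- the final step for both inequalities -/
lemma fin4 {m₁ m₃ m₄ a₁ a₂ a₃ a₄ δ κ t₁ t₂ t₃ t₄ : ℝ} (h1 : 1 ≤ m₁) (h3 : 0 ≤ m₃) (h4 : 0 ≤ m₄)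
    (p1 : 0 ≤ a₁) (p2 : 0 ≤ a₂) (z3 : m₃ = 0 → a₃ = 0) (z4 : m₄ = 0 → a₄ = 0)
    (hs : m₁ + m₃ + m₄ ≤ 2) (hδ : 0 ≤ δ) (hκ : 1 / 2 ≤ κ)
    (ht1 : -(a₁ ^ 2 / m₁ * (δ * (m₁ - 1))) ≤ t₁) (ht2 : 0 ≤ t₂)
    (ht3 : a₃ ^ 2 / m₃ * (δ * (m₁ - 1)) ≤ t₃) (ht4 : a₄ ^ 2 / m₄ * (δ * (m₁ - 1)) ≤ t₄) :
    0 ≤ t₁ + t₂ + t₃ + t₄ + δ * κ * (a₁ + a₂ - a₃ - a₄) ^ 2 := by
  have hX : 0 ≤ a₃ ^ 2 / m₃ + a₄ ^ 2 / m₄ := by positivity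
  have hQ : (a₃ + a₄) ^ 2 ≤ (a₃ ^ 2 / m₃ + a₄ ^ 2 / m₄) * (1 - (m₁ - 1)) :=
    (cs h3 h4 z3 z4).trans (mul_le_mul_of_nonneg_left (by linarith) hX)
  have hq := quad (c := m₁ - 1) (P := a₁ + a₂) (by linarith) (by linarith) hX hQ hκ
  have h5 : (m₁ - 1) * (a₁ ^ 2 / m₁)
      ≤ (m₁ - 1) * (a₃ ^ 2 / m₃ + a₄ ^ 2 / m₄) + κ * (a₁ + a₂ - (a₃ + a₄)) ^ 2 := by
    have h6 : (m₁ - 1) * a₁ ^ 2 ≤ (m₁ - 1) * (a₁ + a₂) ^ 2 :=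
      mul_le_mul_of_nonneg_left (pow_le_pow_left₀ p1 (by linarith) 2) (by linarith)
    have h7 : 0 < m₁ := by linarith
    rw [← mul_div_assoc, div_le_iff₀ h7]
    have e : 1 + (m₁ - 1) = m₁ := by ring
    rw [e] at hq
    linarith
  have h8 := mul_le_mul_of_nonneg_left h5 hδ
  have e2 : (a₁ + a₂ - a₃ - a₄) ^ 2 = (a₁ + a₂ - (a₃ + a₄)) ^ 2 := by ring
  rw [e2]
  linarith

lemma bern_up {m δ : ℝ} (hm : 0 ≤ m) (h0 : 0 ≤ δ) (h1 : δ ≤ 1) : m ^ δ ≤ 1 + δ * (m - 1) := by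
  have := rpow_one_add_le_one_add_mul_self (s := m - 1) (p := δ) (by linarith) h0 h1
  rwa [add_sub_cancel] at this

section one

/-- the case where the first mass is large -/
lemma mass_core {m₁ m₂ m₃ m₄ a₁ a₂ a₃ a₄ δ : ℝ} (h1 : 1 ≤ m₁) (h2 : 0 ≤ m₂) (h3 : 0 ≤ m₃)
    (h4 : 0 ≤ m₄) (p1 : 0 ≤ a₁) (p2 : 0 ≤ a₂) (z3 : m₃ = 0 → a₃ = 0) (z4 : m₄ = 0 → a₄ = 0)
    (hs : m₁ + m₂ + m₃ + m₄ ≤ 2) (h0 : 0 ≤ δ) (hδ : δ < 1) :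
    0 ≤ a₁ ^ 2 / m₁ * (1 - m₁ ^ δ) + a₂ ^ 2 / m₂ * (1 - m₂ ^ δ) + a₃ ^ 2 / m₃ * (1 - m₃ ^ δ)
      + a₄ ^ 2 / m₄ * (1 - m₄ ^ δ) + δ / (1 - δ) * (a₁ + a₂ - a₃ - a₄) ^ 2 := by
  have hd : 0 < 1 - δ := by linarith
  have e : δ / (1 - δ) = δ * (1 / (1 - δ)) := by ring
  rw [e]
  have hk : (1 : ℝ) / 2 ≤ 1 / (1 - δ) := one_div_le_one_div_of_le hd (by linarith)
  have hb : ∀ m : ℝ, 0 ≤ m → m ≤ 1 - (m₁ - 1) → m ^ δ ≤ 1 - δ * (m₁ - 1) := by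
    intro m hm hm'
    refine (bern_up hm h0 hδ.le).trans ?_
    nlinarith
  refine fin4 h1 h3 h4 p1 p2 z3 z4 (by linarith) h0 hk ?_ ?_ ?_ ?_
  · have h5 := bern_up (m := m₁) (by linarith) h0 hδ.le
    have h6 : 0 ≤ a₁ ^ 2 / m₁ := by positivity
    nlinarith [mul_le_mul_of_nonneg_left h5 h6]
  · have h5 := Real.rpow_le_one h2 (by linarith : m₂ ≤ 1) h0
    exact mul_nonneg (by positivity) (by linarith)
  · exact mul_le_mul_of_nonneg_left (by linarith [hb m₃ h3 (by linarith)]) (by positivity)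
  · exact mul_le_mul_of_nonneg_left (by linarith [hb m₄ h4 (by linarith)]) (by positivity)

theorem mass₀ : Mass := by
  intro m₁ m₂ m₃ m₄ a₁ a₂ a₃ a₄ δ h1 h2 h3 h4 p1 p2 p3 p4 z1 z2 z3 z4 hs h0 hδ
  by_cases c1 : 1 < m₁
  · exact mass_core c1.le h2 h3 h4 p1 p2 z3 z4 hs h0 hδ
  by_cases c2 : 1 < m₂
  · have := mass_core c2.le h1 h3 h4 p2 p1 z3 z4 (by linarith) h0 hδ
    have e : (a₁ + a₂ - a₃ - a₄) ^ 2 = (a₂ + a₁ - a₃ - a₄) ^ 2 := by ring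
    rw [e]
    linarith
  by_cases c3 : 1 < m₃
  · have := mass_core c3.le h4 h1 h2 p3 p4 z1 z2 (by linarith) h0 hδ
    have e : (a₁ + a₂ - a₃ - a₄) ^ 2 = (a₃ + a₄ - a₁ - a₂) ^ 2 := by ring
    rw [e]
    linarith
  by_cases c4 : 1 < m₄
  · have := mass_core c4.le h3 h1 h2 p4 p3 z1 z2 (by linarith) h0 hδ
    have e : (a₁ + a₂ - a₃ - a₄) ^ 2 = (a₄ + a₃ - a₁ - a₂) ^ 2 := by ring
    rw [e]
    linarith
  push Not at c1 c2 c3 c4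
  have t : ∀ m a : ℝ, 0 ≤ m → m ≤ 1 → 0 ≤ a ^ 2 / m * (1 - m ^ δ) := by
    intro m a hm hm'
    have := Real.rpow_le_one hm hm' h0
    exact mul_nonneg (by positivity) (by linarith)
  have hd : 0 < 1 - δ := by linarith
  have h5 : 0 ≤ δ / (1 - δ) * (a₁ + a₂ - a₃ - a₄) ^ 2 := by positivity
  linarith [t m₁ a₁ h1 c1, t m₂ a₂ h2 c2, t m₃ a₃ h3 c3, t m₄ a₄ h4 c4]

end one

section two

lemma neg_term {m a δ y : ℝ} (hm : 0 ≤ m) (z : m = 0 → a = 0) (hδ1 : δ ≤ 1) (h0 : 0 ≤ δ)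
    (hy : 0 ≤ y) (h : m ≤ 1 - y) : a ^ 2 / m * (δ * y) ≤ a ^ 2 / m * (m ^ (-δ) - 1) := by
  rcases eq_or_lt_of_le hm with h' | h'
  · rw [← h', z h'.symm]
    simp
  · refine mul_le_mul_of_nonneg_left ?_ (by positivity)
    have h1 : 0 < m ^ δ := Real.rpow_pos_of_pos h' _
    have h2 : m ^ δ ≤ 1 - δ * y := by
      refine (bern_up hm h0 hδ1).trans ?_
      nlinarith
    rw [Real.rpow_neg hm]
    have h3 : 1 + δ * y ≤ (m ^ δ)⁻¹ := by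
      rw [← one_div, le_div_iff₀ h1]
      have h4 : (1 + δ * y) * m ^ δ ≤ (1 + δ * y) * (1 - δ * y) :=
        mul_le_mul_of_nonneg_left h2 (by positivity)
      nlinarith [sq_nonneg (δ * y)]
    linarith

lemma mass_core' {m₁ m₂ m₃ m₄ a₁ a₂ a₃ a₄ δ : ℝ} (h1 : 1 ≤ m₁) (h2 : 0 ≤ m₂) (h3 : 0 ≤ m₃)
    (h4 : 0 ≤ m₄) (p1 : 0 ≤ a₁) (p2 : 0 ≤ a₂) (z2 : m₂ = 0 → a₂ = 0) (z3 : m₃ = 0 → a₃ = 0)
    (z4 : m₄ = 0 → a₄ = 0) (hs : m₁ + m₂ + m₃ + m₄ ≤ 2) (h0 : 0 ≤ δ) (hδ : δ ≤ 1) :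
    0 ≤ a₁ ^ 2 / m₁ * (m₁ ^ (-δ) - 1) + a₂ ^ 2 / m₂ * (m₂ ^ (-δ) - 1)
      + a₃ ^ 2 / m₃ * (m₃ ^ (-δ) - 1) + a₄ ^ 2 / m₄ * (m₄ ^ (-δ) - 1)
      + δ / (1 + δ) * (a₁ + a₂ - a₃ - a₄) ^ 2 := by
  have e : δ / (1 + δ) = δ * (1 / (1 + δ)) := by ring
  rw [e]
  have hk : (1 : ℝ) / 2 ≤ 1 / (1 + δ) := one_div_le_one_div_of_le (by linarith) (by linarith)
  refine fin4 h1 h3 h4 p1 p2 z3 z4 (by linarith) h0 hk ?_ ?_ ?_ ?_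
  · have h5 := bern_up (m := m₁) (by linarith) h0 hδ
    have h6 : 0 ≤ a₁ ^ 2 / m₁ := by positivity
    have h7 : 0 < m₁ ^ δ := Real.rpow_pos_of_pos (by linarith) _
    have h8 : 1 - δ * (m₁ - 1) ≤ m₁ ^ (-δ) := by
      rw [Real.rpow_neg (by linarith), ← one_div, le_div_iff₀ h7]
      by_cases hc : 0 ≤ 1 - δ * (m₁ - 1)
      · have := mul_le_mul_of_nonneg_left h5 hc
        nlinarith [sq_nonneg (δ * (m₁ - 1))]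
      · push Not at hc
        nlinarith
    nlinarith [mul_le_mul_of_nonneg_left h8 h6]
  · have := neg_term h2 z2 hδ h0 (le_refl (0 : ℝ)) (by linarith)
    simpa using this
  · exact neg_term h3 z3 hδ h0 (by linarith) (by linarith)
  · exact neg_term h4 z4 hδ h0 (by linarith) (by linarith)

theorem mass₀' : Mass' := by
  intro m₁ m₂ m₃ m₄ a₁ a₂ a₃ a₄ δ h1 h2 h3 h4 p1 p2 p3 p4 z1 z2 z3 z4 hs h0 hδ
  by_cases c1 : 1 < m₁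
  · exact mass_core' c1.le h2 h3 h4 p1 p2 z2 z3 z4 hs h0 hδ
  by_cases c2 : 1 < m₂
  · have := mass_core' c2.le h1 h3 h4 p2 p1 z1 z3 z4 (by linarith) h0 hδ
    have e : (a₁ + a₂ - a₃ - a₄) ^ 2 = (a₂ + a₁ - a₃ - a₄) ^ 2 := by ring
    rw [e]
    linarith
  by_cases c3 : 1 < m₃
  · have := mass_core' c3.le h4 h1 h2 p3 p4 z4 z1 z2 (by linarith) h0 hδ
    have e : (a₁ + a₂ - a₃ - a₄) ^ 2 = (a₃ + a₄ - a₁ - a₂) ^ 2 := by ring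
    rw [e]
    linarith
  by_cases c4 : 1 < m₄
  · have := mass_core' c4.le h3 h1 h2 p4 p3 z3 z1 z2 (by linarith) h0 hδ
    have e : (a₁ + a₂ - a₃ - a₄) ^ 2 = (a₄ + a₃ - a₁ - a₂) ^ 2 := by ring
    rw [e]
    linarith
  push Not at c1 c2 c3 c4
  have t : ∀ m a : ℝ, 0 ≤ m → m ≤ 1 → (m = 0 → a = 0) → 0 ≤ a ^ 2 / m * (m ^ (-δ) - 1) := by
    intro m a hm hm' hz
    have := neg_term hm hz hδ h0 (le_refl (0 : ℝ)) (by linarith)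
    simpa using this
  have h5 : 0 ≤ δ / (1 + δ) * (a₁ + a₂ - a₃ - a₄) ^ 2 := by positivity
  linarith [t m₁ a₁ h1 c1 z1, t m₂ a₂ h2 c2 z2, t m₃ a₃ h3 c3 z3, t m₄ a₄ h4 c4 z4]

end two

end J

theorem mass : Mass := J.mass₀

theorem mass' : Mass' := J.mass₀'

end Pool.Agent.MP_ec946a.RH
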