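import Mathlib
import Pool.Agent.Lib.RH.Ind
import Pool.Agent.Lib.RH.MassP
import Pool.Agent.Lib.RH.B
import Pool.Agent.Lib.RH.LemTQ
import Pool.Agent.Lib.RH.LemTs
import Pool.Agent.Lib.RH.Der
import Pool.Agent.Lib.RH.BilR

/-!
# Sharp rank hypercontractivity
-/

set_option autoImplicit false
set_option linter.unusedSectionVars false

namespace Pool.Agent.MP_ec946a.RH

open Finset Pool.Agent.MP_ec946a.SDP

section

variable {Ω D : Type} [Fintype Ω] [DecidableEq Ω] [Fintype D] [DecidableEq D] [AddCommGroup D]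

/-- sharp rank hypercontractivity -/
theorem rankHyp (ℓ : Ω → (D →+ ZMod 2)) (T : Finset Ω) {q s : ℝ} (hq : 3 / 2 ≤ q) (hq2 : q ≤ 2)
    (hs : s = 2 * q - 1) : RankHyp ℓ T q s :=
  ind (pq lemT mass) (ps lemT' mass') der1 der2 Ω D ℓ T q s hq hq2 hs

/-- the self dual case -/
theorem bilHyp (ℓ : Ω → (D →+ ZMod 2)) (T : Finset Ω) : BilHyp ℓ T (1 + 1 / √2) := by
  have h2 : (0 : ℝ) < √2 := by positivity
  have h3 : √2 * √2 = 2 := Real.mul_self_sqrt (by norm_num)
  have h1 : √2 ≤ 2 := by nlinarith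
  have h4 : 1 / √2 = √2 / 2 := by
    field_simp
    linarith
  have h5 : 1 ≤ √2 := by nlinarith
  refine bil_of_rank ℓ T (s := 1 + √2) ?_ (rankHyp ℓ T ?_ ?_ ?_)
  · rw [Real.holderConjugate_iff]
    refine ⟨by linarith, ?_⟩
    rw [h4]
    field_simp
    nlinarith
  · rw [h4]
    linarith
  · rw [h4]
    linarith
  · rw [h4]
    ring

end

end Pool.Agent.MP_ec946a.RH
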