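import Mathlib
import Pool.Agent.Lib.RH.Game
import Pool.Agent.Lib.RH.Rank
import Pool.Agent.Lib.MP_ec946a_sda.NGame

/-!
# The hyperplane game on the nonzero vectors: the sharp bound for the value
-/

set_option autoImplicit false
set_option linter.unusedSectionVars false

namespace Pool.Agent.MP_ec946a.NG

open Finset Pool.Agent.MP_ec946a.SDP

lemma linN_ann {k : ℕ} (γ : NZ k) (e : W k) (h : ∀ w : NZ k, linN k w γ.1 = 0 → linN k w e = 0) :
    e = 0 ∨ e = γ.1 := by
  refine RH.lin_ann γ e fun w hw => ?_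
  by_cases h0 : w = 0
  · rw [h0, lin_zero_left]
  · exact h ⟨w, h0⟩ hw

lemma rvN_shift {k : ℕ} (γ : W k) (x : XN k) (d : W k) : rv γ (x + sh (linN k) d) = rv γ x := by
  unfold rv
  congr 1
  apply Quotient.sound
  exact (relVN k γ).symm ⟨d, fun w _ => rfl⟩

lemma sv_shift {k : ℕ} (γ : NZ k) (x : XN k) (d : W k) :
    sv γ.1 (x + sh (linN k) d) = sv γ.1 x + d
      ∨ sv γ.1 (x + sh (linN k) d) = sv γ.1 x + d + γ.1 := by
  have h := linN_ann γ (sv γ.1 x + d + sv γ.1 (x + sh (linN k) d)) (by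
    intro w hw
    have h1 := sv_spec γ.1 x hw
    have h2 := sv_spec γ.1 (x + sh (linN k) d) hw
    rw [rvN_shift, h1] at h2
    have h3 : x w + linN k w (sv γ.1 x)
        = x w + linN k w d + linN k w (sv γ.1 (x + sh (linN k) d)) := h2
    rw [map_add, map_add]
    have h4 : linN k w d + linN k w d = 0 := CharTwo.add_self_eq_zero _
    have h5 : linN k w (sv γ.1 (x + sh (linN k) d)) + linN k w (sv γ.1 (x + sh (linN k) d)) = 0 :=
      CharTwo.add_self_eq_zero _
    linear_combination h3 + h4 + h5)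
  rcases h with h | h
  · left
    have h1 := add_self_W (sv γ.1 (x + sh (linN k) d))
    exact (add_right_cancel (h.trans h1.symm)).symm
  · right
    have h1 := add_self_W (sv γ.1 (x + sh (linN k) d))
    calc sv γ.1 (x + sh (linN k) d)
        = (sv γ.1 x + d + (sv γ.1 x + d)) + sv γ.1 (x + sh (linN k) d) := by
          rw [add_self_W, zero_add]
      _ = (sv γ.1 x + d) + (sv γ.1 x + d + sv γ.1 (x + sh (linN k) d)) := by abel
      _ = _ := by rw [h]

theorem ngame_value_le {p : ℝ} (hp : 1 < p) (hp2 : p ≤ 2) (k : ℕ) (hk : 1 ≤ k)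
    (H : RH.BilHyp (linN k) ∅ p) :
    (ngame k hk).value ≤ (2 : ℝ) ^ (1 / p) * ((2 ^ k : ℕ) : ℝ) ^ (1 - 2 / p) := by
  unfold Game.value
  have hne : Nonempty (((ngame k hk).U → Fin (2 ^ k)) × ((ngame k hk).V → Fin (2 ^ k))) := by
    have : Nonempty (Fin (2 ^ k)) := ⟨lab k 0⟩
    infer_instance
  refine ciSup_le fun L => ?_
  obtain ⟨LU, LV⟩ := L
  let a : XN k → W k := pick LU
  let f : XN k → ℝ := fun x => if a x = 0 then 1 else 0
  have hp' : ∀ x d, a (x + sh (linN k) d) = a x + d := fun x d => pick_shift _ x d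
  let b : W k → XN k → W k := fun γ x =>
    if h : γ ≠ 0 then (lab k).symm (LV ⟨⟨γ, h⟩, Quotient.mk (relVN k γ) x⟩) + sv γ x else 0
  have hb : ∀ γ x u, b γ (merge (linN k) γ x u) = b γ x := by
    intro γ x u
    show (if h : γ ≠ 0 then (lab k).symm (LV ⟨⟨γ, h⟩,
      Quotient.mk (relVN k γ) (merge (linN k) γ x u)⟩) + sv γ (merge (linN k) γ x u) else 0) = _
    rw [mk_merge, sv_merge]
  have hbs : ∀ γ, γ ≠ 0 → ∀ x d, b γ (x + sh (linN k) d) = b γ x + d
      ∨ b γ (x + sh (linN k) d) = b γ x + d + γ := by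
    intro γ hγ x d
    have e1 : Quotient.mk (relVN k γ) (x + sh (linN k) d) = Quotient.mk (relVN k γ) x := by
      apply Quotient.sound
      exact (relVN k γ).symm ⟨d, fun w _ => rfl⟩
    have e2 : ∀ y, b γ y
        = (lab k).symm (LV ⟨⟨γ, hγ⟩, Quotient.mk (relVN k γ) y⟩) + sv γ y := by
      intro y
      show (if h : γ ≠ 0 then _ else _) = _
      rw [dif_pos hγ]
    rw [e2, e2, e1]
    rcases sv_shift ⟨γ, hγ⟩ x d with h | h
    · left
      have h' : sv γ (x + sh (linN k) d) = sv γ x + d := h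
      rw [h', add_assoc]
    · right
      have h' : sv γ (x + sh (linN k) d) = sv γ x + d + γ := h
      rw [h']
      abel
  have h1 := RH.guess (linN k) add_self_W hp hp2 H (f := f) hp' (fun x => rfl) b hb hbs
  have hcE : (Nat.card (ngame k hk).E : ℝ)
      = (Fintype.card (XN k) : ℝ) * ((Fintype.card (W k) : ℝ) - 1) := by
    show ((Nat.card (XN k × NZ k) : ℕ) : ℝ) = _
    rw [Nat.card_prod, Nat.card_eq_fintype_card, Nat.card_eq_fintype_card (α := NZ k),
      Fintype.card_subtype_compl, Fintype.card_subtype_eq, Nat.cast_mul,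
      Nat.cast_sub Fintype.card_pos, Nat.cast_one]
  have hE0 : (0 : ℝ) < (Nat.card (ngame k hk).E : ℝ) := by exact_mod_cast Nat.card_pos
  rw [div_le_iff₀ hE0, hcE]
  have h2 : (Nat.card ((ngame k hk).satisfied LU LV) : ℝ)
      ≤ ∑ γ ∈ univ.erase (0 : W k),
        ((univ.filter fun x => a x = b γ x ∨ a x = b γ x + γ).card : ℝ) := by
    have h3 : ∑ γ ∈ univ.erase (0 : W k),
        (univ.filter fun x => a x = b γ x ∨ a x = b γ x + γ).card
        = ((univ.erase (0 : W k)).sigma fun γ =>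
          univ.filter fun x => a x = b γ x ∨ a x = b γ x + γ).card := (card_sigma _ _).symm
    rw [← Nat.cast_sum, h3]
    have h4 : Nat.card ((ngame k hk).satisfied LU LV)
        ≤ Nat.card ((univ.erase (0 : W k)).sigma fun γ =>
          univ.filter fun x => a x = b γ x ∨ a x = b γ x + γ) := by
      refine Nat.card_le_card_of_injective
        (fun e => ⟨⟨e.1.2.1, e.1.1⟩, ?_⟩) ?_
      · rw [mem_sigma]
        refine ⟨mem_erase.mpr ⟨e.1.2.2, mem_univ _⟩, mem_filter.mpr ⟨mem_univ _, ?_⟩⟩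
        obtain ⟨⟨x, γ⟩, he⟩ := e
        show a x = b γ.1 x ∨ a x = b γ.1 x + γ.1
        have h5 : prj x γ (LU (Quotient.mk _ x)) = LV ⟨γ, Quotient.mk _ x⟩ := he
        have h6 : b γ.1 x = (lab k).symm (LV ⟨γ, Quotient.mk (relVN k γ.1) x⟩) + sv γ.1 x := by
          show (if h : γ.1 ≠ 0 then _ else _) = _
          rw [dif_pos γ.2]
        rw [prj_eq_iff] at h5
        rw [h6]
        have hadd : ∀ c s t d : W k, c = d + (s + t) → c + s = d + t := by
          intro c s t d h
          rw [h]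
          calc d + (s + t) + s = d + t + (s + s) := by abel
            _ = d + t := by rw [add_self_W, add_zero]
        rcases h5.2 with h7 | h7
        · left
          apply hadd
          rw [h7, Equiv.symm_apply_apply]
        · right
          have h8 : (lab k).symm (LU (Quotient.mk _ x))
              = (lab k).symm (LV ⟨γ, Quotient.mk (relVN k γ.1) x⟩) + γ.1
                + (su x + sv γ.1 x) := by
            rw [h7, Equiv.symm_apply_apply]
          have h9 := hadd _ _ _ _ h8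
          show (lab k).symm (LU (Quotient.mk _ x)) + su x = _
          rw [h9]
          abel
      · rintro ⟨⟨x, γ⟩, he⟩ ⟨⟨x', γ'⟩, he'⟩ h
        have h5 := congrArg Subtype.val h
        have h6 : γ.1 = γ'.1 := congrArg Sigma.fst h5
        have h7 : x = x' := by
          have := Sigma.mk.inj_iff.mp h5
          exact eq_of_heq this.2
        apply Subtype.ext
        exact Prod.ext h7 (Subtype.ext h6)
    have h8 : Nat.card ((univ.erase (0 : W k)).sigma fun γ =>
          univ.filter fun x => a x = b γ x ∨ a x = b γ x + γ)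
        = ((univ.erase (0 : W k)).sigma fun γ =>
          univ.filter fun x => a x = b γ x ∨ a x = b γ x + γ).card := Nat.card_eq_card_toFinset _ |>.trans (by simp)
    rw [h8] at h4
    exact_mod_cast h4
  refine h2.trans (h1.trans (le_of_eq ?_))
  rw [card_W]


lemma ncard_fibre {k : ℕ} (x : XN k) (γ : NZ k) (b : Fin (2 ^ k)) :
    Nat.card {a // prj x γ a = b} = 0 ∨ Nat.card {a // prj x γ a = b} = 2 := by
  rw [Nat.card_eq_fintype_card, Fintype.card_subtype, fibre_eq]
  split_ifs
  · right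
    exact card_pair (lab_ne x γ b)
  · left
    rfl

theorem ngame_sdp (k : ℕ) (hk : 1 ≤ k) :
    IsGreatest {r : ℝ | ∃ (n : ℕ) (σ : (ngame k hk).SDPSolution n), σ.obj = r} 1 :=
  isGreatest_one (G := ngame k hk) (vec0 k) (nperf k hk).x (nperf k hk).y norm_vec0
    (nperf k hk).sum_x (nperf k hk).orth (nperf k hk).surj
    fun e b => ((nperf k hk).marg e b).symm

/-- the gap of the basic relaxation with the sharp exponent, at second singular value one half -/
theorem ngap (k : ℕ) (hk : 1 ≤ k) : ∃ G : Game (2 ^ k),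
    (∀ e b, Nat.card {a // G.proj e a = b} = 0 ∨ Nat.card {a // G.proj e a = b} = 2) ∧
    IsGreatest {r : ℝ | ∃ (n : ℕ) (σ : G.SDPSolution n), σ.obj = r} 1 ∧
    G.Expands 1 (1 / 2) ∧
    G.value ≤ (2 : ℝ) ^ (2 - √2) * ((2 ^ k : ℕ) : ℝ) ^ (-(3 - 2 * √2) : ℝ) := by
  refine ⟨ngame k hk, fun e b => ncard_fibre e.1 e.2 b, ngame_sdp k hk,
    SDA.exp2_expands (ngame_exp2 k hk), ?_⟩
  have h2 : (√2) ^ 2 = (2 : ℝ) := Real.sq_sqrt (by norm_num)
  have h0 : (0 : ℝ) < √2 := Real.sqrt_pos.mpr (by norm_num)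
  have h1 : (1 : ℝ) ≤ √2 := by
    nlinarith
  have hp : (1 : ℝ) < 1 + 1 / √2 := by
    have : 0 < 1 / √2 := by positivity
    linarith
  have hp2 : 1 + 1 / √2 ≤ (2 : ℝ) := by
    have : 1 / √2 ≤ 1 := by
      rw [div_le_one h0]
      exact h1
    linarith
  have h := ngame_value_le hp hp2 k hk (RH.bilHyp (linN k) ∅)
  have e1 : 1 / (1 + 1 / √2) = 2 - √2 := by
    rw [div_eq_iff (by positivity)]
    field_simp
    nlinarith
  have e2 : 1 - 2 / (1 + 1 / √2) = -(3 - 2 * √2) := by
    have : 2 / (1 + 1 / √2) = 2 * (1 / (1 + 1 / √2)) := by ring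
    rw [this, e1]
    ring
  rw [e1, e2] at h
  exact h

end Pool.Agent.MP_ec946a.NG
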