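import Mathlib
import Pool.Agent.Lib.RH.Game
import Pool.Agent.Lib.RH.Rank

/-!
# Every alphabet size

A game whose projections have small images is padded by labels which can satisfy only a small
fraction of the edges.
-/

set_option autoImplicit false
set_option linter.unusedSectionVars false

namespace Pool.Agent.MP_ec946a.RH

open Finset Pool.Agent.MP_ec946a.SDP

namespace Pad

variable {q₀ q F : ℕ}

section proj

variable [NeZero F] (h : q₀ ≤ q) (p : Fin q₀ → Fin q₀) (φ : Fin F → Fin q)

/-- the padded projection: the old labels are projected as before, the label `q₀ + t` goes to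
`φ (t + j)` -/
noncomputable def pr (j : Fin F) (a : Fin q) : Fin q :=
  if ha : a.1 < q₀ then Fin.castLE h (p ⟨a.1, ha⟩)
  else φ (Fin.ofNat F (a.1 - q₀) + j)

lemma pr_old (j : Fin F) {a : Fin q} (ha : a.1 < q₀) :
    pr h p φ j a = Fin.castLE h (p ⟨a.1, ha⟩) := by
  unfold pr
  rw [dif_pos ha]

lemma pr_new (j : Fin F) {a : Fin q} (ha : ¬a.1 < q₀) :
    pr h p φ j a = φ (Fin.ofNat F (a.1 - q₀) + j) := by
  unfold pr
  rw [dif_neg ha]

lemma card_le (hF : q - q₀ ≤ F) (hφ : Function.Injective φ)
    (hd : ∀ t c, φ t ≠ Fin.castLE h (p c)) (hp : ∀ b, Nat.card {a // p a = b} ≤ 2) (j : Fin F)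
    (b : Fin q) : Nat.card {a // pr h p φ j a = b} ≤ 2 := by
  by_cases hb : ∃ t, φ t = b
  · obtain ⟨t, ht⟩ := hb
    have hsub : Subsingleton {a // pr h p φ j a = b} := by
      refine ⟨fun a a' => ?_⟩
      obtain ⟨a, ha⟩ := a
      obtain ⟨a', ha'⟩ := a'
      have hn : ∀ a : Fin q, pr h p φ j a = b → ¬a.1 < q₀ := by
        intro a ha hlt
        rw [pr_old h p φ j hlt] at ha
        exact hd t _ (ht.trans ha.symm)
      have h1 := hn a ha
      have h2 := hn a' ha'
      rw [pr_new h p φ j h1] at ha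
      rw [pr_new h p φ j h2] at ha'
      have h3 := add_right_cancel (hφ (ha.trans ha'.symm))
      have h4 := congrArg Fin.val h3
      rw [Fin.val_ofNat, Fin.val_ofNat, Nat.mod_eq_of_lt (by omega),
        Nat.mod_eq_of_lt (by omega)] at h4
      apply Subtype.ext
      apply Fin.ext
      show a.1 = a'.1
      omega
    have := Finite.card_le_one_iff_subsingleton.mpr hsub
    omega
  · push Not at hb
    by_cases hb0 : b.1 < q₀
    · refine le_trans (Nat.card_le_card_of_injective
        (fun a : {a // pr h p φ j a = b} => (⟨⟨a.1.1, ?_⟩, ?_⟩ : {a // p a = ⟨b.1, hb0⟩}))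
        ?_) (hp ⟨b.1, hb0⟩)
      · by_contra hlt
        have := a.2
        rw [pr_new h p φ j hlt] at this
        exact hb _ this
      · have hlt : a.1.1 < q₀ := by
          by_contra hlt
          have := a.2
          rw [pr_new h p φ j hlt] at this
          exact hb _ this
        have := a.2
        rw [pr_old h p φ j hlt] at this
        have h9 : (Fin.castLE h (p ⟨a.1.1, hlt⟩)).1 = b.1 := by rw [this]
        exact Fin.ext h9
      · intro a a' haa
        apply Subtype.ext
        apply Fin.ext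
        have := congrArg (fun x => x.1.1) haa
        exact this
    · have : IsEmpty {a // pr h p φ j a = b} := by
        refine ⟨fun a => ?_⟩
        obtain ⟨a, ha⟩ := a
        by_cases hlt : a.1 < q₀
        · rw [pr_old h p φ j hlt] at ha
          apply hb0
          rw [← ha]
          exact (p ⟨a.1, hlt⟩).2
        · rw [pr_new h p φ j hlt] at ha
          exact hb _ ha
      rw [Nat.card_of_isEmpty]
      omega

end proj

section game

variable [NeZero F] (h : q₀ ≤ q) (G : Game q₀) (φ : G.E → Fin F → Fin q)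
  (hF : q - q₀ ≤ F) (hφ : ∀ e, Function.Injective (φ e))
  (hd : ∀ e t c, φ e t ≠ Fin.castLE h (G.proj e c))

/-- the padded game -/
noncomputable def game : Game q where
  U := G.U
  V := G.V
  E := G.E × Fin F
  src := fun e => G.src e.1
  tgt := fun e => G.tgt e.1
  proj := fun e => pr h (G.proj e.1) (φ e.1) e.2
  two_to_one := fun e b => card_le h _ _ hF (hφ e.1) (hd e.1) (G.two_to_one e.1) e.2 b

/-- old labels are kept -/
noncomputable def down (hq : 0 < q₀) (a : Fin q) : Fin q₀ :=
  if ha : a.1 < q₀ then ⟨a.1, ha⟩ else ⟨0, hq⟩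

lemma value_le (hq : 0 < q₀) : (game h G φ hF hφ hd).value ≤ G.value + 1 / F := by
  have hF0 : (0 : ℝ) < F := by
    have : F ≠ 0 := NeZero.ne F
    positivity
  have hE0 : (0 : ℝ) < Nat.card G.E := by exact_mod_cast Nat.card_pos
  have hne : Nonempty (Fin q) := ⟨⟨0, by omega⟩⟩
  unfold Game.value
  have hne2 : Nonempty (((game h G φ hF hφ hd).U → Fin q)
      × ((game h G φ hF hφ hd).V → Fin q)) := ⟨(fun _ => hne.some, fun _ => hne.some)⟩
  refine ciSup_le fun L => ?_
  obtain ⟨LU, LV⟩ := L
  set LU' : G.U → Fin q₀ := fun u => down hq (LU u) with hLU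
  set LV' : G.V → Fin q₀ := fun v => down hq (LV v) with hLV
  have hcard : Nat.card ((game h G φ hF hφ hd).satisfied LU LV)
      ≤ Nat.card ((G.satisfied LU' LV' × Fin F) ⊕ G.E) := by
    classical
    refine Nat.card_le_card_of_injective (fun e =>
      if hlt : (LU (G.src e.1.1)).1 < q₀ then
        Sum.inl (⟨e.1.1, ?_⟩, e.1.2) else Sum.inr e.1.1) ?_
    · have h1 : pr h (G.proj e.1.1) (φ e.1.1) e.1.2 (LU (G.src e.1.1)) = LV (G.tgt e.1.1) := e.2
      rw [pr_old h _ _ _ hlt] at h1
      show G.proj e.1.1 (down hq (LU (G.src e.1.1))) = down hq (LV (G.tgt e.1.1))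
      unfold down
      rw [dif_pos hlt, ← h1]
      rw [dif_pos (by exact (G.proj e.1.1 _).2)]
      rfl
    · rintro ⟨⟨e, j⟩, he⟩ ⟨⟨e', j'⟩, he'⟩ hee
      dsimp only at hee
      have h1 : pr h (G.proj e) (φ e) j (LU (G.src e)) = LV (G.tgt e) := he
      have h2 : pr h (G.proj e') (φ e') j' (LU (G.src e')) = LV (G.tgt e') := he'
      by_cases c : (LU (G.src e)).1 < q₀ <;> by_cases c' : (LU (G.src e')).1 < q₀
      · rw [dif_pos c, dif_pos c'] at hee
        have h3 := Sum.inl.inj hee
        have h4 : e = e' := congrArg (fun x => x.1.1) h3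
        have h5 : j = j' := congrArg (fun x => x.2) h3
        subst h4
        subst h5
        rfl
      · rw [dif_pos c, dif_neg c'] at hee
        exact absurd hee (by simp)
      · rw [dif_neg c, dif_pos c'] at hee
        exact absurd hee (by simp)
      · rw [dif_neg c, dif_neg c'] at hee
        have h4 : e = e' := Sum.inr.inj hee
        subst h4
        rw [pr_new h _ _ _ c] at h1 h2
        have h5 := add_left_cancel (hφ e (h1.trans h2.symm))
        subst h5
        rfl
  have hc2 : Nat.card ((G.satisfied LU' LV' × Fin F) ⊕ G.E)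
      = Nat.card (G.satisfied LU' LV') * F + Nat.card G.E := by
    rw [Nat.card_sum, Nat.card_prod, Nat.card_eq_fintype_card (α := Fin F), Fintype.card_fin]
  have hcE : Nat.card (game h G φ hF hφ hd).E = Nat.card G.E * F := by
    show Nat.card (G.E × Fin F) = _
    rw [Nat.card_prod, Nat.card_eq_fintype_card (α := Fin F), Fintype.card_fin]
  have hbdd : BddAbove (Set.range fun L : (G.U → Fin q₀) × (G.V → Fin q₀) =>
      (Nat.card (G.satisfied L.1 L.2) : ℝ) / (Nat.card G.E : ℝ)) := Set.finite_range _ |>.bddAbove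
  have h6 : (Nat.card (G.satisfied LU' LV') : ℝ) / (Nat.card G.E : ℝ)
      ≤ ⨆ L : (G.U → Fin q₀) × (G.V → Fin q₀),
        (Nat.card (G.satisfied L.1 L.2) : ℝ) / (Nat.card G.E : ℝ) :=
    le_ciSup hbdd (LU', LV')
  refine le_trans ?_ (add_le_add_left h6 _)
  show (Nat.card ((game h G φ hF hφ hd).satisfied LU LV) : ℝ)
    / (Nat.card (game h G φ hF hφ hd).E : ℝ) ≤ _
  rw [hcE]
  have h7 : (Nat.card ((game h G φ hF hφ hd).satisfied LU LV) : ℝ)
      ≤ (Nat.card (G.satisfied LU' LV') : ℝ) * F + Nat.card G.E := by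
    have := hcard.trans_eq hc2
    exact_mod_cast this
  have h8 : (Nat.card (G.satisfied LU' LV') : ℝ) / (Nat.card G.E : ℝ) + 1 / F
      = ((Nat.card (G.satisfied LU' LV') : ℝ) * F + Nat.card G.E) / ((Nat.card G.E * F : ℕ) : ℝ) := by
    push_cast
    field_simp
  rw [h8]
  exact div_le_div_of_nonneg_right h7 (Nat.cast_nonneg _)

/-- extension of a family of vectors by zero -/
noncomputable def ext {n : ℕ} (x : Fin q₀ → EuclideanSpace ℝ (Fin n)) (a : Fin q) :
    EuclideanSpace ℝ (Fin n) := if ha : a.1 < q₀ then x ⟨a.1, ha⟩ else 0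

lemma ext_castLE {n : ℕ} (x : Fin q₀ → EuclideanSpace ℝ (Fin n)) (a : Fin q₀) :
    ext (q := q) x (Fin.castLE h a) = x a := by
  unfold ext
  rw [dif_pos (by exact a.2)]
  rfl

lemma sum_ext {M : Type} [AddCommMonoid M] (g : Fin q → M) (hg : ∀ a : Fin q, ¬a.1 < q₀ → g a = 0) :
    ∑ a, g a = ∑ a : Fin q₀, g (Fin.castLE h a) := by
  classical
  have h1 : ∑ a : Fin q₀, g (Fin.castLE h a) = ∑ a ∈ univ.map (Fin.castLEEmb h), g a := by
    rw [sum_map]
    rfl
  rw [h1]
  refine (sum_subset (subset_univ _) fun a _ ha => hg a fun hlt => ha ?_).symm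
  rw [mem_map]
  exact ⟨⟨a.1, hlt⟩, mem_univ _, Fin.ext rfl⟩

/-- the padded solution -/
noncomputable def sol {n : ℕ} (σ : G.SDPSolution n) :
    (game h G φ hF hφ hd).SDPSolution n where
  x₀ := σ.x₀
  x := fun u => ext (σ.x u)
  y := fun v => ext (σ.y v)
  norm_x₀ := σ.norm_x₀
  sum_x := by
    intro u
    rw [← σ.sum_x u, sum_ext h _ fun a ha => by unfold ext; rw [dif_neg ha]]
    exact sum_congr rfl fun a _ => ext_castLE h _ a
  sum_y := by
    intro v
    rw [← σ.sum_y v, sum_ext h _ fun a ha => by unfold ext; rw [dif_neg ha]]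
    exact sum_congr rfl fun a _ => ext_castLE h _ a
  orth_x := by
    intro u a a' haa
    unfold ext
    split_ifs with h1 h2
    · exact σ.orth_x u _ _ fun h3 => haa (Fin.ext (by simpa using congrArg Fin.val h3))
    · exact inner_zero_right _
    · exact inner_zero_left _
    · exact inner_zero_left _
  orth_y := by
    intro u a a' haa
    unfold ext
    split_ifs with h1 h2
    · exact σ.orth_y u _ _ fun h3 => haa (Fin.ext (by simpa using congrArg Fin.val h3))
    · exact inner_zero_right _
    · exact inner_zero_left _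
    · exact inner_zero_left _
  nonneg := by
    intro e a b
    unfold ext
    split_ifs with h1 h2
    · exact σ.nonneg e.1 _ _
    · rw [inner_zero_right]
    · rw [inner_zero_left]
    · rw [inner_zero_left]

lemma obj_sol {n : ℕ} (σ : G.SDPSolution n) : (sol h G φ hF hφ hd σ).obj = σ.obj := by
  have hF0 : (0 : ℝ) < F := by
    have : F ≠ 0 := NeZero.ne F
    positivity
  have hE0 : (0 : ℝ) < Nat.card G.E := by exact_mod_cast Nat.card_pos
  unfold Game.SDPSolution.obj
  have hcE : Nat.card (game h G φ hF hφ hd).E = Nat.card G.E * F := by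
    show Nat.card (G.E × Fin F) = _
    rw [Nat.card_prod, Nat.card_eq_fintype_card (α := Fin F), Fintype.card_fin]
  rw [hcE]
  have h1 : ∀ e : G.E × Fin F, ∑ a, inner ℝ (ext (σ.x (G.src e.1)) a)
      (ext (σ.y (G.tgt e.1)) (pr h (G.proj e.1) (φ e.1) e.2 a))
      = ∑ a, inner ℝ (σ.x (G.src e.1) a) (σ.y (G.tgt e.1) (G.proj e.1 a)) := by
    intro e
    rw [sum_ext h _ fun a ha => by
      unfold ext
      rw [dif_neg ha, inner_zero_left]]
    refine sum_congr rfl fun a _ => ?_
    rw [ext_castLE, pr_old h _ _ _ (by exact a.2)]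
    show inner ℝ _ (ext _ (Fin.castLE h (G.proj e.1 a))) = _
    rw [ext_castLE]
  have h2 : ∑ e : (game h G φ hF hφ hd).E, ∑ a, inner ℝ
      ((sol h G φ hF hφ hd σ).x ((game h G φ hF hφ hd).src e) a)
      ((sol h G φ hF hφ hd σ).y ((game h G φ hF hφ hd).tgt e)
        ((game h G φ hF hφ hd).proj e a))
      = ∑ e : G.E × Fin F, ∑ a, inner ℝ (σ.x (G.src e.1) a)
        (σ.y (G.tgt e.1) (G.proj e.1 a)) := sum_congr rfl fun e _ => h1 e
  rw [h2, Fintype.sum_prod_type]
  simp only [sum_const, card_univ, Fintype.card_fin, nsmul_eq_mul]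
  rw [← mul_sum]
  push_cast
  field_simp

end game

end Pad

end Pool.Agent.MP_ec946a.RH
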