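import Mathlib
import Pool.Agent.Lib.RH.Pad
import Pool.Agent.Lib.MP_ec946a_sda.Round

/-!
# Every alphabet size, second part
-/

set_option autoImplicit false
set_option linter.unusedSectionVars false

namespace Pool.Agent.MP_ec946a.RH

open Finset Pool.Agent.MP_ec946a.SDP

namespace Pad

variable {q₀ q F : ℕ}

lemma expands [NeZero F] (h : q₀ ≤ q) (G : Game q₀) (φ : G.E → Fin F → Fin q)
    (hF : q - q₀ ≤ F) (hφ : ∀ e, Function.Injective (φ e))
    (hd : ∀ e t c, φ e t ≠ Fin.castLE h (G.proj e c)) {m : ℕ} {σ : ℝ} (hG : G.Expands m σ) :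
    (game h G φ hF hφ hd).Expands m σ := by
  obtain ⟨ψ, hψ⟩ := hG
  refine ⟨ψ, fun f g hfg => ?_⟩
  have hF0 : (0 : ℝ) < F := by
    have : F ≠ 0 := NeZero.ne F
    positivity
  have hs : ∀ θ : G.E → ℝ, ∑ e : G.E × Fin F, θ e.1 = F * ∑ e, θ e := by
    intro θ
    rw [Fintype.sum_prod_type]
    simp only [sum_const, card_univ, Fintype.card_fin, nsmul_eq_mul]
    rw [← mul_sum]
  have h1 := hψ f g fun i => by
    have h2 : ∑ e : G.E × Fin F, f (G.src e.1) * ψ i (G.src e.1) = 0 := hfg i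
    rw [hs (fun e => f (G.src e) * ψ i (G.src e))] at h2
    exact (mul_eq_zero.mp h2).resolve_left hF0.ne'
  show ∑ e : G.E × Fin F, f (G.src e.1) * g (G.tgt e.1)
    ≤ σ * (√(∑ e : G.E × Fin F, f (G.src e.1) ^ 2) * √(∑ e : G.E × Fin F, g (G.tgt e.1) ^ 2))
  rw [hs (fun e => f (G.src e) * g (G.tgt e)), hs (fun e => f (G.src e) ^ 2),
    hs (fun e => g (G.tgt e) ^ 2), Real.sqrt_mul hF0.le, Real.sqrt_mul hF0.le]
  have h3 := mul_le_mul_of_nonneg_left h1 hF0.le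
  have h4 : √(F : ℝ) * √(F : ℝ) = F := Real.mul_self_sqrt hF0.le
  calc (F : ℝ) * ∑ e, f (G.src e) * g (G.tgt e)
      ≤ F * (σ * (√(∑ e, f (G.src e) ^ 2) * √(∑ e, g (G.tgt e) ^ 2))) := h3
    _ = σ * (√(F : ℝ) * √(∑ e, f (G.src e) ^ 2) * (√(F : ℝ) * √(∑ e, g (G.tgt e) ^ 2))) := by
      linear_combination -(σ * √(∑ e, f (G.src e) ^ 2) * √(∑ e, g (G.tgt e) ^ 2)) * h4

/-- fibres of size `0` or `2`: the image has half of the labels -/
lemma card_image {p : Fin q₀ → Fin q₀} (hp : ∀ b, Nat.card {a // p a = b} = 0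
    ∨ Nat.card {a // p a = b} = 2) : 2 * (univ.image p).card = q₀ := by
  have h1 := Finset.card_eq_sum_card_image p (univ : Finset (Fin q₀))
  rw [card_univ, Fintype.card_fin] at h1
  have h2 : ∀ b ∈ univ.image p, (univ.filter fun a => p a = b).card = 2 := by
    intro b hb
    obtain ⟨a, -, ha⟩ := mem_image.mp hb
    have h3 : Nat.card {a // p a = b} = (univ.filter fun a => p a = b).card := by
      rw [Nat.card_eq_fintype_card, Fintype.card_subtype]
    rcases hp b with h | h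
    · rw [h3, card_eq_zero] at h
      exact absurd (h ▸ mem_filter.mpr ⟨mem_univ a, ha⟩) (notMem_empty _)
    · rw [← h3, h]
  rw [sum_congr rfl h2, sum_const, smul_eq_mul] at h1
  omega

/-- padding of a game with fibres of size `0` or `2` -/
theorem exists_pad (hq : 0 < q₀) (h : q₀ ≤ q) (G : Game q₀)
    (hfib : ∀ e b, Nat.card {a // G.proj e a = b} = 0 ∨ Nat.card {a // G.proj e a = b} = 2)
    (hS : IsGreatest {r : ℝ | ∃ (n : ℕ) (σ : G.SDPSolution n), σ.obj = r} 1) :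
    ∃ G' : Game q, IsGreatest {r : ℝ | ∃ (n : ℕ) (σ : G'.SDPSolution n), σ.obj = r} 1 ∧
      (∀ m σ, G.Expands m σ → G'.Expands m σ) ∧ G'.value ≤ G.value + 2 / q := by
  obtain ⟨e₀⟩ := G.neE
  have heven : 2 * (univ.image (G.proj e₀)).card = q₀ := card_image (hfib e₀)
  set F : ℕ := q - q₀ / 2 with hFdef
  have hF0 : F ≠ 0 := by omega
  have : NeZero F := ⟨hF0⟩
  have hφ : ∀ e, ∃ φ : Fin F → Fin q, Function.Injective φ ∧
      ∀ t c, φ t ≠ Fin.castLE h (G.proj e c) := by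
    intro e
    set C : Finset (Fin q) := (univ.image (fun c => Fin.castLE h (G.proj e c)))ᶜ with hC
    have h1 : F ≤ C.card := by
      have h2 : (univ.image (fun c => Fin.castLE h (G.proj e c))).card ≤ q₀ / 2 := by
        have h3 : univ.image (fun c => Fin.castLE h (G.proj e c))
            = (univ.image (G.proj e)).image (Fin.castLE h) := by
          rw [image_image]
          rfl
        rw [h3]
        have h4 := card_image (hfib e)
        have h5 := card_image_le (s := univ.image (G.proj e)) (f := Fin.castLE h)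
        omega
      rw [hC, card_compl, Fintype.card_fin]
      omega
    obtain ⟨ι⟩ : Nonempty (Fin F ↪ C) := Function.Embedding.nonempty_of_card_le (by
      rw [Fintype.card_fin, Fintype.card_coe]
      exact h1)
    refine ⟨fun t => (ι t).1, fun t t' htt => ι.injective (Subtype.ext htt), fun t c htc => ?_⟩
    have h2 := mem_compl.mp (ι t).2
    exact h2 (mem_image.mpr ⟨c, mem_univ _, htc.symm⟩)
  choose φ hφi hφd using hφ
  have hF : q - q₀ ≤ F := by omega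
  refine ⟨game h G φ hF hφi hφd, ⟨?_, ?_⟩, fun m σ hm => expands h G φ hF hφi hφd hm, ?_⟩
  · obtain ⟨n, σ, hσ⟩ := hS.1
    exact ⟨n, sol h G φ hF hφi hφd σ, (obj_sol h G φ hF hφi hφd σ).trans hσ⟩
  · rintro r ⟨n, σ, rfl⟩
    exact obj_le_one σ
  · refine (value_le h G φ hF hφi hφd hq).trans ?_
    have h1 : (q : ℝ) / 2 ≤ F := by
      have h2 : q ≤ 2 * F := by omega
      have h3 : (q : ℝ) ≤ 2 * F := by exact_mod_cast h2
      linarith
    have hq0 : (0 : ℝ) < q := by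
      have : 0 < q := by omega
      exact_mod_cast this
    have h4 : 1 / (F : ℝ) ≤ 2 / q := by
      have := one_div_le_one_div_of_le (by positivity : (0 : ℝ) < (q : ℝ) / 2) h1
      rwa [one_div_div] at this
    linarith

end Pad

/-- every alphabet size, from powers of two -/
theorem every_of_pow {C : ℝ} (hC : 0 ≤ C)
    (hP : ∀ (k : ℕ), 1 ≤ k → ∃ G : Game (2 ^ k),
      (∀ e b, Nat.card {a // G.proj e a = b} = 0 ∨ Nat.card {a // G.proj e a = b} = 2) ∧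
      IsGreatest {r : ℝ | ∃ (n : ℕ) (σ : G.SDPSolution n), σ.obj = r} 1 ∧
      G.Expands 1 (1 / 2) ∧
      G.value ≤ C * ((2 ^ k : ℕ) : ℝ) ^ (-(3 - 2 * √2) : ℝ)) (q : ℕ) (hq : 2 ≤ q) :
    ∃ G : Game q, IsGreatest {r : ℝ | ∃ (n : ℕ) (σ : G.SDPSolution n), σ.obj = r} 1 ∧
      G.Expands 1 (1 / 2) ∧
      G.value ≤ (C * 2 ^ (3 - 2 * √2 : ℝ) + 2) * (q : ℝ) ^ (-(3 - 2 * √2) : ℝ) := by
  set k := Nat.log 2 q with hk
  have hk1 : 1 ≤ k := Nat.log_pos (by norm_num) hq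
  have hk2 : 2 ^ k ≤ q := Nat.pow_log_le_self 2 (by omega)
  have hk3 : q < 2 ^ (k + 1) := Nat.lt_pow_succ_log_self (by norm_num) q
  obtain ⟨G, h1, h2, h3, h4⟩ := hP k hk1
  obtain ⟨G', g1, g2, g3⟩ := Pad.exists_pad (by positivity) hk2 G h1 h2
  refine ⟨G', g1, g2 _ _ h3, g3.trans ?_⟩
  have hs1 : (1.4 : ℝ) < √2 := Real.lt_sqrt_of_sq_lt (by norm_num)
  have hs2 : √2 < (1.5 : ℝ) := (Real.sqrt_lt' (by norm_num)).mpr (by norm_num)
  have hq0 : (0 : ℝ) < q := by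
    have : 0 < q := by omega
    exact_mod_cast this
  have hq1 : (1 : ℝ) ≤ q := by
    have : 1 ≤ q := by omega
    exact_mod_cast this
  have h5 : (q : ℝ) / 2 ≤ ((2 ^ k : ℕ) : ℝ) := by
    have h6 : q ≤ 2 * 2 ^ k := by
      rw [pow_succ] at hk3
      omega
    have h7 : (q : ℝ) ≤ 2 * ((2 ^ k : ℕ) : ℝ) := by exact_mod_cast h6
    linarith
  have h6 : ((2 ^ k : ℕ) : ℝ) ^ (-(3 - 2 * √2) : ℝ)
      ≤ 2 ^ (3 - 2 * √2 : ℝ) * (q : ℝ) ^ (-(3 - 2 * √2) : ℝ) := by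
    have h7 := Real.rpow_le_rpow_of_nonpos (by positivity : (0 : ℝ) < (q : ℝ) / 2) h5
      (by linarith : (-(3 - 2 * √2) : ℝ) ≤ 0)
    refine h7.trans (le_of_eq ?_)
    rw [Real.div_rpow hq0.le (by norm_num), Real.rpow_neg (by norm_num : (0 : ℝ) ≤ 2)]
    field_simp
  have h7 : 2 / (q : ℝ) ≤ 2 * (q : ℝ) ^ (-(3 - 2 * √2) : ℝ) := by
    have h8 : (q : ℝ) ^ (-1 : ℝ) ≤ (q : ℝ) ^ (-(3 - 2 * √2) : ℝ) :=
      Real.rpow_le_rpow_of_exponent_le hq1 (by linarith)
    rw [Real.rpow_neg_one] at h8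
    have : 2 / (q : ℝ) = 2 * (q : ℝ)⁻¹ := by ring
    rw [this]
    linarith
  have h8 := mul_le_mul_of_nonneg_left h6 hC
  have h9 := h4.trans h8
  calc G.value + 2 / (q : ℝ)
      ≤ C * (2 ^ (3 - 2 * √2 : ℝ) * (q : ℝ) ^ (-(3 - 2 * √2) : ℝ))
        + 2 * (q : ℝ) ^ (-(3 - 2 * √2) : ℝ) := add_le_add h9 h7
    _ = _ := by ring

end Pool.Agent.MP_ec946a.RH
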