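import Mathlib
import Pool.Agent.Lib.RH.PadG
import Pool.Agent.Lib.RH.GameN

/-!
# The sharp gap for every alphabet size
-/

set_option autoImplicit false

namespace Pool.Agent.MP_ec946a.RH

/-- For every `q ≥ 1` there is a 2-to-1 game with `q` labels whose basic semidefinite relaxation
has value one, whose graph has at most one singular value above one half, and whose value is at
most `4 q ^ (-(3 - 2 √2))`. -/
theorem every_q (q : ℕ) (hq : 1 ≤ q) :
    ∃ G : Game q, IsGreatest {r : ℝ | ∃ (n : ℕ) (σ : G.SDPSolution n), σ.obj = r} 1 ∧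
      G.Expands 1 (1 / 2) ∧ G.value ≤ 4 * (q : ℝ) ^ (-(3 - 2 * √2) : ℝ) := by
  rcases eq_or_lt_of_le hq with h1 | h2
  · subst h1
    let G : Game 1 :=
      { U := Unit
        V := Unit
        E := Unit
        src := id
        tgt := id
        proj := fun _ a => a
        two_to_one := fun _ b => by
          rw [Nat.card_eq_fintype_card]
          exact (Fintype.card_subtype_le _).trans (by simp) }
    let σ : G.SDPSolution 1 :=
      { x₀ := EuclideanSpace.single 0 1
        x := fun _ _ => EuclideanSpace.single 0 1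
        y := fun _ _ => EuclideanSpace.single 0 1
        norm_x₀ := by simp
        sum_x := fun _ => by simp
        sum_y := fun _ => by simp
        orth_x := fun _ a a' h => absurd (Subsingleton.elim a a') h
        orth_y := fun _ a a' h => absurd (Subsingleton.elim a a') h
        nonneg := fun _ _ _ => real_inner_self_nonneg }
    refine ⟨G, ⟨⟨1, σ, ?_⟩, ?_⟩, ?_, ?_⟩
    · show (∑ e : Unit, ∑ a : Fin 1, inner ℝ (EuclideanSpace.single (0 : Fin 1) (1 : ℝ))
        (EuclideanSpace.single (0 : Fin 1) (1 : ℝ))) / (Nat.card Unit : ℝ) = 1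
      simp
    · rintro r ⟨n, σ, rfl⟩
      exact SDP.obj_le_one σ
    · refine ⟨fun _ _ => 1, fun f g hfg => ?_⟩
      have h3 : f () = 0 := by
        have := hfg 0
        simpa using this
      show ∑ e : Unit, f e * g e ≤ 1 / 2 * (√(∑ e : Unit, f e ^ 2) * √(∑ e : Unit, g e ^ 2))
      simp [h3]
    · have h4 : G.value ≤ 1 := by
        unfold Game.value
        have : Nonempty ((G.U → Fin 1) × (G.V → Fin 1)) := ⟨(fun _ => 0, fun _ => 0)⟩
        refine ciSup_le fun L => ?_
        have hE : (0 : ℝ) < Nat.card G.E := by exact_mod_cast Nat.card_pos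
        rw [div_le_one hE]
        exact_mod_cast Nat.card_le_card_of_injective _ Subtype.val_injective
      have h5 : ((1 : ℕ) : ℝ) ^ (-(3 - 2 * √2) : ℝ) = 1 := by
        rw [Nat.cast_one, Real.one_rpow]
      rw [h5]
      linarith
  · have hs1 : (4 / 3 : ℝ) ≤ √2 := Real.le_sqrt_of_sq_le (by norm_num)
    obtain ⟨G, g1, g2, g3⟩ := every_of_pow (C := (2 : ℝ) ^ (2 - √2)) (by positivity)
      (fun k hk => NG.ngap k hk) q h2
    refine ⟨G, g1, g2, g3.trans ?_⟩
    have h3 : (2 : ℝ) ^ (2 - √2) * 2 ^ (3 - 2 * √2 : ℝ) ≤ 2 := by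
      rw [← Real.rpow_add (by norm_num)]
      calc (2 : ℝ) ^ (2 - √2 + (3 - 2 * √2)) ≤ 2 ^ (1 : ℝ) :=
            Real.rpow_le_rpow_of_exponent_le (by norm_num) (by linarith)
        _ = 2 := Real.rpow_one 2
    have h4 : (0 : ℝ) ≤ (q : ℝ) ^ (-(3 - 2 * √2) : ℝ) := Real.rpow_nonneg (Nat.cast_nonneg _) _
    exact mul_le_mul_of_nonneg_right (by linarith) h4

end Pool.Agent.MP_ec946a.RH
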