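import Mathlib

/-!
# Gaussian estimates for the rounding of the basic semidefinite relaxation

`gs n` is the standard Gaussian measure on `ℝ^n`, `thr p = √(2 log (1/p))` the threshold of a
label of weight `p`.
-/

set_option autoImplicit false

namespace Pool.Agent.Lib.RH.Gauss

open MeasureTheory ProbabilityTheory Real

/-- the standard Gaussian measure -/
noncomputable abbrev gs (n : ℕ) : Measure (EuclideanSpace ℝ (Fin n)) :=
  stdGaussian (EuclideanSpace ℝ (Fin n))

/-- the threshold of a label of weight `p` -/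
noncomputable def thr (p : ℝ) : ℝ := √(2 * Real.log (1 / p))

lemma thr_nonneg (p : ℝ) : 0 ≤ thr p := Real.sqrt_nonneg _

lemma thr_sq {p : ℝ} (h0 : 0 < p) (h1 : p ≤ 1) : thr p ^ 2 = 2 * Real.log (1 / p) := by
  unfold thr
  rw [Real.sq_sqrt]
  have : 0 ≤ Real.log (1 / p) := Real.log_nonneg ((one_le_div h0).mpr h1)
  linarith

lemma thr_anti {p p' : ℝ} (h0 : 0 < p) (h1 : p ≤ p') : thr p' ≤ thr p := by
  unfold thr
  refine Real.sqrt_le_sqrt ?_
  have : Real.log (1 / p') ≤ Real.log (1 / p) :=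
    Real.log_le_log (by have := h0.trans_le h1; positivity) (one_div_le_one_div_of_le h0 h1)
  linarith

lemma exp_thr {p : ℝ} (h0 : 0 < p) (h1 : p ≤ 1) : Real.exp (-(thr p ^ 2) / 2) = p := by
  rw [thr_sq h0 h1]
  rw [show -(2 * Real.log (1 / p)) / 2 = Real.log p by rw [one_div, Real.log_inv]; ring]
  exact Real.exp_log h0

variable {n : ℕ}

lemma measurable_inner (v : EuclideanSpace ℝ (Fin n)) :
    Measurable (fun g : EuclideanSpace ℝ (Fin n) => (inner ℝ v g : ℝ)) := by
  fun_prop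

lemma measurableSet_ge (v : EuclideanSpace ℝ (Fin n)) (t : ℝ) :
    MeasurableSet {g : EuclideanSpace ℝ (Fin n) | t ≤ inner ℝ v g} :=
  measurableSet_le measurable_const (measurable_inner v)

lemma cov_inner (v z : EuclideanSpace ℝ (Fin n)) :
    covariance (fun g => (inner ℝ v g : ℝ)) (fun g => (inner ℝ z g : ℝ)) (gs n) = inner ℝ v z := by
  rw [← covarianceBilin_apply_eq_cov (IsGaussian.memLp_two_id), covarianceBilin_stdGaussian]
  rfl

lemma map_inner (v : EuclideanSpace ℝ (Fin n)) (hv : ‖v‖ = 1) :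
    (gs n).map (fun g => (inner ℝ v g : ℝ)) = gaussianReal 0 1 := by
  have h : HasGaussianLaw (fun g => (inner ℝ v g : ℝ)) (gs n) := by
    have := (IsGaussian.hasGaussianLaw_id (μ := gs n)).map_fun (innerSL ℝ v)
    simpa using this
  rw [h.map_eq_gaussianReal]
  have h1 : ∫ g, (inner ℝ v g : ℝ) ∂(gs n) = 0 := by
    have := integral_strongDual_stdGaussian (innerSL ℝ v)
    simpa using this
  have h2 : Var[fun g => (inner ℝ v g : ℝ); gs n] = 1 := by
    rw [← covariance_self (measurable_inner v).aemeasurable, cov_inner,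
      real_inner_self_eq_norm_sq, hv, one_pow]
  rw [h1, h2]
  simp

lemma real_ge (v : EuclideanSpace ℝ (Fin n)) (hv : ‖v‖ = 1) (t : ℝ) :
    (gs n).real {g | t ≤ inner ℝ v g} = (gaussianReal 0 1).real (Set.Ici t) := by
  rw [← map_inner v hv, map_measureReal_apply (measurable_inner v) measurableSet_Ici]
  rfl

/-- (G1) the upper bound for the tail -/
theorem tail_le (v : EuclideanSpace ℝ (Fin n)) (hv : ‖v‖ = 1) {t : ℝ} (ht : 0 ≤ t) :
    (gs n).real {g | t ≤ inner ℝ v g} ≤ Real.exp (-(t ^ 2) / 2) := by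
  rw [real_ge v hv]
  have h := measure_ge_le_exp_mul_mgf (μ := gaussianReal 0 1) (X := id) (t := t) t ht
    (by simpa using integrable_exp_mul_gaussianReal (μ := 0) (v := 1) t)
  rw [mgf_id_gaussianReal] at h
  have e : (gaussianReal 0 1).real {ω | t ≤ id ω} = (gaussianReal 0 1).real (Set.Ici t) := rfl
  rw [e] at h
  refine h.trans (le_of_eq ?_)
  rw [← Real.exp_add]
  congr 1
  simp
  ring

theorem tail (v : EuclideanSpace ℝ (Fin n)) (hv : ‖v‖ = 1) {p : ℝ} (h0 : 0 < p) (h1 : p ≤ 1) :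
    (gs n).real {g | thr p ≤ inner ℝ v g} ≤ p := by
  have := tail_le v hv (thr_nonneg p)
  rwa [exp_thr h0 h1] at this

/-- the lower bound for the tail -/
theorem le_tail (v : EuclideanSpace ℝ (Fin n)) (hv : ‖v‖ = 1) {s : ℝ} (hs : 0 ≤ s) :
    (1 / 12) * Real.exp (-(s ^ 2) / 2) / (1 + s) ≤ (gs n).real {g | s ≤ inner ℝ v g} := by
  rw [real_ge v hv]
  have hs1 : (0 : ℝ) < 1 + s := by linarith
  set δ : ℝ := 1 / (1 + s) with hδ
  have hδ0 : 0 < δ := by positivity
  have hδ1 : δ ≤ 1 := by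
    rw [hδ, div_le_one hs1]
    linarith
  have hsub : Set.Icc s (s + δ) ⊆ Set.Ici s := fun x hx => hx.1
  refine le_trans ?_ (measureReal_mono hsub)
  have e1 : (gaussianReal 0 1).real (Set.Icc s (s + δ))
      = ∫ x in Set.Icc s (s + δ), gaussianPDFReal 0 1 x := by
    rw [measureReal_def, gaussianReal_apply_eq_integral 0 one_ne_zero, ENNReal.toReal_ofReal]
    exact integral_nonneg fun x => gaussianPDFReal_nonneg _ _ _
  rw [e1]
  have h2 : ∫ _x in Set.Icc s (s + δ), gaussianPDFReal 0 1 (s + δ)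
      ≤ ∫ x in Set.Icc s (s + δ), gaussianPDFReal 0 1 x := by
    refine setIntegral_mono_on ?_ (integrable_gaussianPDFReal 0 1).integrableOn measurableSet_Icc ?_
    · exact integrableOn_const (by simp) 
    · intro x hx
      simp only [gaussianPDFReal_def]
      refine mul_le_mul_of_nonneg_left ?_ (by positivity)
      refine Real.exp_le_exp.mpr ?_
      have hx0 : 0 ≤ x := hs.trans hx.1
      have hxx : x ^ 2 ≤ (s + δ) ^ 2 := pow_le_pow_left₀ hx0 hx.2 2
      simp only [sub_zero, NNReal.coe_one, mul_one]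
      linarith
  refine le_trans ?_ h2
  rw [setIntegral_const]
  have e3 : volume.real (Set.Icc s (s + δ)) = δ := by
    rw [measureReal_def, Real.volume_Icc]
    rw [ENNReal.toReal_ofReal (by linarith)]
    ring
  rw [e3, smul_eq_mul, gaussianPDFReal_def]
  simp only [sub_zero, NNReal.coe_one, mul_one]
  have hsδ : s * δ ≤ 1 := by
    rw [hδ, mul_one_div, div_le_one hs1]
    linarith
  have h4 : (s + δ) ^ 2 ≤ s ^ 2 + 3 := by nlinarith
  have h5 : Real.exp (-(3 : ℝ) / 2) * Real.exp (-(s ^ 2) / 2) ≤ Real.exp (-(s + δ) ^ 2 / 2) := by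
    rw [← Real.exp_add]
    refine Real.exp_le_exp.mpr ?_
    linarith
  have h6 : (1 / 12 : ℝ) ≤ (√(2 * π))⁻¹ * Real.exp (-(3 : ℝ) / 2) := by
    have h61 : √(2 * π) ≤ 2.51 := by
      rw [Real.sqrt_le_left (by norm_num)]
      have := Real.pi_lt_d2
      norm_num at this ⊢
      linarith
    have h62 : Real.exp ((3 : ℝ) / 2) ≤ 4.7 := by
      have h621 : Real.exp ((3 : ℝ) / 2) ^ 2 = Real.exp 1 ^ 3 := by
        rw [← Real.exp_nat_mul, ← Real.exp_nat_mul]
        congr 1
        norm_num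
      have h622 := Real.exp_one_lt_d9
      have h623 : Real.exp 1 ^ 3 ≤ 2.72 ^ 3 := pow_le_pow_left₀ (Real.exp_pos _).le
        (by linarith) 3
      have h624 : Real.exp ((3 : ℝ) / 2) ^ 2 ≤ 4.7 ^ 2 := by
        rw [h621]
        refine h623.trans ?_
        norm_num
      exact (pow_le_pow_iff_left₀ (Real.exp_pos _).le (by norm_num) two_ne_zero).mp h624
    rw [show (-(3 : ℝ) / 2) = -(3 / 2) by ring, Real.exp_neg, ← mul_inv, one_div]
    refine inv_anti₀ (by positivity) ?_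
    calc √(2 * π) * Real.exp ((3 : ℝ) / 2) ≤ 2.51 * 4.7 := by
          refine mul_le_mul h61 h62 (Real.exp_pos _).le (by norm_num)
      _ ≤ 12 := by norm_num
  calc 1 / 12 * Real.exp (-(s ^ 2) / 2) / (1 + s)
      = δ * (1 / 12 * Real.exp (-(s ^ 2) / 2)) := by rw [hδ]; ring
    _ ≤ δ * ((√(2 * π))⁻¹ * Real.exp (-(3 : ℝ) / 2) * Real.exp (-(s ^ 2) / 2)) := by
        gcongr
    _ = δ * ((√(2 * π))⁻¹ * (Real.exp (-(3 : ℝ) / 2) * Real.exp (-(s ^ 2) / 2))) := by ring
    _ ≤ δ * ((√(2 * π))⁻¹ * Real.exp (-(s + δ) ^ 2 / 2)) := by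
        gcongr

/-- (G3) independence of orthogonal directions -/
theorem indep (v w z : EuclideanSpace ℝ (Fin n)) (hv : inner ℝ v z = (0 : ℝ))
    (hw : inner ℝ w z = (0 : ℝ)) (s t r : ℝ) :
    (gs n).real ({g | s ≤ inner ℝ v g ∧ t ≤ inner ℝ w g} ∩ {g | r ≤ inner ℝ z g})
      = (gs n).real {g | s ≤ inner ℝ v g ∧ t ≤ inner ℝ w g} *
        (gs n).real {g | r ≤ inner ℝ z g} := by
  let L : EuclideanSpace ℝ (Fin n) →L[ℝ] (EuclideanSpace ℝ (Fin 2) × ℝ) :=
    ((EuclideanSpace.equiv (Fin 2) ℝ).symm.toContinuousLinearMap.comp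
      (ContinuousLinearMap.pi ![innerSL ℝ v, innerSL ℝ w])).prod (innerSL ℝ z)
  have hL : HasGaussianLaw (fun g => L g) (gs n) :=
    (IsGaussian.hasGaussianLaw_id (μ := gs n)).map_fun L
  have hI : IndepFun (fun g => (L g).1) (fun g => (L g).2) (gs n) := by
    refine HasGaussianLaw.indepFun_of_covariance_inner (X := fun g => (L g).1)
      (Y := fun g => (L g).2) hL ?_
    intro x y
    have hin : ∀ a b : EuclideanSpace ℝ (Fin 2), (inner ℝ a b : ℝ) = a 0 * b 0 + a 1 * b 1 := by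
      intro a b
      rw [PiLp.inner_apply, Fin.sum_univ_two]
      simp
      ring
    have e1 : (fun g => (inner ℝ x (L g).1 : ℝ))
        = fun g => (inner ℝ (x 0 • v + x 1 • w) g : ℝ) := by
      funext g
      have h0 : (L g).1 0 = inner ℝ v g := rfl
      have h1 : (L g).1 1 = inner ℝ w g := rfl
      rw [hin, h0, h1, inner_add_left, real_inner_smul_left, real_inner_smul_left]
    have e2 : (fun g => (inner ℝ y (L g).2 : ℝ)) = fun g => (inner ℝ (y • z) g : ℝ) := by
      funext g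
      have h2 : (L g).2 = inner ℝ z g := rfl
      rw [h2, real_inner_smul_left]
      simp
      ring
    rw [e1, e2, cov_inner, real_inner_smul_right, inner_add_left, real_inner_smul_left,
      real_inner_smul_left, hv, hw]
    ring
  have h := hI.measure_inter_preimage_eq_mul {y | s ≤ y 0 ∧ t ≤ y 1} (Set.Ici r)
    ?_ measurableSet_Ici
  · have h' : (gs n) ({g | s ≤ inner ℝ v g ∧ t ≤ inner ℝ w g} ∩ {g | r ≤ inner ℝ z g})
        = (gs n) {g | s ≤ inner ℝ v g ∧ t ≤ inner ℝ w g} * (gs n) {g | r ≤ inner ℝ z g} := h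
    rw [measureReal_def, measureReal_def, measureReal_def, ← ENNReal.toReal_mul, ← h']
  · have m1 : Measurable fun y : EuclideanSpace ℝ (Fin 2) => y 0 := by fun_prop
    have m2 : Measurable fun y : EuclideanSpace ℝ (Fin 2) => y 1 := by fun_prop
    exact (measurableSet_le measurable_const m1).inter (measurableSet_le measurable_const m2)

lemma sqrt_two_bounds : (1.41 : ℝ) < √2 ∧ √2 < 1.42 := by
  constructor
  · rw [Real.lt_sqrt (by norm_num)]; norm_num
  · rw [Real.sqrt_lt' (by norm_num)]; norm_num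

/-- the exponent of the second factor -/
lemma ratio_le {ρ : ℝ} (h : 1 / √2 ≤ ρ) : (1 - ρ) / (1 + ρ) ≤ 3 - 2 * √2 := by
  obtain ⟨h1, h2⟩ := sqrt_two_bounds
  have h3 : √2 * √2 = 2 := Real.mul_self_sqrt (by norm_num)
  have hρ : √2 / 2 ≤ ρ := by
    have : 1 / √2 = √2 / 2 := by
      rw [div_eq_div_iff (by positivity) (by norm_num)]
      linarith
    rwa [this] at h
  have hρ0 : 0 < 1 + ρ := by linarith
  rw [div_le_iff₀ hρ0]
  nlinarith

/-- the lower bound for one direction, in terms of the weight -/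
lemma le_tail_thr (v : EuclideanSpace ℝ (Fin n)) (hv : ‖v‖ = 1) {p s κ : ℝ} (h0 : 0 < p)
    (h1 : p ≤ 1) (hs0 : 0 ≤ s) (hs : s ≤ thr p) (hκ : s ^ 2 ≤ κ * thr p ^ 2) :
    (1 / 12) * p ^ κ / (1 + thr p) ≤ (gs n).real {g | s ≤ inner ℝ v g} := by
  refine le_trans ?_ (le_tail v hv hs0)
  have ht : 0 ≤ thr p := thr_nonneg p
  have e : p ^ κ = Real.exp (-(κ * thr p ^ 2) / 2) := by
    rw [Real.rpow_def_of_pos h0, thr_sq h0 h1, one_div, Real.log_inv]
    congr 1
    ring
  rw [e]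
  gcongr

/-- (G2) the probability that both ends keep the label -/
theorem pair (v w : EuclideanSpace ℝ (Fin n)) (hv : ‖v‖ = 1) (hw : ‖w‖ = 1)
    (hρ : 1 / √2 ≤ (inner ℝ v w : ℝ)) {p t' : ℝ} (h0 : 0 < p) (h1 : p ≤ 1)
    (ht' : t' ≤ thr p) :
    (1 / 1000) * p ^ (4 - 2 * √2) / (1 + Real.log (1 / p))
      ≤ (gs n).real {g | thr p ≤ inner ℝ v g ∧ t' ≤ inner ℝ w g} := by
  obtain ⟨hs1, hs2⟩ := sqrt_two_bounds
  set ρ : ℝ := inner ℝ v w with hρdef
  set t : ℝ := thr p with ht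
  have ht0 : 0 ≤ t := thr_nonneg p
  have hρ0 : 0 < ρ := lt_of_lt_of_le (by positivity) hρ
  have hρ1 : ρ ≤ 1 := by
    have := real_inner_le_norm v w
    rw [hv, hw] at this
    linarith
  have hlog : 0 ≤ Real.log (1 / p) := Real.log_nonneg ((one_le_div h0).mpr h1)
  have ht2 : t ^ 2 = 2 * Real.log (1 / p) := thr_sq h0 h1
  set z' : EuclideanSpace ℝ (Fin n) := w - ρ • v with hz'
  have hvz : (inner ℝ v z' : ℝ) = 0 := by
    rw [hz', inner_sub_right, real_inner_smul_right, real_inner_self_eq_norm_sq, hv]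
    rw [← hρdef]
    ring
  have hnz : ‖z'‖ ^ 2 = 1 - ρ ^ 2 := by
    rw [← real_inner_self_eq_norm_sq, hz', inner_sub_left, inner_sub_right, inner_sub_right,
      real_inner_smul_left, real_inner_smul_left, real_inner_smul_right, real_inner_smul_right,
      real_inner_self_eq_norm_sq, real_inner_self_eq_norm_sq, hv, hw, real_inner_comm v w,
      ← hρdef]
    ring
  -- the second factor
  have hsec : (1 / 12) * p ^ (3 - 2 * √2) / (1 + t)
      ≤ (gs n).real {g | t * (1 - ρ) ≤ inner ℝ z' g} := by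
    by_cases hz0 : z' = 0
    · have hρe : ρ = 1 := by
        rw [hz0] at hnz
        simp at hnz
        nlinarith
      have huniv : {g : EuclideanSpace ℝ (Fin n) | t * (1 - ρ) ≤ inner ℝ z' g} = Set.univ := by
        ext g
        simp [hz0, hρe]
      rw [huniv, probReal_univ]
      have hp1 : p ^ (3 - 2 * √2) ≤ 1 := Real.rpow_le_one h0.le h1 (by linarith)
      rw [div_le_one (by linarith)]
      have : 0 ≤ p ^ (3 - 2 * √2) := Real.rpow_nonneg h0.le _
      linarith
    · have hz1 : 0 < ‖z'‖ := norm_pos_iff.mpr hz0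
      have hρlt : 0 < 1 - ρ := by
        have : 0 < 1 - ρ ^ 2 := by rw [← hnz]; positivity
        nlinarith
      set z : EuclideanSpace ℝ (Fin n) := (‖z'‖)⁻¹ • z' with hz
      have hzn : ‖z‖ = 1 := by
        rw [hz, norm_smul, norm_inv, norm_norm, inv_mul_cancel₀ hz1.ne']
      set s : ℝ := t * (1 - ρ) / ‖z'‖ with hs
      have hs0 : 0 ≤ s := by positivity
      have hset : {g : EuclideanSpace ℝ (Fin n) | t * (1 - ρ) ≤ inner ℝ z' g}
          = {g | s ≤ inner ℝ z g} := by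
        ext g
        simp only [Set.mem_ofPred_eq]
        rw [hz, real_inner_smul_left, hs, div_le_iff₀ hz1, mul_comm ((‖z'‖)⁻¹) _, mul_assoc,
          inv_mul_cancel₀ hz1.ne', mul_one]
      have hssq : s ^ 2 = ((1 - ρ) / (1 + ρ)) * t ^ 2 := by
        rw [hs, div_pow, hnz, mul_pow]
        have : (1 : ℝ) - ρ ^ 2 = (1 - ρ) * (1 + ρ) := by ring
        rw [this]
        field_simp
      have hsκ : s ^ 2 ≤ (3 - 2 * √2) * t ^ 2 := by
        rw [hssq]
        exact mul_le_mul_of_nonneg_right (ratio_le hρ) (sq_nonneg _)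
      have hst : s ≤ t := by
        refine abs_le_of_sq_le_sq' ?_ ht0 |>.2
        nlinarith [sq_nonneg t]
      rw [hset]
      exact le_tail_thr z hzn h0 h1 hs0 hst hsκ
  have hfirst : (1 / 12) * p / (1 + t) ≤ (gs n).real {g | t ≤ inner ℝ v g} := by
    have := le_tail_thr v hv (κ := 1) h0 h1 ht0 le_rfl (by rw [one_mul])
    rwa [Real.rpow_one] at this
  have hind := indep v v z' hvz hvz t t (t * (1 - ρ))
  have e1 : {g : EuclideanSpace ℝ (Fin n) | t ≤ inner ℝ v g ∧ t ≤ inner ℝ v g}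
      = {g | t ≤ inner ℝ v g} := by
    ext g
    simp
  rw [e1] at hind
  have hsub : {g : EuclideanSpace ℝ (Fin n) | t ≤ inner ℝ v g} ∩
      {g | t * (1 - ρ) ≤ inner ℝ z' g} ⊆ {g | t ≤ inner ℝ v g ∧ t' ≤ inner ℝ w g} := by
    rintro g ⟨hg1, hg2⟩
    simp only [Set.mem_ofPred_eq] at hg1 hg2 ⊢
    refine ⟨hg1, ht'.trans ?_⟩
    rw [hz', inner_sub_left, real_inner_smul_left] at hg2
    nlinarith
  refine le_trans ?_ (measureReal_mono hsub)
  rw [hind]
  have hA0 : 0 ≤ (1 / 12) * p / (1 + t) := by positivity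
  have hB0 : 0 ≤ (1 / 12) * p ^ (3 - 2 * √2) / (1 + t) := by positivity
  refine le_trans ?_ (mul_le_mul hfirst hsec hB0 (hA0.trans hfirst))
  have e2 : p ^ (4 - 2 * √2) = p * p ^ (3 - 2 * √2) := by
    rw [show (4 : ℝ) - 2 * √2 = 1 + (3 - 2 * √2) by ring, Real.rpow_add h0, Real.rpow_one]
  rw [e2]
  have hden : (1 + t) ^ 2 ≤ 4 * (1 + Real.log (1 / p)) := by
    nlinarith [sq_nonneg (t - 1)]
  have e3 : 1 / 12 * p / (1 + t) * (1 / 12 * p ^ (3 - 2 * √2) / (1 + t))
      = (1 / 144) * (p * p ^ (3 - 2 * √2)) / (1 + t) ^ 2 := by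
    field_simp
    ring
  rw [e3]
  have hP : 0 ≤ p * p ^ (3 - 2 * √2) := by positivity
  have hden1 : (1 / 1000 : ℝ) * (p * p ^ (3 - 2 * √2))
      ≤ (1 / 576) * (p * p ^ (3 - 2 * √2)) := mul_le_mul_of_nonneg_right (by norm_num) hP
  calc 1 / 1000 * (p * p ^ (3 - 2 * √2)) / (1 + Real.log (1 / p))
      ≤ (1 / 576) * (p * p ^ (3 - 2 * √2)) / (1 + Real.log (1 / p)) :=
        div_le_div_of_nonneg_right hden1 (by linarith)
    _ = (1 / 144) * (p * p ^ (3 - 2 * √2)) / (4 * (1 + Real.log (1 / p))) := by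
        field_simp
        ring
    _ ≤ (1 / 144) * (p * p ^ (3 - 2 * √2)) / (1 + t) ^ 2 :=
        div_le_div_of_nonneg_left (by positivity) (by positivity) hden

end Pool.Agent.Lib.RH.Gauss
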