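import Mathlib
import Pool.Agent.Lib.RH.Game
import Pool.Agent.Lib.MP_ec946a_sda.NGame

/-!
# The hyperplane game on the nonzero vectors

The same bound for the value as for the hyperplane game; the game on the nonzero vectors has
second singular value at most one half.
-/

set_option autoImplicit false
set_option linter.unusedSectionVars false

namespace Pool.Agent.MP_ec946a.RH

open Finset Pool.Agent.MP_ec946a.SDP Pool.Agent.MP_ec946a.NG

lemma rvN_shift {k : ℕ} (γ : W k) (x : XN k) (d : W k) :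
    NG.rv γ (x + sh (linN k) d) = NG.rv γ x := by
  unfold NG.rv
  congr 1
  apply Quotient.sound
  exact (relVN k γ).symm ⟨d, fun w _ => rfl⟩

lemma svN_shift {k : ℕ} (γ : NZ k) (x : XN k) (d : W k) :
    NG.sv γ.1 (x + sh (linN k) d) = NG.sv γ.1 x + d
      ∨ NG.sv γ.1 (x + sh (linN k) d) = NG.sv γ.1 x + d + γ.1 := by
  have h := lin_ann γ (NG.sv γ.1 x + d + NG.sv γ.1 (x + sh (linN k) d)) (by
    intro w hw
    by_cases hw0 : w = 0
    · rw [hw0, lin_zero_left]
    have h1 := NG.sv_spec γ.1 x (w := ⟨w, hw0⟩) hw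
    have h2 := NG.sv_spec γ.1 (x + sh (linN k) d) (w := ⟨w, hw0⟩) hw
    rw [rvN_shift, h1] at h2
    have h3 : x ⟨w, hw0⟩ + lin k w (NG.sv γ.1 x)
        = x ⟨w, hw0⟩ + lin k w d + lin k w (NG.sv γ.1 (x + sh (linN k) d)) := h2
    rw [map_add, map_add]
    have h4 : lin k w d + lin k w d = 0 := CharTwo.add_self_eq_zero _
    have h5 : lin k w (NG.sv γ.1 (x + sh (linN k) d))
        + lin k w (NG.sv γ.1 (x + sh (linN k) d)) = 0 := CharTwo.add_self_eq_zero _
    linear_combination h3 + h4 + h5)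
  rcases h with h | h
  · left
    have h1 := add_self_W (NG.sv γ.1 (x + sh (linN k) d))
    exact (add_right_cancel (h.trans h1.symm)).symm
  · right
    calc NG.sv γ.1 (x + sh (linN k) d)
        = (NG.sv γ.1 x + d + (NG.sv γ.1 x + d)) + NG.sv γ.1 (x + sh (linN k) d) := by
          rw [add_self_W, zero_add]
      _ = (NG.sv γ.1 x + d) + (NG.sv γ.1 x + d + NG.sv γ.1 (x + sh (linN k) d)) := by abel
      _ = _ := by rw [h]

theorem ngame_value_p {p : ℝ} (hp : 1 < p) (hp2 : p ≤ 2) (k : ℕ) (hk : 1 ≤ k)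
    (H : BilHyp (linN k) ∅ p) :
    (ngame k hk).value ≤ (2 : ℝ) ^ (1 / p) * ((2 ^ k : ℕ) : ℝ) ^ (1 - 2 / p) := by
  unfold Game.value
  have hne : Nonempty (((ngame k hk).U → Fin (2 ^ k)) × ((ngame k hk).V → Fin (2 ^ k))) := by
    have : Nonempty (Fin (2 ^ k)) := ⟨lab k 0⟩
    infer_instance
  refine ciSup_le fun L => ?_
  obtain ⟨LU, LV⟩ := L
  let a : XN k → W k := NG.pick LU
  let f : XN k → ℝ := fun x => if a x = 0 then 1 else 0
  have hp' : ∀ x d, a (x + sh (linN k) d) = a x + d := fun x d => NG.pick_shift _ x d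
  let b : W k → XN k → W k := fun γ x =>
    if h : γ ≠ 0 then (lab k).symm (LV ⟨⟨γ, h⟩, Quotient.mk (relVN k γ) x⟩) + NG.sv γ x else 0
  have hb : ∀ γ x u, b γ (merge (linN k) γ x u) = b γ x := by
    intro γ x u
    show (if h : γ ≠ 0 then (lab k).symm (LV ⟨⟨γ, h⟩,
      Quotient.mk (relVN k γ) (merge (linN k) γ x u)⟩) + NG.sv γ (merge (linN k) γ x u) else 0) = _
    rw [NG.mk_merge, NG.sv_merge]
  have hbs : ∀ γ, γ ≠ 0 → ∀ x d, b γ (x + sh (linN k) d) = b γ x + d
      ∨ b γ (x + sh (linN k) d) = b γ x + d + γ := by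
    intro γ hγ x d
    have e1 : Quotient.mk (relVN k γ) (x + sh (linN k) d) = Quotient.mk (relVN k γ) x := by
      apply Quotient.sound
      exact (relVN k γ).symm ⟨d, fun w _ => rfl⟩
    have e2 : ∀ y, b γ y
        = (lab k).symm (LV ⟨⟨γ, hγ⟩, Quotient.mk (relVN k γ) y⟩) + NG.sv γ y := by
      intro y
      show (if h : γ ≠ 0 then _ else _) = _
      rw [dif_pos hγ]
    rw [e2, e2, e1]
    rcases svN_shift ⟨γ, hγ⟩ x d with h | h
    · left
      have h' : NG.sv γ (x + sh (linN k) d) = NG.sv γ x + d := h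
      rw [h', add_assoc]
    · right
      have h' : NG.sv γ (x + sh (linN k) d) = NG.sv γ x + d + γ := h
      rw [h']
      abel
  have h1 := guess (linN k) add_self_W hp hp2 H (f := f) hp' (fun x => rfl) b hb hbs
  have hcE : (Nat.card (ngame k hk).E : ℝ)
      = (Fintype.card (XN k) : ℝ) * ((Fintype.card (W k) : ℝ) - 1) := by
    show ((Nat.card (XN k × NZ k) : ℕ) : ℝ) = _
    rw [Nat.card_prod, Nat.card_eq_fintype_card, Nat.card_eq_fintype_card (α := NZ k),
      Fintype.card_subtype_compl, Fintype.card_subtype_eq, Nat.cast_mul,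
      Nat.cast_sub Fintype.card_pos, Nat.cast_one]
  have hE0 : (0 : ℝ) < (Nat.card (ngame k hk).E : ℝ) := by exact_mod_cast Nat.card_pos
  rw [div_le_iff₀ hE0, hcE]
  have h2 : (Nat.card ((ngame k hk).satisfied LU LV) : ℝ)
      ≤ ∑ γ ∈ univ.erase (0 : W k),
        ((univ.filter fun x => a x = b γ x ∨ a x = b γ x + γ).card : ℝ) := by
    have h3 : ∑ γ ∈ univ.erase (0 : W k),
        (univ.filter fun x => a x = b γ x ∨ a x = b γ x + γ).card
        = ((univ.erase (0 : W k)).sigma fun γ =>
          univ.filter fun x => a x = b γ x ∨ a x = b γ x + γ).card := (card_sigma _ _).symm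
    rw [← Nat.cast_sum, h3]
    have h4 : Nat.card ((ngame k hk).satisfied LU LV)
        ≤ Nat.card ((univ.erase (0 : W k)).sigma fun γ =>
          univ.filter fun x => a x = b γ x ∨ a x = b γ x + γ) := by
      refine Nat.card_le_card_of_injective
        (fun e => ⟨⟨e.1.2.1, e.1.1⟩, ?_⟩) ?_
      · rw [mem_sigma]
        refine ⟨mem_erase.mpr ⟨e.1.2.2, mem_univ _⟩, mem_filter.mpr ⟨mem_univ _, ?_⟩⟩
        obtain ⟨⟨x, γ⟩, he⟩ := e
        show a x = b γ.1 x ∨ a x = b γ.1 x + γ.1
        have h5 : NG.prj x γ (LU (Quotient.mk _ x)) = LV ⟨γ, Quotient.mk _ x⟩ := he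
        have h6 : b γ.1 x = (lab k).symm (LV ⟨γ, Quotient.mk (relVN k γ.1) x⟩) + NG.sv γ.1 x := by
          show (if h : γ.1 ≠ 0 then _ else _) = _
          rw [dif_pos γ.2]
        rw [NG.prj_eq_iff] at h5
        rw [h6]
        have hadd : ∀ c s t d : W k, c = d + (s + t) → c + s = d + t := by
          intro c s t d h
          rw [h]
          calc d + (s + t) + s = d + t + (s + s) := by abel
            _ = d + t := by rw [add_self_W, add_zero]
        rcases h5.2 with h7 | h7
        · left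
          apply hadd
          rw [h7, Equiv.symm_apply_apply]
        · right
          have h8 : (lab k).symm (LU (Quotient.mk _ x))
              = (lab k).symm (LV ⟨γ, Quotient.mk (relVN k γ.1) x⟩) + γ.1
                + (NG.su x + NG.sv γ.1 x) := by
            rw [h7, Equiv.symm_apply_apply]
          have h9 := hadd _ _ _ _ h8
          show (lab k).symm (LU (Quotient.mk _ x)) + NG.su x = _
          rw [h9]
          abel
      · rintro ⟨⟨x, γ⟩, he⟩ ⟨⟨x', γ'⟩, he'⟩ h
        have h5 := congrArg Subtype.val h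
        have h6 : γ.1 = γ'.1 := congrArg Sigma.fst h5
        have h7 : x = x' := by
          have := Sigma.mk.inj_iff.mp h5
          exact eq_of_heq this.2
        apply Subtype.ext
        exact Prod.ext h7 (Subtype.ext h6)
    have h8 : Nat.card ((univ.erase (0 : W k)).sigma fun γ =>
          univ.filter fun x => a x = b γ x ∨ a x = b γ x + γ)
        = ((univ.erase (0 : W k)).sigma fun γ =>
          univ.filter fun x => a x = b γ x ∨ a x = b γ x + γ).card := Nat.card_eq_card_toFinset _ |>.trans (by simp)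
    rw [h8] at h4
    exact_mod_cast h4
  refine h2.trans (h1.trans (le_of_eq ?_))
  rw [card_W]

end Pool.Agent.MP_ec946a.RH
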