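import Mathlib
import Pool.Agent.Lib.RH.Rank
import Pool.Agent.Lib.RH.NGame

/-!
# The games with the extremal integrality gap
-/

set_option autoImplicit false

namespace Pool.Agent.MP_ec946a.RH

open Finset Pool.Agent.MP_ec946a.SDP

lemma two_exponent : 1 / (1 + 1 / √2) = 2 - √2 := by
  have h : √2 * √2 = 2 := Real.mul_self_sqrt two_pos.le
  have h0 : 0 < √2 := Real.sqrt_pos.mpr two_pos
  have h1 : (0 : ℝ) < 1 + 1 / √2 := by positivity
  rw [div_eq_iff h1.ne']
  field_simp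
  nlinarith [h]

theorem tight (k : ℕ) (hk : 1 ≤ k) : ∃ G : Game (2 ^ k),
    (∀ e b, Nat.card {a // G.proj e a = b} = 0 ∨ Nat.card {a // G.proj e a = b} = 2) ∧
    G.Expands 1 (1 / 2) ∧
    (∃ (n : ℕ) (σ : G.SDPSolution n), σ.obj = 1) ∧
    G.value ≤ 2 ^ (2 - √2) * ((2 ^ k : ℕ) : ℝ) ^ (-(3 - 2 * √2)) := by
  refine ⟨NG.ngame k hk, ?_, SDA.exp2_expands (NG.ngame_exp2 k hk), ?_, ?_⟩
  · rintro ⟨x, γ⟩ b
    show Nat.card {a // NG.prj x γ a = b} = 0 ∨ Nat.card {a // NG.prj x γ a = b} = 2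
    rw [Nat.card_eq_fintype_card, Fintype.card_subtype, NG.fibre_eq]
    split_ifs
    · right
      exact card_pair (NG.lab_ne x γ b)
    · left
      rfl
  · have h := isGreatest_one (G := NG.ngame k hk) (vec0 k) (fun u => vecU (NG.ext0 u.out))
      (fun v => vecV v.1 (NG.ext0 v.2.out)) norm_vec0 (fun u => sum_vecU _)
      (fun u a a' h => inner_vecU _ h) (NG.nperf k hk).surj (by
        rintro ⟨x, γ⟩ b
        exact NG.vecV_eq x γ b)
    exact h.1
  · have h0 : 0 < √2 := Real.sqrt_pos.mpr two_pos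
    have h1 : 1 ≤ √2 := Real.one_le_sqrt.mpr one_le_two
    have h2 : (1 : ℝ) + 1 / √2 ≤ 2 := by
      have : 1 / √2 ≤ 1 := by
        rw [div_le_one h0]
        exact h1
      linarith
    have h := ngame_value_p (p := 1 + 1 / √2) (by
      have : 0 < 1 / √2 := by positivity
      linarith) h2 k hk (bilHyp (NG.linN k) ∅)
    rwa [exponent, two_exponent] at h

end Pool.Agent.MP_ec946a.RH
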