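import Mathlib
import Pool.Agent.Lib.RH.B
import Pool.Agent.Lib.RH.Defs2

/-!
# Rank hypercontractivity, row 1a: the second derivative inequality for two sets
-/

set_option autoImplicit false

namespace Pool.Agent.MP_ec946a.RH

open Finset

/-- All quantities of the second derivative in terms of weights of total mass two. -/
lemma expand2 {D : Type} {p : ℝ} (hp : 0 < p) {K : Finset D} (hne : K.Nonempty) {F H : D → ℝ}
    (hF : ∀ d ∈ K, 0 < F d) :
    ∃ (v gp gm : D → ℝ), (∀ d ∈ K, 0 < v d) ∧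
        (∀ d ∈ K, 0 ≤ gp d) ∧ (∀ d ∈ K, 0 ≤ gm d) ∧ (∀ d ∈ K, 0 < gp d ↔ 0 < H d) ∧
        (∀ d ∈ K, 0 < gm d ↔ H d < 0) ∧
        (2 ^ (2 / p) * th p K (fun d => max (H d) 0) = (∑ d ∈ K, v d * gp d ^ p) ^ (2 / p)) ∧
        (2 ^ (2 / p) * th p K (fun d => max (-H d) 0) = (∑ d ∈ K, v d * gm d ^ p) ^ (2 / p)) ∧
      (∑ d ∈ K, v d = 2) ∧
      dd p K F H =
        (p - 1) / 2 * (∑ d ∈ K, v d * gp d ^ 2 + ∑ d ∈ K, v d * gm d ^ 2)
        + (2 - p) / 4 * (∑ d ∈ K, v d * gp d - ∑ d ∈ K, v d * gm d) ^ 2 := by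
  have hN : (0 : ℝ) < K.card := by exact_mod_cast hne.card_pos
  obtain ⟨N, hNdef⟩ : ∃ N : ℝ, N = K.card := ⟨_, rfl⟩
  obtain ⟨M, hMdef⟩ : ∃ M : ℝ, M = mn K (fun d => F d ^ p) := ⟨_, rfl⟩
  have hN0 : 0 < N := by rw [hNdef]; exact hN
  have hN2 : 0 < N / 2 := by linarith
  have hsum : 0 < ∑ d ∈ K, F d ^ p :=
    sum_pos (fun d h => Real.rpow_pos_of_pos (hF d h) _) hne
  have hMe : M = (∑ d ∈ K, F d ^ p) / N := by rw [hMdef, mn, hNdef]
  have hM0 : 0 < M := by rw [hMe]; positivity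
  have hth : ∀ x : D → ℝ, (∀ d, 0 ≤ x d) →
      2 ^ (2 / p) * th p K x = (∑ d ∈ K, wt p (N / 2) M F d * sz p M F x d ^ p) ^ (2 / p) := by
    intro x hx
    have h1 : ∑ d ∈ K, wt p (N / 2) M F d * sz p M F x d ^ p = 2 * mn K (fun d => x d ^ p) := by
      unfold mn
      rw [← hNdef, sum_div, mul_sum]
      refine sum_congr rfl fun d h => ?_
      rw [wt_sz_pow hp hN2 hM0 (hF d h) (hx d)]
      field_simp
    have h2 : 0 ≤ mn K (fun d => x d ^ p) :=
      div_nonneg (sum_nonneg fun d _ => Real.rpow_nonneg (hx d) _) (Nat.cast_nonneg _)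
    rw [h1, Real.mul_rpow (by norm_num) h2, th]
  refine ⟨wt p (N / 2) M F, sz p M F (fun d => max (H d) 0), sz p M F (fun d => max (-H d) 0),
    fun d h => ?_, fun d h => ?_, fun d h => ?_, fun d h => ?_, fun d h => ?_,
    hth _ (fun d => le_max_right _ _), hth _ (fun d => le_max_right _ _), ?_, ?_⟩
  · have := Real.rpow_pos_of_pos (hF d h) p
    unfold wt; positivity
  · have := Real.rpow_pos_of_pos hM0 (1 / p)
    have := hF d h
    unfold sz; positivity
  · have := Real.rpow_pos_of_pos hM0 (1 / p)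
    have := hF d h
    unfold sz; positivity
  · have h1 := Real.rpow_pos_of_pos hM0 (1 / p)
    have h2 := hF d h
    unfold sz
    rw [div_pos_iff_of_pos_right h2, mul_pos_iff_of_pos_right h1, lt_max_iff]
    simp
  · have h1 := Real.rpow_pos_of_pos hM0 (1 / p)
    have h2 := hF d h
    unfold sz
    rw [div_pos_iff_of_pos_right h2, mul_pos_iff_of_pos_right h1, lt_max_iff]
    simp
  · simp only [wt]
    rw [← sum_div, hMe]
    field_simp
  · have hsq : ∀ x : ℝ, max x 0 ^ 2 + max (-x) 0 ^ 2 = x ^ 2 := by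
      intro x
      rcases le_total x 0 with h | h
      · rw [max_eq_right h, max_eq_left (by linarith)]; ring
      · rw [max_eq_left h, max_eq_right (by linarith)]; ring
    have hsub : ∀ x : ℝ, max x 0 - max (-x) 0 = x := by
      intro x
      rcases le_total x 0 with h | h
      · rw [max_eq_right h, max_eq_left (by linarith)]; ring
      · rw [max_eq_left h, max_eq_right (by linarith)]; ring
    have s2 : ∑ d ∈ K, wt p (N / 2) M F d * sz p M F (fun d => max (H d) 0) d ^ 2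
          + ∑ d ∈ K, wt p (N / 2) M F d * sz p M F (fun d => max (-H d) 0) d ^ 2
          = M ^ (2 / p - 1) / (N / 2) * ∑ d ∈ K, F d ^ (p - 2) * H d ^ 2 := by
      rw [← sum_add_distrib, mul_sum]
      refine sum_congr rfl fun d h => ?_
      rw [wt_sz_sq hp hN2 hM0 (hF d h), wt_sz_sq hp hN2 hM0 (hF d h), ← hsq (H d)]
      ring
    have s1 : ∑ d ∈ K, wt p (N / 2) M F d * sz p M F (fun d => max (H d) 0) d
          - ∑ d ∈ K, wt p (N / 2) M F d * sz p M F (fun d => max (-H d) 0) d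
          = M ^ (1 / p - 1) / (N / 2) * ∑ d ∈ K, F d ^ (p - 1) * H d := by
      rw [← sum_sub_distrib, mul_sum]
      refine sum_congr rfl fun d h => ?_
      rw [wt_sz_one hp hN2 hM0 (hF d h), wt_sz_one hp hN2 hM0 (hF d h)]
      conv_rhs => rw [← hsub (H d)]
      ring
    have hM3 : M ^ (2 / p - 2) = (M ^ (1 / p - 1)) ^ 2 := by
      rw [← Real.rpow_natCast, ← Real.rpow_mul hM0.le]
      congr 1
      push_cast
      ring
    rw [s2, s1]
    unfold dd
    rw [← hMdef, mn, mn, ← hNdef, hM3]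
    field_simp
    ring

/-- Hölder interpolation of the `p`-th moment between the first and the second one. -/
lemma interp_below {D : Type} (A : Finset D) (v g : D → ℝ) (hv : ∀ i ∈ A, 0 ≤ v i)
    (hg : ∀ i ∈ A, 0 ≤ g i) {p : ℝ} (hp1 : 1 < p) (hp2 : p ≤ 2) :
    ∑ i ∈ A, v i * g i ^ p
      ≤ (∑ i ∈ A, v i * g i ^ 2) ^ (p - 1) * (∑ i ∈ A, v i * g i) ^ (2 - p) := by
  rcases hp2.eq_or_lt with h2 | h2
  · subst h2
    have e1 : (2 : ℝ) - 1 = 1 := by norm_num
    rw [e1, sub_self, Real.rpow_one, Real.rpow_zero, mul_one]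
    exact le_of_eq (sum_congr rfl fun i _ => by rw [Real.rpow_two])
  have hpq : (1 / (p - 1)).HolderConjugate (1 / (2 - p)) := by
    rw [Real.holderConjugate_iff]
    refine ⟨?_, ?_⟩
    · rw [lt_div_iff₀ (by linarith)]
      linarith
    · simp only [one_div, inv_inv]
      ring
  have h := Real.inner_le_Lp_mul_Lq_of_nonneg A (f := fun i => (v i * g i ^ 2) ^ (p - 1))
    (g := fun i => (v i * g i) ^ (2 - p)) hpq
    (fun i hi => Real.rpow_nonneg (mul_nonneg (hv i hi) (sq_nonneg _)) _)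
    (fun i hi => Real.rpow_nonneg (mul_nonneg (hv i hi) (hg i hi)) _)
  have hp1' : p - 1 ≠ 0 := by linarith
  have hp2' : 2 - p ≠ 0 := by linarith
  have e1 : ∀ i ∈ A, (v i * g i ^ 2) ^ (p - 1) * (v i * g i) ^ (2 - p) = v i * g i ^ p := by
    intro i hi
    have h1 := hv i hi
    have h3 := hg i hi
    rw [Real.mul_rpow h1 (sq_nonneg _), Real.mul_rpow h1 h3, ← Real.rpow_natCast (g i) 2,
      ← Real.rpow_mul h3]
    have e2 : v i ^ (p - 1) * v i ^ (2 - p) = v i := by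
      rw [← Real.rpow_add' h1] <;> ring_nf
      · exact Real.rpow_one _
      · norm_num
    have e3 : g i ^ (((2 : ℕ) : ℝ) * (p - 1)) * g i ^ (2 - p) = g i ^ p := by
      rw [← Real.rpow_add' h3]
      · congr 1; push_cast; ring
      · push_cast
        have : 2 * (p - 1) + (2 - p) = p := by ring
        rw [this]; linarith
    calc v i ^ (p - 1) * g i ^ (((2 : ℕ) : ℝ) * (p - 1)) * (v i ^ (2 - p) * g i ^ (2 - p))
        = (v i ^ (p - 1) * v i ^ (2 - p))
          * (g i ^ (((2 : ℕ) : ℝ) * (p - 1)) * g i ^ (2 - p)) := by ring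
      _ = v i * g i ^ p := by rw [e2, e3]
  have e4 : ∑ i ∈ A, ((v i * g i ^ 2) ^ (p - 1)) ^ (1 / (p - 1)) = ∑ i ∈ A, v i * g i ^ 2 :=
    sum_congr rfl fun i hi => by
      rw [← Real.rpow_mul (mul_nonneg (hv i hi) (sq_nonneg _)), mul_one_div_cancel hp1',
        Real.rpow_one]
  have e5 : ∑ i ∈ A, ((v i * g i) ^ (2 - p)) ^ (1 / (2 - p)) = ∑ i ∈ A, v i * g i :=
    sum_congr rfl fun i hi => by
      rw [← Real.rpow_mul (mul_nonneg (hv i hi) (hg i hi)), mul_one_div_cancel hp2',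
        Real.rpow_one]
  rw [sum_congr rfl e1, e4, e5] at h
  simpa only [one_div_one_div] using h

/-- The second bound of one piece. -/
lemma piece {D : Type} (A : Finset D) (v g : D → ℝ) (hv : ∀ i ∈ A, 0 ≤ v i)
    (hg : ∀ i ∈ A, 0 ≤ g i) {p : ℝ} (hp1 : 1 < p) (hp2 : p ≤ 2) :
    (∑ i ∈ A, v i * g i ^ p) ^ (2 / p)
      ≤ (2 * (p - 1) / p) * ∑ i ∈ A, v i * g i ^ 2
        + ((2 - p) / p) * (∑ i ∈ A, v i * g i) ^ 2 := by
  have hp : 0 < p := by linarith
  have h0 : 0 ≤ ∑ i ∈ A, v i * g i ^ p :=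
    sum_nonneg fun i hi => mul_nonneg (hv i hi) (Real.rpow_nonneg (hg i hi) _)
  have h1 : 0 ≤ ∑ i ∈ A, v i * g i ^ 2 :=
    sum_nonneg fun i hi => mul_nonneg (hv i hi) (sq_nonneg _)
  have h2 : 0 ≤ ∑ i ∈ A, v i * g i := sum_nonneg fun i hi => mul_nonneg (hv i hi) (hg i hi)
  have h := Real.rpow_le_rpow h0 (interp_below A v g hv hg hp1 hp2) (z := 2 / p) (by positivity)
  rw [Real.mul_rpow (Real.rpow_nonneg h1 _) (Real.rpow_nonneg h2 _), ← Real.rpow_mul h1,
    ← Real.rpow_mul h2] at h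
  refine h.trans ?_
  have e1 : (∑ i ∈ A, v i * g i) ^ ((2 - p) * (2 / p))
      = ((∑ i ∈ A, v i * g i) ^ 2) ^ ((2 - p) / p) := by
    rw [← Real.rpow_natCast, ← Real.rpow_mul h2]
    congr 1
    push_cast
    ring
  have e2 : (p - 1) * (2 / p) = 2 * (p - 1) / p := by ring
  rw [e1, e2]
  refine Real.geom_mean_le_arith_mean2_weighted (by positivity) ?_ h1 (sq_nonneg _) ?_
  · exact div_nonneg (by linarith) hp.le
  · field_simp
    ring

/-- Row 1a. -/
theorem sc : SC := by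
  intro D K F H p hp1 hp2 hne hF
  have hp : 0 < p := by linarith
  obtain ⟨v, gp, gm, h1, h2, h3, h4, h5, ep, em, hv, hdd⟩ := expand2 hp hne hF (H := H)
  have t1 := piece K v gp (fun d hd => (h1 d hd).le) h2 hp1 hp2
  have t3 := piece K v gm (fun d hd => (h1 d hd).le) h3 hp1 hp2
  rw [← ep] at t1
  rw [← em] at t3
  rw [hdd]
  have h22 : (2 : ℝ) ^ (2 / p - 1) = 2 ^ (2 / p) / 2 := by
    rw [Real.rpow_sub_one (by norm_num)]
  have hzero : ∀ d ∈ K, gp d * gm d = 0 := by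
    intro d hd
    rcases (h2 d hd).eq_or_lt with h | h
    · rw [← h, zero_mul]
    · rcases (h3 d hd).eq_or_lt with h' | h'
      · rw [← h', mul_zero]
      · have := (h4 d hd).mp h
        have := (h5 d hd).mp h'
        linarith
  -- Cauchy-Schwarz
  have hcs : (∑ d ∈ K, v d * gp d + ∑ d ∈ K, v d * gm d) ^ 2
      ≤ 2 * (∑ d ∈ K, v d * gp d ^ 2 + ∑ d ∈ K, v d * gm d ^ 2) := by
    rw [← hv, ← sum_add_distrib, ← sum_add_distrib]
    apply Finset.sum_sq_le_sum_mul_sum_of_sq_le_mul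
    · exact fun d hd => (h1 d hd).le
    · exact fun d hd => add_nonneg (mul_nonneg (h1 d hd).le (sq_nonneg _))
        (mul_nonneg (h1 d hd).le (sq_nonneg _))
    · intro d hd
      apply le_of_eq
      have := hzero d hd
      linear_combination 2 * v d ^ 2 * this
  obtain ⟨A, hA⟩ : ∃ A, A = ∑ d ∈ K, v d * gp d ^ 2 := ⟨_, rfl⟩
  obtain ⟨B, hB⟩ : ∃ B, B = ∑ d ∈ K, v d * gm d ^ 2 := ⟨_, rfl⟩
  obtain ⟨a, ha⟩ : ∃ a, a = ∑ d ∈ K, v d * gp d := ⟨_, rfl⟩
  obtain ⟨b, hb⟩ : ∃ b, b = ∑ d ∈ K, v d * gm d := ⟨_, rfl⟩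
  rw [← hA, ← hB, ← ha, ← hb] at hcs
  rw [← hA, ← ha] at t1
  rw [← hB, ← hb] at t3
  rw [← hA, ← hB, ← ha, ← hb]
  have hpp : 0 < (p - 1) / 2 := by linarith
  have e2 : (p - 1) * 2 ^ (2 / p - 1) * (th p K (fun d => max (H d) 0)
      + th p K (fun d => max (-H d) 0)) = (p - 1) / 2 * (2 ^ (2 / p) * th p K (fun d => max (H d) 0)
      + 2 ^ (2 / p) * th p K (fun d => max (-H d) 0)) := by
    rw [h22]; ring
  rw [e2]
  have h6 := mul_le_mul_of_nonneg_left (add_le_add t1 t3) hpp.le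
  refine h6.trans ?_
  have h7 : 0 ≤ (2 - p) / (4 * p) := div_nonneg (by linarith) (by linarith)
  have h8 : 0 ≤ (p - 1) * (2 * (A + B) - (a + b) ^ 2) + (a - b) ^ 2 := by
    have : 0 ≤ (p - 1) * (2 * (A + B) - (a + b) ^ 2) := mul_nonneg (by linarith) (by linarith)
    positivity
  have e3 : (p - 1) / 2 * (A + B) + (2 - p) / 4 * (a - b) ^ 2
      - (p - 1) / 2 * (2 * (p - 1) / p * A + (2 - p) / p * a ^ 2
        + (2 * (p - 1) / p * B + (2 - p) / p * b ^ 2))
      = (2 - p) / (4 * p) * ((p - 1) * (2 * (A + B) - (a + b) ^ 2) + (a - b) ^ 2) := by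
    field_simp
    ring
  have h9 := mul_nonneg h7 h8
  linarith

end Pool.Agent.MP_ec946a.RH
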