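import Mathlib
import Pool.Agent.Lib.RH.Defs2

/-!
# The coset step

The two-point inequality on the cosets of `ker ℓ T`, the two halves of which are cosets of
`ker ℓ (insert w T)`.
-/

set_option autoImplicit false
set_option linter.unusedSectionVars false

namespace Pool.Agent.MP_ec946a.RH

open Finset Pool.Agent.MP_ec946a.SDP

lemma th_congr {D : Type} {p : ℝ} {K : Finset D} {F G : D → ℝ} (h : ∀ d ∈ K, F d = G d) :
    th p K F = th p K G := by
  have : ∑ d ∈ K, F d ^ p = ∑ d ∈ K, G d ^ p := sum_congr rfl fun d hd => by rw [h d hd]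
  unfold th mn
  rw [this]

/-- superadditivity of a power -/
lemma add_rpow_ge {A B c : ℝ} (hA : 0 ≤ A) (hB : 0 ≤ B) (hc : 1 ≤ c) :
    A ^ c + B ^ c ≤ (A + B) ^ c := by
  rcases eq_or_lt_of_le (add_nonneg hA hB) with h | h
  · have hA' : A = 0 := by linarith
    have hB' : B = 0 := by linarith
    subst hA' hB'
    have hc0 : c ≠ 0 := by linarith
    rw [add_zero, Real.zero_rpow hc0, add_zero]
  · have h1 : A ^ c ≤ A * (A + B) ^ (c - 1) := by
      rcases eq_or_lt_of_le hA with h0 | h0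
      · rw [← h0, Real.zero_rpow (by linarith : c ≠ 0), zero_mul]
      · have : A ^ c = A * A ^ (c - 1) := by
          rw [← Real.rpow_one_add' hA (by linarith)]; congr 1; ring
        rw [this]
        exact mul_le_mul_of_nonneg_left (Real.rpow_le_rpow hA (by linarith) (by linarith)) hA
    have h2 : B ^ c ≤ B * (A + B) ^ (c - 1) := by
      rcases eq_or_lt_of_le hB with h0 | h0
      · rw [← h0, Real.zero_rpow (by linarith : c ≠ 0), zero_mul]
      · have : B ^ c = B * B ^ (c - 1) := by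
          rw [← Real.rpow_one_add' hB (by linarith)]; congr 1; ring
        rw [this]
        exact mul_le_mul_of_nonneg_left (Real.rpow_le_rpow hB (by linarith) (by linarith)) hB
    have h3 : (A + B) ^ c = (A + B) * (A + B) ^ (c - 1) := by
      rw [← Real.rpow_one_add' h.le (by linarith)]; congr 1; ring
    rw [h3, add_mul]
    exact add_le_add h1 h2

section

variable {Ω D : Type} [Fintype Ω] [DecidableEq Ω] [Fintype D] [DecidableEq D] [AddCommGroup D]
  (ℓ : Ω → (D →+ ZMod 2)) (T : Finset Ω) {w : Ω} {d₀ : D}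

lemma mn_nonneg {D : Type} {K : Finset D} {F : D → ℝ} (h : ∀ d ∈ K, 0 ≤ F d) : 0 ≤ mn K F :=
  div_nonneg (sum_nonneg h) (Nat.cast_nonneg _)

lemma mn_split (hd₀ : d₀ ∈ ker ℓ T) (hw : ℓ w d₀ = 1) (F : D → ℝ) :
    mn (ker ℓ T) F = (mn (ker ℓ (insert w T)) F
      + mn (ker ℓ (insert w T)) fun d => F (d + d₀)) / 2 := by
  unfold mn
  rw [ker_split ℓ T hd₀ hw, card_ker_split ℓ T hd₀ hw]
  have h : ((ker ℓ (insert w T)).card : ℝ) ≠ 0 := by
    exact_mod_cast (card_ker_pos ℓ (insert w T)).ne'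
  field_simp

/-- one norm against the two halves -/
lemma th_split (hd₀ : d₀ ∈ ker ℓ T) (hw : ℓ w d₀ = 1) {p : ℝ} (hp0 : 1 < p) (hp2 : p ≤ 2)
    {F : D → ℝ} (hF : ∀ d, 0 ≤ F d) :
    th p (ker ℓ (insert w T)) F + th p (ker ℓ (insert w T)) (fun d => F (d + d₀))
      ≤ (2 : ℝ) ^ (2 / p) * th p (ker ℓ T) F := by
  unfold th
  rw [mn_split ℓ T hd₀ hw]
  set A := mn (ker ℓ (insert w T)) fun d => F d ^ p
  set B := mn (ker ℓ (insert w T)) fun d => F (d + d₀) ^ p
  have hA : 0 ≤ A := mn_nonneg fun d _ => Real.rpow_nonneg (hF d) _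
  have hB : 0 ≤ B := mn_nonneg fun d _ => Real.rpow_nonneg (hF _) _
  have hc : (1 : ℝ) ≤ 2 / p := by
    rw [le_div_iff₀ (by linarith)]; linarith
  rw [← Real.mul_rpow (by norm_num) (by positivity)]
  have : 2 * ((A + B) / 2) = A + B := by ring
  rw [this]
  exact add_rpow_ge hA hB hc

/-- the sum over both signs of the norms does not see a constant sign -/
lemma th_sign {D : Type} {p : ℝ} {K : Finset D} {F u : D → ℝ} {s : ℝ} (hs : s = 1 ∨ s = -1)
    (h : ∀ d ∈ K, u d = s * F d) :
    th p K (fun d => max (u d) 0) + th p K (fun d => max (-u d) 0)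
      = th p K (fun d => max (F d) 0) + th p K (fun d => max (-F d) 0) := by
  rcases hs with hs | hs
  · subst hs
    congr 1
    · exact th_congr fun d hd => by rw [h d hd, one_mul]
    · exact th_congr fun d hd => by rw [h d hd, one_mul]
  · subst hs
    rw [add_comm]
    congr 1
    · exact th_congr fun d hd => by rw [h d hd]; congr 1; ring
    · exact th_congr fun d hd => by rw [h d hd]; congr 1; ring

lemma NN_shift (p : ℝ) (f : (Ω → ZMod 2) → ℝ) (d₀ : D) :
    ∑ x : Ω → ZMod 2, th p (ker ℓ T) (fun d => f (x + sh ℓ (d + d₀))) = NN ℓ T p f := by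
  unfold NN
  refine Fintype.sum_equiv (Equiv.addRight (sh ℓ d₀)) _ _ fun x => ?_
  refine th_congr fun d _ => ?_
  rw [sh_add]
  show f (x + (sh ℓ d + sh ℓ d₀)) = f (x + sh ℓ d₀ + sh ℓ d)
  congr 1
  abel

end

/-- row 2 -/
theorem st (H : DIq) : ST := by
  intro Ω D _ _ _ _ _ ℓ T w p hp1 hp2 hex a b ha hb hab
  obtain ⟨d₀, hd₀, hne⟩ := hex
  have hw : ℓ w d₀ = 1 := (zmod2 _).resolve_left hne
  have ha' : ∀ x, a (x + Pi.single w 1) = a x := fun x => ha _ _ fun v hv => by
    rw [Pi.add_apply, Pi.single_eq_of_ne hv, add_zero]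
  have hb' : ∀ x, b (x + Pi.single w 1) = b x := fun x => hb _ _ fun v hv => by
    rw [Pi.add_apply, Pi.single_eq_of_ne hv, add_zero]
  set f : (Ω → ZMod 2) → ℝ := fun x => a x + sgn (x w) * b x with hf
  -- one orbit
  have key : ∀ x : Ω → ZMod 2,
      th p (ker ℓ T) (fun d => a (x + sh ℓ d))
        + (p - 1) / 2 * ((th p (ker ℓ (insert w T)) (fun d => max (b (x + sh ℓ d)) 0)
            + th p (ker ℓ (insert w T)) (fun d => max (-b (x + sh ℓ d)) 0))
          + (th p (ker ℓ (insert w T)) (fun d => max (b (x + sh ℓ (d + d₀))) 0)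
            + th p (ker ℓ (insert w T)) (fun d => max (-b (x + sh ℓ (d + d₀))) 0)))
      ≤ (th p (ker ℓ T) (fun d => f (x + sh ℓ d))
        + th p (ker ℓ T) (fun d => f (x + Pi.single w 1 + sh ℓ d))) / 2 := by
    intro x
    set u : D → ℝ := fun d => sgn ((x + sh ℓ d) w) * b (x + sh ℓ d) with hu
    have h1 := H D (ker ℓ T) (fun d => a (x + sh ℓ d)) u p hp1 hp2 ⟨0, zero_mem_ker ℓ T⟩
      (fun d _ => by
        rw [hu]; simp only [abs_mul, abs_sgn, one_mul]; exact hab _)
    have e1 : th p (ker ℓ T) (fun d => f (x + Pi.single w 1 + sh ℓ d))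
        = th p (ker ℓ T) (fun d => a (x + sh ℓ d) - u d) := by
      refine th_congr fun d _ => ?_
      have e : x + Pi.single w 1 + sh ℓ d = (x + sh ℓ d) + Pi.single w 1 := add_right_comm _ _ _
      rw [e]
      show a (x + sh ℓ d + Pi.single w 1) + sgn ((x + sh ℓ d) w + (Pi.single w 1 : Ω → ZMod 2) w)
        * b (x + sh ℓ d + Pi.single w 1) = a (x + sh ℓ d) - sgn ((x + sh ℓ d) w) * b (x + sh ℓ d)
      rw [ha', hb', Pi.single_eq_same, sgn_add, sgn_one]
      ring
    rw [e1]
    refine le_trans ?_ h1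
    have h2 := th_split ℓ T hd₀ hw hp1 hp2 (F := fun d => max (u d) 0) fun d => le_max_right _ _
    have h3 := th_split ℓ T hd₀ hw hp1 hp2 (F := fun d => max (-u d) 0) fun d => le_max_right _ _
    -- the signs are constant on the two halves
    have h4 : th p (ker ℓ (insert w T)) (fun d => max (u d) 0)
        + th p (ker ℓ (insert w T)) (fun d => max (-u d) 0)
        = th p (ker ℓ (insert w T)) (fun d => max (b (x + sh ℓ d)) 0)
            + th p (ker ℓ (insert w T)) (fun d => max (-b (x + sh ℓ d)) 0) := by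
      refine th_sign (sgn_eq (x w)) fun d hd => ?_
      have : ℓ w d = 0 := mem_ker.mp hd w (mem_insert_self _ _)
      rw [hu]
      show sgn (x w + ℓ w d) * _ = _
      rw [this, add_zero]
    have h5 : th p (ker ℓ (insert w T)) (fun d => max (u (d + d₀)) 0)
        + th p (ker ℓ (insert w T)) (fun d => max (-u (d + d₀)) 0)
        = th p (ker ℓ (insert w T)) (fun d => max (b (x + sh ℓ (d + d₀))) 0)
            + th p (ker ℓ (insert w T)) (fun d => max (-b (x + sh ℓ (d + d₀))) 0) := by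
      refine th_sign (sgn_eq (x w + 1)) fun d hd => ?_
      have : ℓ w d = 0 := mem_ker.mp hd w (mem_insert_self _ _)
      rw [hu]
      show sgn (x w + ℓ w (d + d₀)) * _ = _
      rw [map_add, this, hw, zero_add]
    have e2 : (2 : ℝ) ^ (2 / p - 1) = (2 : ℝ) ^ (2 / p) / 2 := by
      rw [Real.rpow_sub_one (by norm_num)]
    have e3 : (p - 1) * (2 : ℝ) ^ (2 / p - 1) *
        (th p (ker ℓ T) (fun d => max (u d) 0) + th p (ker ℓ T) (fun d => max (-u d) 0))
        = (p - 1) / 2 * ((2 : ℝ) ^ (2 / p) * th p (ker ℓ T) (fun d => max (u d) 0)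
          + (2 : ℝ) ^ (2 / p) * th p (ker ℓ T) (fun d => max (-u d) 0)) := by
      rw [e2]; ring
    rw [e3, ← h4, ← h5]
    refine add_le_add le_rfl (mul_le_mul_of_nonneg_left ?_ (by linarith))
    linarith
  have hsum := sum_le_sum fun (x : Ω → ZMod 2) (_ : x ∈ univ) => key x
  have e4 : NN ℓ T p f = ∑ x : Ω → ZMod 2, (th p (ker ℓ T) (fun d => f (x + sh ℓ d))
        + th p (ker ℓ T) (fun d => f (x + Pi.single w 1 + sh ℓ d))) / 2 := by
    unfold NN
    rw [sum_flip w, sum_div]
  rw [e4]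
  refine le_trans (le_of_eq ?_) hsum
  rw [sum_add_distrib, ← mul_sum, sum_add_distrib, sum_add_distrib, sum_add_distrib,
    NN_shift ℓ (insert w T) p (fun x => max (b x) 0), NN_shift ℓ (insert w T) p (fun x => max (-b x) 0)]
  unfold NN
  ring

end Pool.Agent.MP_ec946a.RH
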